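import Pool.Agent.Helper355.HedgeDef

set_option autoImplicit false

open scoped Topology RealInnerProductSpace ContDiff

namespace Pool.Agent.Helper355.Hedge

/-- The support function of degree one. -/
noncomputable def HH (h : E3 → ℝ) : E3 → ℝ := fun x => ‖x‖ * ext0 h x

/-- `x ↦ x_h(x/|x|)` -/
noncomputable def FF (h : E3 → ℝ) : E3 → E3 := fun x => xh h (‖x‖⁻¹ • x)

theorem ext0_smul (h : E3 → ℝ) {c : ℝ} (hc : 0 < c) (x : E3) : ext0 h (c • x) = ext0 h x := by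
  unfold ext0
  rw [norm_smul, Real.norm_of_nonneg hc.le, smul_smul, mul_inv, mul_assoc, mul_comm, mul_assoc,
    mul_inv_cancel₀ hc.ne', mul_one]

theorem isOpen_ne : IsOpen ({0}ᶜ : Set E3) := isOpen_compl_singleton

theorem Smooth.at {h : E3 → ℝ} (hs : Smooth h) {x : E3} (hx : x ≠ 0) :
    ContDiffAt ℝ ∞ (ext0 h) x := hs.contDiffAt (isOpen_ne.mem_nhds hx)

theorem HH_at {h : E3 → ℝ} (hs : Smooth h) {x : E3} (hx : x ≠ 0) :
    ContDiffAt ℝ ∞ (HH h) x := (contDiffAt_norm ℝ hx).mul (hs.at hx)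

theorem inner_gradient (f : E3 → ℝ) (x v : E3) : ⟪gradient f x, v⟫ = fderiv ℝ f x v := by
  unfold gradient
  exact InnerProductSpace.toDual_symm_apply

theorem fderiv_ext0_smul {h : E3 → ℝ} (hs : Smooth h) {c : ℝ} (hc : 0 < c) {x : E3}
    (hx : x ≠ 0) (v : E3) : c * fderiv ℝ (ext0 h) (c • x) v = fderiv ℝ (ext0 h) x v := by
  have hcx : c • x ≠ 0 := smul_ne_zero hc.ne' hx
  have h1 : HasFDerivAt (ext0 h) (fderiv ℝ (ext0 h) (c • x)) (c • x) :=
    ((hs.at hcx).differentiableAt (by simp)).hasFDerivAt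
  have h2 : HasFDerivAt (fun y : E3 => c • y) (c • ContinuousLinearMap.id ℝ E3) x :=
    (hasFDerivAt_id x).const_smul c
  have h3 := h1.comp x h2
  have h4 : (ext0 h ∘ fun y : E3 => c • y) = ext0 h := by
    funext y
    exact ext0_smul h hc y
  rw [h4] at h3
  rw [h3.fderiv]
  simp

theorem norm_fderiv {x : E3} (hx : x ≠ 0) :
    HasFDerivAt (fun y : E3 => ‖y‖) (‖x‖⁻¹ • innerSL ℝ x) x := by
  have hd : DifferentiableAt ℝ (fun y : E3 => ‖y‖) x :=
    (contDiffAt_norm (n := 1) ℝ hx).differentiableAt (by simp)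
  have h1 : HasFDerivAt (fun y : E3 => ‖y‖ ^ 2) (2 • innerSL ℝ x) x := by
    have := (hasStrictFDerivAt_norm_sq x).hasFDerivAt
    simpa using this
  have h2 := hd.hasFDerivAt.pow 2
  have h3 := h2.unique h1
  have hn : ‖x‖ ≠ 0 := norm_ne_zero_iff.2 hx
  have h4 : fderiv ℝ (fun y : E3 => ‖y‖) x = ‖x‖⁻¹ • innerSL ℝ x := by
    ext w
    have h5 := congrArg (fun L : E3 →L[ℝ] ℝ => L w) h3
    simp at h5
    simp
    field_simp
    linarith
  rw [← h4]
  exact hd.hasFDerivAt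

theorem grad_HH {h : E3 → ℝ} (hs : Smooth h) {x : E3} (hx : x ≠ 0) :
    gradient (HH h) x = FF h x := by
  refine ext_inner_right ℝ fun v => ?_
  have hn : 0 < ‖x‖ := norm_pos_iff.2 hx
  rw [inner_gradient]
  have h1 : HasFDerivAt (HH h) (‖x‖ • fderiv ℝ (ext0 h) x + ext0 h x • (‖x‖⁻¹ • innerSL ℝ x)) x :=
    (norm_fderiv hx).mul ((hs.at hx).differentiableAt (by simp)).hasFDerivAt
  rw [h1.fderiv]
  have h2 := fderiv_ext0_smul hs (inv_pos.2 hn) hx v
  have h3 : h (‖x‖⁻¹ • x) = ext0 h x := rfl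
  unfold FF xh
  rw [inner_add_left, inner_gradient, h3, real_inner_smul_left, real_inner_smul_left]
  simp only [add_apply, smul_apply, smul_eq_mul, innerSL_apply_apply]
  rw [← h2]
  field_simp
  ring

theorem FF_at {h : E3 → ℝ} (hs : Smooth h) {x : E3} (hx : x ≠ 0) :
    ContDiffAt ℝ ∞ (FF h) x := by
  have h1 : ContDiffAt ℝ ∞ (fderiv ℝ (HH h)) x :=
    (HH_at hs hx).fderiv_right (m := ∞) (by simp)
  have h2 : ContDiffAt ℝ ∞ (gradient (HH h)) x := by
    unfold gradient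
    exact (InnerProductSpace.toDual ℝ E3).symm.contDiff.contDiffAt.comp x h1
  refine h2.congr_of_eventuallyEq ?_
  filter_upwards [isOpen_ne.mem_nhds hx] with y hy
  exact (grad_HH hs hy).symm

theorem inner_fderiv_FF {h : E3 → ℝ} (hs : Smooth h) {x : E3} (hx : x ≠ 0) (v w : E3) :
    ⟪fderiv ℝ (FF h) x v, w⟫ = fderiv ℝ (fderiv ℝ (HH h)) x v w := by
  have h1 : DifferentiableAt ℝ (fderiv ℝ (HH h)) x :=
    ((HH_at hs hx).fderiv_right (m := ∞) (by simp)).differentiableAt (by simp)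
  have h3 : HasFDerivAt (fun y => fderiv ℝ (HH h) y w)
      ((ContinuousLinearMap.apply ℝ ℝ w).comp (fderiv ℝ (fderiv ℝ (HH h)) x)) x :=
    (ContinuousLinearMap.apply ℝ ℝ w).hasFDerivAt.comp x h1.hasFDerivAt
  have h4 : HasFDerivAt (fun y => ⟪FF h y, w⟫)
      ((innerSL ℝ w).comp (fderiv ℝ (FF h) x)) x := by
    have h5 := (innerSL ℝ w).hasFDerivAt.comp x
      ((FF_at hs hx).differentiableAt (by simp)).hasFDerivAt
    refine h5.congr_of_eventuallyEq (Filter.Eventually.of_forall fun y => ?_)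
    simp [real_inner_comm]
  have h6 : (fun y => ⟪FF h y, w⟫) =ᶠ[𝓝 x] fun y => fderiv ℝ (HH h) y w := by
    filter_upwards [isOpen_ne.mem_nhds hx] with y hy
    rw [← grad_HH hs hy, inner_gradient]
  have h7 := (h3.congr_of_eventuallyEq h6).unique h4
  have h8 := congrArg (fun L : E3 →L[ℝ] ℝ => L v) h7
  simp at h8
  rw [real_inner_comm, ← h8]

theorem symm_FF {h : E3 → ℝ} (hs : Smooth h) {x : E3} (hx : x ≠ 0) (v w : E3) :
    ⟪fderiv ℝ (FF h) x v, w⟫ = ⟪v, fderiv ℝ (FF h) x w⟫ := by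
  rw [inner_fderiv_FF hs hx, real_inner_comm, inner_fderiv_FF hs hx]
  exact (HH_at hs hx).isSymmSndFDerivAt (by simp; exact WithTop.coe_le_coe.2 le_top) v w

theorem FF_smul (h : E3 → ℝ) {c : ℝ} (hc : 0 < c) (x : E3) : FF h (c • x) = FF h x := by
  unfold FF
  congr 1
  rw [norm_smul, Real.norm_of_nonneg hc.le, smul_smul, mul_inv, mul_assoc, mul_comm, mul_assoc,
    mul_inv_cancel₀ hc.ne', mul_one]

theorem fderiv_FF_self {h : E3 → ℝ} (hs : Smooth h) {x : E3} (hx : x ≠ 0) :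
    fderiv ℝ (FF h) x x = 0 := by
  have h1 : HasFDerivAt (FF h) (fderiv ℝ (FF h) x) ((1 : ℝ) • x) := by
    rw [one_smul]
    exact ((FF_at hs hx).differentiableAt (by simp)).hasFDerivAt
  have h2 : HasDerivAt (fun c : ℝ => c • x) x 1 := by
    simpa using (hasDerivAt_id (1 : ℝ)).smul_const x
  have h3 := h1.comp_hasDerivAt (1 : ℝ) h2
  have h4 : HasDerivAt (FF h ∘ fun c : ℝ => c • x) 0 1 := by
    refine (hasDerivAt_const (1 : ℝ) (FF h x)).congr_of_eventuallyEq ?_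
    filter_upwards [lt_mem_nhds (show (0 : ℝ) < 1 by norm_num)] with c hc
    exact FF_smul h hc x
  exact h3.unique h4

theorem inner_fderiv_self {h : E3 → ℝ} (hs : Smooth h) {x : E3} (hx : x ≠ 0) (v : E3) :
    ⟪fderiv ℝ (FF h) x v, x⟫ = 0 := by
  rw [symm_FF hs hx, fderiv_FF_self hs hx, inner_zero_right]

/-- The reflection in the plane orthogonal to `a`. -/
noncomputable def refl (a : E3) : E3 →L[ℝ] E3 :=
  ContinuousLinearMap.id ℝ E3 - (2 : ℝ) • (innerSL ℝ a).smulRight a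

theorem refl_apply (a x : E3) : refl a x = x - (2 * ⟪a, x⟫) • a := by
  unfold refl
  simp [smul_smul]

theorem inner_refl (a x y : E3) : ⟪refl a x, y⟫ = ⟪x, refl a y⟫ := by
  rw [refl_apply, refl_apply, inner_sub_left, inner_sub_right, real_inner_smul_left,
    real_inner_smul_right, real_inner_comm a x]
  ring

theorem refl_refl {a : E3} (ha : ‖a‖ = 1) (x : E3) : refl a (refl a x) = x := by
  rw [refl_apply, refl_apply, inner_sub_right, real_inner_smul_right, real_inner_self_eq_norm_sq,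
    ha]
  module

theorem norm_refl {a : E3} (ha : ‖a‖ = 1) (x : E3) : ‖refl a x‖ = ‖x‖ := by
  have h1 : ‖refl a x‖ ^ 2 = ‖x‖ ^ 2 := by
    rw [← real_inner_self_eq_norm_sq, inner_refl, refl_refl ha, real_inner_self_eq_norm_sq]
  exact (sq_eq_sq₀ (norm_nonneg _) (norm_nonneg _)).1 h1

theorem refl_self {a : E3} (ha : ‖a‖ = 1) : refl a a = -a := by
  rw [refl_apply, real_inner_self_eq_norm_sq, ha]
  module

theorem refl_fix {a x : E3} (hx : ⟪a, x⟫ = 0) : refl a x = x := by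
  rw [refl_apply, hx]
  simp

theorem HH_refl {h : E3 → ℝ} {a : E3} {ε : ℝ} (ha : ‖a‖ = 1)
    (hr : ∀ u : E3, ‖u‖ = 1 → h (u - (2 * ⟪a, u⟫) • a) = ε * h u) (x : E3) :
    HH h (refl a x) = ε * HH h x := by
  by_cases hx : x = 0
  · subst hx
    simp [HH]
  · have hn : ‖x‖ ≠ 0 := norm_ne_zero_iff.2 hx
    unfold HH ext0
    rw [norm_refl ha]
    have h1 : ‖‖x‖⁻¹ • x‖ = 1 := by
      rw [norm_smul, norm_inv, norm_norm, inv_mul_cancel₀ hn]
    have h2 := hr _ h1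
    have h3 : ‖x‖⁻¹ • refl a x = ‖x‖⁻¹ • x - (2 * ⟪a, ‖x‖⁻¹ • x⟫) • a := by
      rw [refl_apply, real_inner_smul_right]
      module
    rw [h3, h2]
    ring

theorem refl_FF {h : E3 → ℝ} {a : E3} {ε : ℝ} (hs : Smooth h) (ha : ‖a‖ = 1)
    (hr : ∀ u : E3, ‖u‖ = 1 → h (u - (2 * ⟪a, u⟫) • a) = ε * h u) {x : E3} (hx : x ≠ 0) :
    refl a (FF h (refl a x)) = ε • FF h x := by
  have hrx : refl a x ≠ 0 := by
    intro h0
    apply hx
    rw [← refl_refl ha x, h0, map_zero]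
  refine ext_inner_right ℝ fun v => ?_
  rw [inner_refl, real_inner_smul_left, ← grad_HH hs hrx, ← grad_HH hs hx, inner_gradient,
    inner_gradient]
  have h1 : HasFDerivAt (HH h) (fderiv ℝ (HH h) (refl a x)) (refl a x) :=
    ((HH_at hs hrx).differentiableAt (by simp)).hasFDerivAt
  have h2 := h1.comp x (refl a).hasFDerivAt
  have h3 : (HH h ∘ refl a) = fun y => ε * HH h y := by
    funext y
    exact HH_refl ha hr y
  rw [h3] at h2
  have h4 : HasFDerivAt (fun y => ε * HH h y) (ε • fderiv ℝ (HH h) x) x :=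
    ((HH_at hs hx).differentiableAt (by simp)).hasFDerivAt.const_mul ε
  have h5 := congrArg (fun L : E3 →L[ℝ] ℝ => L v) (h2.unique h4)
  simpa using h5

theorem refl_fderiv_FF {h : E3 → ℝ} {a : E3} {ε : ℝ} (hs : Smooth h) (ha : ‖a‖ = 1)
    (hr : ∀ u : E3, ‖u‖ = 1 → h (u - (2 * ⟪a, u⟫) • a) = ε * h u) {x : E3} (hx : x ≠ 0)
    (v : E3) :
    refl a (fderiv ℝ (FF h) (refl a x) (refl a v)) = ε • fderiv ℝ (FF h) x v := by
  have hrx : refl a x ≠ 0 := by
    intro h0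
    apply hx
    rw [← refl_refl ha x, h0, map_zero]
  have h1 : HasFDerivAt (FF h) (fderiv ℝ (FF h) (refl a x)) (refl a x) :=
    ((FF_at hs hrx).differentiableAt (by simp)).hasFDerivAt
  have h2 := (refl a).hasFDerivAt.comp x (h1.comp x (refl a).hasFDerivAt)
  have h4 : HasFDerivAt (fun y => ε • FF h y) (ε • fderiv ℝ (FF h) x) x :=
    ((FF_at hs hx).differentiableAt (by simp)).hasFDerivAt.const_smul ε
  have h3 : (⇑(refl a) ∘ (FF h ∘ ⇑(refl a))) =ᶠ[𝓝 x] fun y => ε • FF h y := by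
    filter_upwards [isOpen_ne.mem_nhds hx] with y hy
    exact refl_FF hs ha hr hy
  have h5 := congrArg (fun L : E3 →L[ℝ] E3 => L v) (h2.unique (h4.congr_of_eventuallyEq h3))
  simpa using h5

/-- oddness -/
theorem HH_odd {h : E3 → ℝ} (ho : ∀ u : E3, ‖u‖ = 1 → h (-u) = - h u) (x : E3) :
    HH h (-x) = - HH h x := by
  by_cases hx : x = 0
  · subst hx
    simp [HH]
  · have hn : ‖x‖ ≠ 0 := norm_ne_zero_iff.2 hx
    unfold HH ext0
    have h1 : ‖‖x‖⁻¹ • x‖ = 1 := by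
      rw [norm_smul, norm_inv, norm_norm, inv_mul_cancel₀ hn]
    rw [norm_neg, smul_neg, ho _ h1]
    ring

theorem FF_even {h : E3 → ℝ} (hs : Smooth h) (ho : ∀ u : E3, ‖u‖ = 1 → h (-u) = - h u) {x : E3}
    (hx : x ≠ 0) : FF h (-x) = FF h x := by
  have hnx : -x ≠ 0 := neg_ne_zero.2 hx
  refine ext_inner_right ℝ fun v => ?_
  rw [← grad_HH hs hnx, ← grad_HH hs hx, inner_gradient, inner_gradient]
  have h1 : HasFDerivAt (HH h) (fderiv ℝ (HH h) (-x)) (-x) :=
    ((HH_at hs hnx).differentiableAt (by simp)).hasFDerivAt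
  have h2 := h1.comp x (hasFDerivAt_id x).neg
  have h3 : (HH h ∘ fun y => -id y) = fun y => - HH h y := by
    funext y
    exact HH_odd ho y
  have h4 : HasFDerivAt (fun y => - HH h y) (- fderiv ℝ (HH h) x) x :=
    ((HH_at hs hx).differentiableAt (by simp)).hasFDerivAt.neg
  rw [← h3] at h4
  have h5 := congrArg (fun L : E3 →L[ℝ] ℝ => L v) (h2.unique h4)
  simpa using h5

theorem fderiv_FF_neg {h : E3 → ℝ} (hs : Smooth h) (ho : ∀ u : E3, ‖u‖ = 1 → h (-u) = - h u)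
    {x : E3} (hx : x ≠ 0) (v : E3) : fderiv ℝ (FF h) (-x) v = - fderiv ℝ (FF h) x v := by
  have hnx : -x ≠ 0 := neg_ne_zero.2 hx
  have h1 : HasFDerivAt (FF h) (fderiv ℝ (FF h) (-x)) (-x) :=
    ((FF_at hs hnx).differentiableAt (by simp)).hasFDerivAt
  have h2 := h1.comp x (hasFDerivAt_id x).neg
  have h4 : HasFDerivAt (FF h) (fderiv ℝ (FF h) x) x :=
    ((FF_at hs hx).differentiableAt (by simp)).hasFDerivAt
  have h3 : (FF h ∘ fun y => -id y) =ᶠ[𝓝 x] FF h := by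
    filter_upwards [isOpen_ne.mem_nhds hx] with y hy
    exact FF_even hs ho hy
  have h5 := congrArg (fun L : E3 →L[ℝ] E3 => L v) (h2.unique (h4.congr_of_eventuallyEq h3))
  have h6 : -(fderiv ℝ (FF h) (-x) v) = fderiv ℝ (FF h) x v := by simpa using h5
  rw [← h6, neg_neg]

end Pool.Agent.Helper355.Hedge
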