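import Pool.Agent.Helper355.HedgeA

set_option autoImplicit false

open scoped Topology RealInnerProductSpace ContDiff
open Filter

namespace Pool.Agent.Helper355.Hedge

theorem second_chain {E F : Type*} [NormedAddCommGroup E] [NormedSpace ℝ E]
    [NormedAddCommGroup F] [NormedSpace ℝ F] (G : E → F) (c : ℝ → E)
    (hG : ContDiffAt ℝ ∞ G (c 0)) (hc : ContDiffAt ℝ ∞ c 0) :
    HasDerivAt (deriv (G ∘ c)) (fderiv ℝ (fderiv ℝ G) (c 0) (deriv c 0) (deriv c 0)
      + fderiv ℝ G (c 0) (deriv (deriv c) 0)) 0 := by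
  have h1 : ∀ᶠ τ in 𝓝 (0 : ℝ), deriv (G ∘ c) τ = fderiv ℝ G (c τ) (deriv c τ) := by
    have e1 : ∀ᶠ x in 𝓝 (c 0), ContDiffAt ℝ 1 G x :=
      (hG.of_le (by simp)).eventually (by simp)
    have e2 : ∀ᶠ τ in 𝓝 (0 : ℝ), ContDiffAt ℝ 1 c τ :=
      (hc.of_le (by simp)).eventually (by simp)
    filter_upwards [hc.continuousAt.eventually e1, e2] with τ h1 h2
    exact ((h1.differentiableAt (by simp)).hasFDerivAt.comp_hasDerivAt τ
      (h2.differentiableAt (by simp)).hasDerivAt).deriv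
  have hcd : HasDerivAt c (deriv c 0) 0 := (hc.differentiableAt (by simp)).hasDerivAt
  have h2 : HasDerivAt (fun τ => fderiv ℝ G (c τ)) (fderiv ℝ (fderiv ℝ G) (c 0) (deriv c 0)) 0 :=
    ((hG.fderiv_right (m := ∞) (by simp)).differentiableAt (by simp)).hasFDerivAt.comp_hasDerivAt
      0 hcd
  have h3 : HasDerivAt (deriv c) (deriv (deriv c) 0) 0 := by
    have h4 : ContDiffAt ℝ ∞ (deriv c) 0 := by
      have h5 : ContDiffAt ℝ ∞ (fun τ => fderiv ℝ c τ 1) 0 :=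
        (hc.fderiv_right (m := ∞) (by simp)).clm_apply contDiffAt_const
      exact h5
    exact (h4.differentiableAt (by simp)).hasDerivAt
  exact (h2.clm_apply h3).congr_of_eventuallyEq h1

theorem FF_unit (h : E3 → ℝ) {u : E3} (hu : ‖u‖ = 1) : FF h u = xh h u := by
  unfold FF
  rw [hu, inv_one, one_smul]

theorem not_cusp {h : E3 → ℝ} (hs : Smooth h) {u t a : E3} (hu : ‖u‖ = 1)
    (hdec : ∀ v : E3, v = ⟪u, v⟫ • u + ⟪t, v⟫ • t + ⟪a, v⟫ • a)
    (hDa : fderiv ℝ (FF h) u a = 0)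
    (hDD : fderiv ℝ (FF h) u t ≠ 0 → ⟪fderiv ℝ (fderiv ℝ (FF h)) u a a, a⟫ = 0) :
    ¬ GermEq h u cuspEdge := by
  rintro ⟨P, Ψ, hP, hP0, hPn, hPinj, hΨ, hΨb, hg⟩
  have hu0 : u ≠ 0 := by
    intro h0
    rw [h0, norm_zero] at hu
    exact zero_ne_one hu
  have hFu : ContDiffAt ℝ ∞ (FF h) u := FF_at hs hu0
  rw [← FF_unit h hu] at hΨ hΨb
  have hgF : ∀ᶠ p in 𝓝 (0 : ℝ × ℝ), Ψ (FF h (P p)) = cuspEdge p := by
    filter_upwards [hPn, hg] with p h1 h2
    rw [FF_unit h h1, h2]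
  -- first derivatives
  have hPd : HasFDerivAt P (fderiv ℝ P 0) 0 := (hP.differentiableAt (by simp)).hasFDerivAt
  have hFd : HasFDerivAt (FF h) (fderiv ℝ (FF h) u) (P 0) := by
    rw [hP0]
    exact (hFu.differentiableAt (by simp)).hasFDerivAt
  have hΨd : HasFDerivAt Ψ (fderiv ℝ Ψ (FF h u)) (FF h (P 0)) := by
    rw [hP0]
    exact (hΨ.differentiableAt (by simp)).hasFDerivAt
  have hcomp := (hΨd.comp (0 : ℝ × ℝ) (hFd.comp (0 : ℝ × ℝ) hPd)).congr_of_eventuallyEq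
    (f₁ := cuspEdge) (by filter_upwards [hgF] with p hp using hp.symm)
  have hcoord : ∀ (i : Fin 3) (v : ℝ × ℝ), HasDerivAt (fun r : ℝ => (cuspEdge (r • v)) i)
      ((fderiv ℝ Ψ (FF h u) (fderiv ℝ (FF h) u (fderiv ℝ P 0 v))) i) 0 := by
    intro i v
    have h1 : HasDerivAt (fun r : ℝ => r • v) v 0 := by
      simpa using (hasDerivAt_id (0 : ℝ)).smul_const v
    have h2 : HasFDerivAt cuspEdge ((fderiv ℝ Ψ (FF h u)).comp
        ((fderiv ℝ (FF h) u).comp (fderiv ℝ P 0))) ((0 : ℝ) • v) := by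
      rw [zero_smul]
      exact hcomp
    have h3 := h2.comp_hasDerivAt (0 : ℝ) h1
    exact (EuclideanSpace.proj (𝕜 := ℝ) i).hasFDerivAt.comp_hasDerivAt (0 : ℝ) h3
  -- coordinates of the derivative in the two directions
  have hs0 : (fderiv ℝ Ψ (FF h u) (fderiv ℝ (FF h) u (fderiv ℝ P 0 (1, 0)))) 0 = 1 := by
    have h1 := hcoord 0 (1, 0)
    have h2 : HasDerivAt (fun r : ℝ => (cuspEdge (r • ((1 : ℝ), (0 : ℝ)))) 0) 1 0 := by
      have : (fun r : ℝ => (cuspEdge (r • ((1 : ℝ), (0 : ℝ)))) 0) = fun r => r := by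
        funext r
        simp [cuspEdge]
      rw [this]
      exact hasDerivAt_id 0
    exact h1.unique h2
  have hs1 : (fderiv ℝ Ψ (FF h u) (fderiv ℝ (FF h) u (fderiv ℝ P 0 (1, 0)))) 1 = 0 := by
    have h1 := hcoord 1 (1, 0)
    have h2 : HasDerivAt (fun r : ℝ => (cuspEdge (r • ((1 : ℝ), (0 : ℝ)))) 1) 0 0 := by
      have : (fun r : ℝ => (cuspEdge (r • ((1 : ℝ), (0 : ℝ)))) 1) = fun _ => 0 := by
        funext r
        simp [cuspEdge]
      rw [this]
      exact hasDerivAt_const 0 0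
    exact h1.unique h2
  have ht : fderiv ℝ Ψ (FF h u) (fderiv ℝ (FF h) u (fderiv ℝ P 0 (0, 1))) = 0 := by
    ext i
    have h1 := hcoord i (0, 1)
    have h2 : HasDerivAt (fun r : ℝ => (cuspEdge (r • ((0 : ℝ), (1 : ℝ)))) i) 0 0 := by
      fin_cases i
      · have : (fun r : ℝ => (cuspEdge (r • ((0 : ℝ), (1 : ℝ)))) 0) = fun _ => 0 := by
          funext r
          simp [cuspEdge]
        show HasDerivAt (fun r : ℝ => (cuspEdge (r • ((0 : ℝ), (1 : ℝ)))) 0) 0 0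
        rw [this]
        exact hasDerivAt_const 0 0
      · have : (fun r : ℝ => (cuspEdge (r • ((0 : ℝ), (1 : ℝ)))) 1) = fun r => r ^ 2 := by
          funext r
          simp [cuspEdge]
        show HasDerivAt (fun r : ℝ => (cuspEdge (r • ((0 : ℝ), (1 : ℝ)))) 1) 0 0
        rw [this]
        simpa using hasDerivAt_pow 2 (0 : ℝ)
      · have : (fun r : ℝ => (cuspEdge (r • ((0 : ℝ), (1 : ℝ)))) 2) = fun r => r ^ 3 := by
          funext r
          simp [cuspEdge]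
        show HasDerivAt (fun r : ℝ => (cuspEdge (r • ((0 : ℝ), (1 : ℝ)))) 2) 0 0
        rw [this]
        simpa using hasDerivAt_pow 3 (0 : ℝ)
    exact h1.unique h2
  set ps := fderiv ℝ P 0 (1, 0) with hps
  set pt := fderiv ℝ P 0 (0, 1) with hpt
  set D := fderiv ℝ (FF h) u with hD
  have hDpt : D pt = 0 := hΨb.1 (by rw [ht, map_zero])
  have hDps : D ps ≠ 0 := by
    intro h0
    rw [h0, map_zero] at hs0
    simp at hs0
  -- tangency
  have htan : ∀ v : ℝ × ℝ, ⟪u, fderiv ℝ P 0 v⟫ = 0 := by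
    intro v
    have h1 : HasFDerivAt (fun p => ⟪P p, P p⟫) _ 0 := hPd.inner ℝ hPd
    have h2 : HasFDerivAt (fun p : ℝ × ℝ => ⟪P p, P p⟫) (0 : ℝ × ℝ →L[ℝ] ℝ) 0 := by
      refine (hasFDerivAt_const (1 : ℝ) (0 : ℝ × ℝ)).congr_of_eventuallyEq ?_
      filter_upwards [hPn] with p hp
      rw [real_inner_self_eq_norm_sq, hp]
      norm_num
    have h3 := congrArg (fun L : ℝ × ℝ →L[ℝ] ℝ => L v) (h1.unique h2)
    simp [hP0] at h3
    rw [real_inner_comm (fderiv ℝ P 0 v) u] at h3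
    have h4 : ⟪fderiv ℝ P 0 v, u⟫ = ⟪u, fderiv ℝ P 0 v⟫ := real_inner_comm _ _
    linarith [h3, h4]
  have hups : ⟪u, ps⟫ = 0 := htan _
  have hupt : ⟪u, pt⟫ = 0 := htan _
  have hDt : D t ≠ 0 := by
    intro h0
    apply hDps
    rw [hdec ps, map_add, map_add, map_smul, map_smul, map_smul, hups, h0, hDa]
    simp
  have hDDa := hDD hDt
  have htpt : ⟪t, pt⟫ = 0 := by
    have h1 : D pt = ⟪t, pt⟫ • D t := by
      conv_lhs => rw [hdec pt]
      rw [map_add, map_add, map_smul, map_smul, map_smul, hupt, hDa]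
      simp
    rw [hDpt] at h1
    rcases smul_eq_zero.1 h1.symm with h2 | h2
    · exact h2
    · exact absurd h2 hDt
  have hpta : pt = ⟪a, pt⟫ • a := by
    conv_lhs => rw [hdec pt]
    rw [hupt, htpt]
    simp
  -- the curve
  set q : ℝ → E3 := fun τ => P ((0 : ℝ), τ) with hq
  have hL : ContDiff ℝ ∞ (fun τ : ℝ => ((0 : ℝ), τ)) := contDiff_const.prodMk contDiff_id
  have hL0 : (fun τ : ℝ => ((0 : ℝ), τ)) 0 = (0 : ℝ × ℝ) := rfl
  have hqs : ContDiffAt ℝ ∞ q 0 := by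
    have : ContDiffAt ℝ ∞ P ((fun τ : ℝ => ((0 : ℝ), τ)) 0) := hP
    exact this.comp (0 : ℝ) hL.contDiffAt
  have hq0 : q 0 = u := hP0
  have htend : Tendsto (fun τ : ℝ => ((0 : ℝ), τ)) (𝓝 0) (𝓝 (0 : ℝ × ℝ)) :=
    hL.continuous.tendsto' 0 0 rfl
  have hqd : HasDerivAt q pt 0 := by
    have h1 : HasDerivAt (fun τ : ℝ => ((0 : ℝ), τ)) ((0 : ℝ), (1 : ℝ)) 0 :=
      (hasDerivAt_const (0 : ℝ) (0 : ℝ)).prodMk (hasDerivAt_id (0 : ℝ))
    have h2 : HasFDerivAt P (fderiv ℝ P 0) ((fun τ : ℝ => ((0 : ℝ), τ)) 0) := hPd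
    exact h2.comp_hasDerivAt (0 : ℝ) h1
  have hqn : ∀ᶠ τ in 𝓝 (0 : ℝ), ‖q τ‖ = 1 := htend.eventually hPn
  set f : ℝ → E3 := FF h ∘ q with hf
  have hFq : ContDiffAt ℝ ∞ (FF h) (q 0) := by rw [hq0]; exact hFu
  have hfs : ContDiffAt ℝ ∞ f 0 := hFq.comp (0 : ℝ) hqs
  have hfd : deriv f 0 = 0 := by
    have h1 : HasFDerivAt (FF h) D (q 0) := by rw [hq0]; exact (hFu.differentiableAt (by simp)).hasFDerivAt
    rw [(h1.comp_hasDerivAt (0 : ℝ) hqd).deriv, hDpt]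
  have hw := second_chain (FF h) q hFq hqs
  rw [hq0, hqd.deriv] at hw
  set w := fderiv ℝ (fderiv ℝ (FF h)) u pt pt + fderiv ℝ (FF h) u (deriv (deriv q) 0) with hwdef
  have hw2 : deriv (deriv f) 0 = w := hw.deriv
  -- `w` is orthogonal to `a`
  have hwa : ⟪w, a⟫ = 0 := by
    rw [hwdef, inner_add_left, symm_FF hs hu0, ← hD, hDa, inner_zero_right, add_zero]
    generalize hc : ⟪a, pt⟫ = c at hpta
    rw [hpta, map_smul, map_smul, smul_apply, real_inner_smul_left, real_inner_smul_left, hDDa]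
    ring
  -- `w` is orthogonal to `u`
  have hwu : ⟪w, u⟫ = 0 := by
    have h1 : ∀ᶠ τ in 𝓝 (0 : ℝ), ⟪deriv f τ, q τ⟫ = 0 := by
      have e1 : ∀ᶠ τ in 𝓝 (0 : ℝ), ContDiffAt ℝ 1 q τ :=
        (hqs.of_le (by simp)).eventually (by simp)
      filter_upwards [hqn, e1] with τ hn h1
      have hqτ : q τ ≠ 0 := by
        intro h0
        rw [h0, norm_zero] at hn
        exact zero_ne_one hn
      have h2 : HasFDerivAt (FF h) (fderiv ℝ (FF h) (q τ)) (q τ) :=
        ((FF_at hs hqτ).differentiableAt (by simp)).hasFDerivAt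
      rw [hf, (h2.comp_hasDerivAt τ (h1.differentiableAt (by simp)).hasDerivAt).deriv]
      exact inner_fderiv_self hs hqτ _
    have h2 : HasDerivAt (fun τ => ⟪deriv f τ, q τ⟫) _ 0 := hw.inner ℝ hqd
    have h3 : HasDerivAt (fun τ => ⟪deriv f τ, q τ⟫) 0 0 :=
      (hasDerivAt_const (0 : ℝ) (0 : ℝ)).congr_of_eventuallyEq h1
    have h4 := h2.unique h3
    rw [← hf, hfd, inner_zero_left, zero_add, hq0] at h4
    exact h4
  have hwt : w = ⟪t, w⟫ • t := by
    conv_lhs => rw [hdec w]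
    rw [real_inner_comm, hwu, real_inner_comm w a, hwa]
    simp
  have hpst : D ps = ⟪t, D ps⟫ • t := by
    conv_lhs => rw [hdec (D ps)]
    have h1 : ⟪u, D ps⟫ = 0 := by
      rw [real_inner_comm]
      exact inner_fderiv_self hs hu0 _
    have h2 : ⟪a, D ps⟫ = 0 := by
      rw [real_inner_comm, hD, symm_FF hs hu0, ← hD, hDa, inner_zero_right]
    rw [h1, h2]
    simp
  -- the second coordinate of `Ψ`
  set ψ : E3 → ℝ := fun x => (Ψ x) 1 with hψ
  have hf0 : f 0 = FF h u := by rw [hf, Function.comp_apply, hq0]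
  have hψs : ContDiffAt ℝ ∞ ψ (f 0) := by
    rw [hf0]
    exact (EuclideanSpace.proj (𝕜 := ℝ) (1 : Fin 3)).contDiff.contDiffAt.comp _ hΨ
  have hψd : ∀ v, fderiv ℝ ψ (f 0) v = (fderiv ℝ Ψ (FF h u) v) 1 := by
    intro v
    rw [hf0]
    have h1 : HasFDerivAt Ψ (fderiv ℝ Ψ (FF h u)) (FF h u) :=
      (hΨ.differentiableAt (by simp)).hasFDerivAt
    have h2 := (EuclideanSpace.proj (𝕜 := ℝ) (1 : Fin 3)).hasFDerivAt.comp (FF h u) h1
    have h3 : fderiv ℝ ψ (FF h u) = _ := h2.fderiv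
    rw [h3]
    rfl
  have h5 := second_chain ψ f hψs hfs
  rw [hfd, hw2] at h5
  have h6 : HasDerivAt (deriv (ψ ∘ f)) 2 0 := by
    have e1 : (ψ ∘ f) =ᶠ[𝓝 0] fun τ => τ ^ 2 := by
      filter_upwards [htend.eventually hgF] with τ hτ
      show (Ψ (FF h (P (0, τ)))) 1 = τ ^ 2
      rw [hτ]
      simp [cuspEdge]
    have e2 : deriv (ψ ∘ f) =ᶠ[𝓝 0] fun τ => 2 * τ := by
      refine e1.deriv.trans (Eventually.of_forall fun τ => ?_)
      simp
    have e3 : HasDerivAt (fun τ : ℝ => 2 * τ) 2 0 := by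
      simpa using (hasDerivAt_id (0 : ℝ)).const_mul 2
    exact e3.congr_of_eventuallyEq e2
  have h7 := h5.unique h6
  rw [map_zero, zero_add, hψd] at h7
  have h8 : (fderiv ℝ Ψ (FF h u) t) 1 = 0 := by
    have h9 := hs1
    rw [hpst, map_smul] at h9
    have h10 : ⟪t, D ps⟫ * (fderiv ℝ Ψ (FF h u) t) 1 = 0 := by simpa using h9
    rcases mul_eq_zero.1 h10 with h11 | h11
    · exfalso
      apply hDps
      rw [hpst, h11, zero_smul]
    · exact h11
  rw [hwt, map_smul] at h7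
  have h12 : ⟪t, w⟫ * (fderiv ℝ Ψ (FF h u) t) 1 = 2 := by simpa using h7
  rw [h8, mul_zero] at h12
  norm_num at h12

section frame

variable (b : OrthonormalBasis (Fin 3) ℝ E3)

/-- the rotating frame -/
noncomputable def uu (θ : ℝ) : E3 := Real.cos θ • b 0 + Real.sin θ • b 1
/-- the rotating frame -/
noncomputable def tt (θ : ℝ) : E3 := (-Real.sin θ) • b 0 + Real.cos θ • b 1

theorem inner_bb (i j : Fin 3) : ⟪b i, b j⟫ = if i = j then (1 : ℝ) else 0 :=
  orthonormal_iff_ite.1 b.orthonormal i j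

theorem frame_dec (θ : ℝ) (v : E3) :
    v = ⟪uu b θ, v⟫ • uu b θ + ⟪tt b θ, v⟫ • tt b θ + ⟪b 2, v⟫ • b 2 := by
  have h1 := b.sum_repr' v
  rw [Fin.sum_univ_three] at h1
  conv_lhs => rw [← h1]
  unfold uu tt
  simp only [inner_add_left, real_inner_smul_left]
  have h2 := Real.cos_sq_add_sin_sq θ
  match_scalars
  · linear_combination (-⟪b 0, v⟫) * h2
  · linear_combination (-⟪b 1, v⟫) * h2
  · ring

theorem norm_uu (θ : ℝ) : ‖uu b θ‖ = 1 := by
  have h1 : ‖uu b θ‖ ^ 2 = 1 := by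
    rw [← real_inner_self_eq_norm_sq]
    unfold uu
    simp only [inner_add_left, inner_add_right, real_inner_smul_left, real_inner_smul_right,
      inner_bb]
    simp
    nlinarith [Real.cos_sq_add_sin_sq θ]
  have h2 : (0 : ℝ) ≤ ‖uu b θ‖ := norm_nonneg _
  nlinarith

theorem inner_uu (θ : ℝ) : ⟪b 2, uu b θ⟫ = 0 := by
  unfold uu
  simp only [inner_add_right, real_inner_smul_right, inner_bb]
  simp

theorem inner_tt (θ : ℝ) : ⟪b 2, tt b θ⟫ = 0 := by
  unfold tt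
  simp only [inner_add_right, real_inner_smul_right, inner_bb]
  simp

theorem inner_ut (θ : ℝ) : ⟪uu b θ, tt b θ⟫ = 0 := by
  unfold tt uu
  simp only [inner_add_left, inner_add_right, real_inner_smul_left, real_inner_smul_right,
    inner_bb]
  simp
  ring

theorem uu_ne (θ : ℝ) : uu b θ ≠ 0 := by
  intro h0
  have h1 := norm_uu b θ
  rw [h0, norm_zero] at h1
  exact zero_ne_one h1

theorem hasDerivAt_uu (θ : ℝ) : HasDerivAt (uu b) (tt b θ) θ := by
  unfold uu tt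
  exact ((Real.hasDerivAt_cos θ).smul_const (b 0)).add ((Real.hasDerivAt_sin θ).smul_const (b 1))

theorem uu_pi : uu b Real.pi = - uu b 0 := by
  unfold uu
  simp

end frame

theorem case_sym {h : E3 → ℝ} (hs : Smooth h) (ho : ∀ u : E3, ‖u‖ = 1 → h (-u) = - h u)
    (b : OrthonormalBasis (Fin 3) ℝ E3)
    (hr : ∀ u : E3, ‖u‖ = 1 → h (u - (2 * ⟪b 2, u⟫) • b 2) = 1 * h u) :
    ∃ u : E3, ‖u‖ = 1 ∧ IsSing h u ∧ ¬ IsCuspEdge h u := by
  have ha : ‖b 2‖ = 1 := b.norm_eq_one 2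
  -- the function to which the intermediate value theorem is applied
  set β : ℝ → ℝ := fun θ => ⟪fderiv ℝ (FF h) (uu b θ) (b 2), b 2⟫ with hβ
  have hcont : Continuous β := by
    refine continuous_iff_continuousAt.2 fun θ => ?_
    have h1 : ContinuousAt (fderiv ℝ (FF h)) (uu b θ) :=
      ((FF_at hs (uu_ne b θ)).fderiv_right (m := ∞) (by simp)).continuousAt
    have h2 : ContinuousAt (fun θ => fderiv ℝ (FF h) (uu b θ)) θ :=
      ContinuousAt.comp (f := uu b) (g := fderiv ℝ (FF h)) h1 (hasDerivAt_uu b θ).continuousAt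
    have h3 : ContinuousAt (fun θ => fderiv ℝ (FF h) (uu b θ) (b 2)) θ :=
      h2.clm_apply continuousAt_const
    exact h3.inner continuousAt_const
  have hβπ : β Real.pi = - β 0 := by
    rw [hβ]
    show ⟪fderiv ℝ (FF h) (uu b Real.pi) (b 2), b 2⟫ = - ⟪fderiv ℝ (FF h) (uu b 0) (b 2), b 2⟫
    rw [uu_pi, fderiv_FF_neg hs ho (uu_ne b 0), inner_neg_left]
  obtain ⟨θ, hθ⟩ : ∃ θ, β θ = 0 := by
    have h1 := intermediate_value_uIcc (a := (0 : ℝ)) (b := Real.pi) (f := β) hcont.continuousOn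
    have h2 : (0 : ℝ) ∈ Set.uIcc (β 0) (β Real.pi) := by
      rw [hβπ, Set.mem_uIcc]
      rcases le_total (β 0) 0 with h3 | h3
      · left; constructor <;> linarith
      · right; constructor <;> linarith
    obtain ⟨θ, -, h3⟩ := h1 h2
    exact ⟨θ, h3⟩
  set u := uu b θ with hu
  have hu0 : u ≠ 0 := uu_ne b θ
  have hun : ‖u‖ = 1 := norm_uu b θ
  have hua : ⟪b 2, u⟫ = 0 := inner_uu b θ
  have hfix : refl (b 2) u = u := refl_fix hua
  have hDa : fderiv ℝ (FF h) u (b 2) = 0 := by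
    have h1 := refl_fderiv_FF hs ha hr hu0 (b 2)
    rw [hfix, refl_self ha, map_neg, map_neg, one_smul] at h1
    -- `-σ w = w`
    set w := fderiv ℝ (FF h) u (b 2) with hw
    have h2 : ⟪b 2, w⟫ = 0 := by
      rw [real_inner_comm]
      exact hθ
    rw [refl_fix h2] at h1
    have h3 : (2 : ℝ) • w = 0 := by
      rw [two_smul]
      nth_rewrite 1 [← h1]
      simp
    exact (smul_eq_zero.1 h3).resolve_left two_ne_zero
  refine ⟨u, hun, ⟨b 2, ?_, ?_, hDa⟩, ?_⟩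
  · intro h0
    rw [h0, norm_zero] at ha
    exact zero_ne_one ha
  · rw [real_inner_comm]
    exact hua
  refine not_cusp hs hun (frame_dec b θ) hDa fun _ => ?_
  -- the second derivative in the direction of the normal
  have hFF' : DifferentiableAt ℝ (fderiv ℝ (FF h)) u :=
    ((FF_at hs hu0).fderiv_right (m := ∞) (by simp)).differentiableAt (by simp)
  have hline : HasDerivAt (fun r : ℝ => u + r • b 2) (b 2) 0 := by
    simpa using ((hasDerivAt_id (0 : ℝ)).smul_const (b 2)).const_add u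
  have h1 : HasFDerivAt (fderiv ℝ (FF h)) (fderiv ℝ (fderiv ℝ (FF h)) u) (u + (0 : ℝ) • b 2) := by
    rw [zero_smul, add_zero]
    exact hFF'.hasFDerivAt
  have h2 : HasDerivAt (fun r : ℝ => fderiv ℝ (FF h) (u + r • b 2))
      (fderiv ℝ (fderiv ℝ (FF h)) u (b 2)) 0 := h1.comp_hasDerivAt (0 : ℝ) hline
  have h3 : HasDerivAt (fun r : ℝ => fderiv ℝ (FF h) (u + r • b 2) (b 2))
      (fderiv ℝ (fderiv ℝ (FF h)) u (b 2) (b 2)) 0 := by
    have := h2.clm_apply (hasDerivAt_const (0 : ℝ) (b 2))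
    simpa using this
  have h4 : HasDerivAt (fun r : ℝ => ⟪fderiv ℝ (FF h) (u + r • b 2) (b 2), b 2⟫)
      ⟪fderiv ℝ (fderiv ℝ (FF h)) u (b 2) (b 2), b 2⟫ 0 := by
    have := h3.inner ℝ (hasDerivAt_const (0 : ℝ) (b 2))
    simpa using this
  have hnz : ∀ r : ℝ, u + r • b 2 ≠ 0 := by
    intro r h0
    have h5 : ⟪u, u + r • b 2⟫ = 1 := by
      rw [inner_add_right, real_inner_smul_right, real_inner_self_eq_norm_sq, hun,
        real_inner_comm, hua]
      norm_num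
    rw [h0, inner_zero_right] at h5
    exact zero_ne_one h5
  have h5 : ∀ r : ℝ, ⟪fderiv ℝ (FF h) (u + (-r) • b 2) (b 2), b 2⟫
      = ⟪fderiv ℝ (FF h) (u + r • b 2) (b 2), b 2⟫ := by
    intro r
    have h6 := refl_fderiv_FF hs ha hr (hnz r) (b 2)
    have h7 : refl (b 2) (u + r • b 2) = u + (-r) • b 2 := by
      rw [map_add, map_smul, hfix, refl_self ha]
      module
    rw [h7, refl_self ha, map_neg, map_neg, one_smul] at h6
    rw [← h6, inner_neg_left, inner_refl, refl_self ha, inner_neg_right, neg_neg]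
  have h8 : HasDerivAt (fun r : ℝ => ⟪fderiv ℝ (FF h) (u + (-r) • b 2) (b 2), b 2⟫)
      (-⟪fderiv ℝ (fderiv ℝ (FF h)) u (b 2) (b 2), b 2⟫) 0 := by
    have h9 : HasDerivAt (fun r : ℝ => ⟪fderiv ℝ (FF h) (u + r • b 2) (b 2), b 2⟫)
      ⟪fderiv ℝ (fderiv ℝ (FF h)) u (b 2) (b 2), b 2⟫ (-(0 : ℝ)) := by
      rw [neg_zero]
      exact h4
    have h10 := h9.scomp (0 : ℝ) (hasDerivAt_neg (0 : ℝ))
    simpa [Function.comp_def] using h10
  simp only [h5] at h8
  have h11 := h4.unique h8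
  linarith

theorem case_anti {h : E3 → ℝ} (hs : Smooth h) (ho : ∀ u : E3, ‖u‖ = 1 → h (-u) = - h u)
    (b : OrthonormalBasis (Fin 3) ℝ E3)
    (hr : ∀ u : E3, ‖u‖ = 1 → h (u - (2 * ⟪b 2, u⟫) • b 2) = (-1) * h u) :
    ∃ u : E3, ‖u‖ = 1 ∧ IsSing h u ∧ ¬ IsCuspEdge h u := by
  have ha : ‖b 2‖ = 1 := b.norm_eq_one 2
  set g : ℝ → ℝ := fun θ => ⟪FF h (uu b θ), b 2⟫ with hg
  have hFd : ∀ θ, HasFDerivAt (FF h) (fderiv ℝ (FF h) (uu b θ)) (uu b θ) := fun θ =>
    ((FF_at hs (uu_ne b θ)).differentiableAt (by simp)).hasFDerivAt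
  have hd : ∀ θ, HasDerivAt (fun θ => FF h (uu b θ)) (fderiv ℝ (FF h) (uu b θ) (tt b θ)) θ :=
    fun θ => (hFd θ).comp_hasDerivAt θ (hasDerivAt_uu b θ)
  have hgd : ∀ θ, HasDerivAt g ⟪fderiv ℝ (FF h) (uu b θ) (tt b θ), b 2⟫ θ := by
    intro θ
    have := (hd θ).inner ℝ (hasDerivAt_const θ (b 2))
    simpa using this
  have hfix : ∀ θ, refl (b 2) (uu b θ) = uu b θ := fun θ => refl_fix (inner_uu b θ)
  obtain ⟨θ, hθ⟩ : ∃ θ, ⟪fderiv ℝ (FF h) (uu b θ) (tt b θ), b 2⟫ = 0 := by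
    have h1 : g 0 = g Real.pi := by
      rw [hg]
      show ⟪FF h (uu b 0), b 2⟫ = ⟪FF h (uu b Real.pi), b 2⟫
      rw [uu_pi, FF_even hs ho (uu_ne b 0)]
    obtain ⟨θ, -, h2⟩ := exists_hasDerivAt_eq_zero Real.pi_pos
      (fun θ _ => (hgd θ).continuousAt.continuousWithinAt) h1 (fun θ _ => hgd θ)
    exact ⟨θ, h2⟩
  set u := uu b θ with hu
  have hu0 : u ≠ 0 := uu_ne b θ
  have hun : ‖u‖ = 1 := norm_uu b θ
  have hua : ⟪b 2, u⟫ = 0 := inner_uu b θ
  have hta : ⟪b 2, tt b θ⟫ = 0 := inner_tt b θ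
  -- the derivative in the direction `t` vanishes
  have hDt : fderiv ℝ (FF h) u (tt b θ) = 0 := by
    have h1 := refl_fderiv_FF hs ha hr hu0 (tt b θ)
    rw [hu, hfix θ, ← hu, refl_fix hta] at h1
    set w := fderiv ℝ (FF h) u (tt b θ) with hw
    have h2 : ⟪b 2, w⟫ = 0 := by
      rw [real_inner_comm]
      exact hθ
    rw [refl_fix h2] at h1
    have h3 : (2 : ℝ) • w = 0 := by
      rw [two_smul]
      nth_rewrite 1 [h1]
      simp
    exact (smul_eq_zero.1 h3).resolve_left two_ne_zero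
  have hDa : fderiv ℝ (FF h) u (b 2) = 0 := by
    have h1 := refl_fderiv_FF hs ha hr hu0 (b 2)
    rw [hu, hfix θ, ← hu, refl_self ha, map_neg, map_neg] at h1
    set w := fderiv ℝ (FF h) u (b 2) with hw
    have h2 : ⟪b 2, w⟫ = 0 := by
      have h3 := congrArg (fun z => ⟪b 2, z⟫) h1
      simp only [inner_neg_right, real_inner_smul_right] at h3
      rw [← inner_refl, refl_self ha, inner_neg_left] at h3
      linarith
    have h3 : ⟪u, w⟫ = 0 := by
      rw [real_inner_comm]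
      exact inner_fderiv_self hs hu0 _
    have h4 : ⟪tt b θ, w⟫ = 0 := by
      rw [hw, real_inner_comm, symm_FF hs hu0, hDt, inner_zero_right]
    have h5 := frame_dec b θ w
    rw [← hu, h2, h3, h4] at h5
    rw [h5]
    simp
  refine ⟨u, hun, ⟨b 2, ?_, ?_, hDa⟩, ?_⟩
  · intro h0
    rw [h0, norm_zero] at ha
    exact zero_ne_one ha
  · rw [real_inner_comm]
    exact hua
  exact not_cusp hs hun (frame_dec b θ) hDa fun h0 => absurd hDt h0

end Pool.Agent.Helper355.Hedge
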