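import Pool.Agent.Helper355.HedgeB

set_option autoImplicit false

open scoped Topology RealInnerProductSpace ContDiff
open Filter

namespace Pool.Agent.Helper355.Hedge

theorem HH_plane {h : E3 → ℝ} (b : OrthonormalBasis (Fin 3) ℝ E3) {p q : ℝ}
    (hlin : ∀ x y : ℝ, x ^ 2 + y ^ 2 = 1 → h (x • b 0 + y • b 1) = p * x + q * y) (x y : ℝ)
    (hxy : x • b 0 + y • b 1 ≠ 0) : HH h (x • b 0 + y • b 1) = p * x + q * y := by
  set z := x • b 0 + y • b 1 with hz
  have hn : ‖z‖ ≠ 0 := norm_ne_zero_iff.2 hxy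
  have hsq : ‖z‖ ^ 2 = x ^ 2 + y ^ 2 := by
    rw [← real_inner_self_eq_norm_sq, hz]
    simp only [inner_add_left, inner_add_right, real_inner_smul_left, real_inner_smul_right,
      inner_bb]
    simp
    ring
  have h1 : (‖z‖⁻¹ * x) ^ 2 + (‖z‖⁻¹ * y) ^ 2 = 1 := by
    field_simp
    rw [hsq]
  have h2 := hlin _ _ h1
  have h3 : ‖z‖⁻¹ • z = (‖z‖⁻¹ * x) • b 0 + (‖z‖⁻¹ * y) • b 1 := by
    conv_lhs => rw [hz]
    rw [smul_add, smul_smul, smul_smul, ← hz]
  unfold HH ext0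
  rw [h3, h2]
  field_simp

theorem case_lin {h : E3 → ℝ} (hs : Smooth h) (ho : ∀ u : E3, ‖u‖ = 1 → h (-u) = - h u)
    (b : OrthonormalBasis (Fin 3) ℝ E3) (p q : ℝ)
    (hlin : ∀ x y : ℝ, x ^ 2 + y ^ 2 = 1 → h (x • b 0 + y • b 1) = p * x + q * y) :
    ∃ u : E3, ‖u‖ = 1 ∧ IsSing h u ∧ ¬ IsCuspEdge h u := by
  have ha : ‖b 2‖ = 1 := b.norm_eq_one 2
  set g : ℝ → ℝ := fun θ => ⟪FF h (uu b θ), b 2⟫ with hg
  have hFd : ∀ θ, HasFDerivAt (FF h) (fderiv ℝ (FF h) (uu b θ)) (uu b θ) := fun θ =>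
    ((FF_at hs (uu_ne b θ)).differentiableAt (by simp)).hasFDerivAt
  have hd : ∀ θ, HasDerivAt (fun θ => FF h (uu b θ)) (fderiv ℝ (FF h) (uu b θ) (tt b θ)) θ :=
    fun θ => (hFd θ).comp_hasDerivAt θ (hasDerivAt_uu b θ)
  have hgd : ∀ θ, HasDerivAt g ⟪fderiv ℝ (FF h) (uu b θ) (tt b θ), b 2⟫ θ := by
    intro θ
    have := (hd θ).inner ℝ (hasDerivAt_const θ (b 2))
    simpa using this
  obtain ⟨θ, hθ⟩ : ∃ θ, ⟪fderiv ℝ (FF h) (uu b θ) (tt b θ), b 2⟫ = 0 := by
    have h1 : g 0 = g Real.pi := by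
      rw [hg]
      show ⟪FF h (uu b 0), b 2⟫ = ⟪FF h (uu b Real.pi), b 2⟫
      rw [uu_pi, FF_even hs ho (uu_ne b 0)]
    obtain ⟨θ, -, h2⟩ := exists_hasDerivAt_eq_zero Real.pi_pos
      (fun θ _ => (hgd θ).continuousAt.continuousWithinAt) h1 (fun θ _ => hgd θ)
    exact ⟨θ, h2⟩
  set u := uu b θ with hu
  set a := tt b θ with hadef
  have hu0 : u ≠ 0 := uu_ne b θ
  have hun : ‖u‖ = 1 := norm_uu b θ
  have hua : ⟪u, a⟫ = 0 := inner_ut b θ
  have haa : ⟪a, a⟫ = 1 := by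
    rw [hadef]
    unfold tt
    simp only [inner_add_left, inner_add_right, real_inner_smul_left, real_inner_smul_right,
      inner_bb]
    simp
    nlinarith [Real.cos_sq_add_sin_sq θ]
  -- along the line `u + r a`
  have hline : ∀ r : ℝ, u + r • a
      = (Real.cos θ - r * Real.sin θ) • b 0 + (Real.sin θ + r * Real.cos θ) • b 1 := by
    intro r
    rw [hu, hadef]
    unfold uu tt
    module
  have hnz : ∀ r : ℝ, u + r • a ≠ 0 := by
    intro r h0
    have h5 : ⟪u, u + r • a⟫ = 1 := by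
      rw [inner_add_right, real_inner_smul_right, real_inner_self_eq_norm_sq, hun, hua]
      norm_num
    rw [h0, inner_zero_right] at h5
    exact zero_ne_one h5
  have hl : ∀ r : ℝ, HasDerivAt (fun r : ℝ => u + r • a) a r := by
    intro r
    simpa using ((hasDerivAt_id r).smul_const a).const_add u
  set κ : ℝ := - p * Real.sin θ + q * Real.cos θ with hκ
  have hF1 : ∀ r : ℝ, ⟪FF h (u + r • a), a⟫ = κ := by
    intro r
    rw [← grad_HH hs (hnz r), inner_gradient]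
    have h1 : HasFDerivAt (HH h) (fderiv ℝ (HH h) (u + r • a)) (u + r • a) :=
      ((HH_at hs (hnz r)).differentiableAt (by simp)).hasFDerivAt
    have h2 := h1.comp_hasDerivAt r (hl r)
    have h3 : (HH h ∘ fun r : ℝ => u + r • a)
        = fun r => (p * Real.cos θ + q * Real.sin θ) + κ * r := by
      funext s
      have h4 := hnz s
      rw [hline s] at h4
      rw [Function.comp_apply, hline s, HH_plane b hlin _ _ h4, hκ]
      ring
    rw [h3] at h2
    have h5 : HasDerivAt (fun r : ℝ => (p * Real.cos θ + q * Real.sin θ) + κ * r) κ r := by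
      simpa using ((hasDerivAt_id r).const_mul κ).const_add (p * Real.cos θ + q * Real.sin θ)
    exact h2.unique h5
  have hF2 : ∀ r : ℝ, ⟪fderiv ℝ (FF h) (u + r • a) a, a⟫ = 0 := by
    intro r
    have h1 : HasFDerivAt (FF h) (fderiv ℝ (FF h) (u + r • a)) (u + r • a) :=
      ((FF_at hs (hnz r)).differentiableAt (by simp)).hasFDerivAt
    have h2 : HasDerivAt (FF h ∘ fun r : ℝ => u + r • a) (fderiv ℝ (FF h) (u + r • a) a) r :=
      h1.comp_hasDerivAt r (hl r)
    have h3 : HasDerivAt (fun r : ℝ => ⟪FF h (u + r • a), a⟫)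
        ⟪fderiv ℝ (FF h) (u + r • a) a, a⟫ r := by
      have := h2.inner ℝ (hasDerivAt_const r a)
      simpa using this
    simp only [hF1] at h3
    exact h3.unique (hasDerivAt_const r κ)
  have hDa : fderiv ℝ (FF h) u a = 0 := by
    have h5 := frame_dec b θ (fderiv ℝ (FF h) u a)
    rw [← hu, ← hadef] at h5
    have e1 : ⟪u, fderiv ℝ (FF h) u a⟫ = 0 := by
      rw [real_inner_comm]
      exact inner_fderiv_self hs hu0 _
    have e2 : ⟪a, fderiv ℝ (FF h) u a⟫ = 0 := by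
      have := hF2 0
      rw [zero_smul, add_zero] at this
      rw [real_inner_comm]
      exact this
    have e3 : ⟪b 2, fderiv ℝ (FF h) u a⟫ = 0 := by
      rw [real_inner_comm]
      exact hθ
    rw [e1, e2, e3] at h5
    rw [h5]
    simp
  have ha0 : a ≠ 0 := by
    intro h0
    rw [h0, inner_zero_left] at haa
    exact zero_ne_one haa
  refine ⟨u, hun, ⟨a, ha0, hua, hDa⟩, ?_⟩
  refine not_cusp (t := b 2) hs hun (fun v => ?_) hDa fun _ => ?_
  · conv_lhs => rw [frame_dec b θ v]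
    rw [← hu, ← hadef]
    abel
  · have hFF' : DifferentiableAt ℝ (fderiv ℝ (FF h)) u :=
      ((FF_at hs hu0).fderiv_right (m := ∞) (by simp)).differentiableAt (by simp)
    have h1 : HasFDerivAt (fderiv ℝ (FF h)) (fderiv ℝ (fderiv ℝ (FF h)) u) (u + (0 : ℝ) • a) := by
      rw [zero_smul, add_zero]
      exact hFF'.hasFDerivAt
    have h2 : HasDerivAt (fun r : ℝ => fderiv ℝ (FF h) (u + r • a))
        (fderiv ℝ (fderiv ℝ (FF h)) u a) 0 := h1.comp_hasDerivAt (0 : ℝ) (hl 0)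
    have h3 : HasDerivAt (fun r : ℝ => fderiv ℝ (FF h) (u + r • a) a)
        (fderiv ℝ (fderiv ℝ (FF h)) u a a) 0 := by
      have := h2.clm_apply (hasDerivAt_const (0 : ℝ) a)
      simpa using this
    have h4 : HasDerivAt (fun r : ℝ => ⟪fderiv ℝ (FF h) (u + r • a) a, a⟫)
        ⟪fderiv ℝ (fderiv ℝ (FF h)) u a a, a⟫ 0 := by
      have := h3.inner ℝ (hasDerivAt_const (0 : ℝ) a)
      simpa using this
    simp only [hF2] at h4
    exact h4.unique (hasDerivAt_const (0 : ℝ) (0 : ℝ))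

end Pool.Agent.Helper355.Hedge
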