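import Pool.Agent.Helper355.HedgeB

set_option autoImplicit false

open scoped Topology RealInnerProductSpace ContDiff
open Filter

namespace Pool.Agent.Helper355.Hedge

/-- the derivative of `x_h`, as a quadratic form, is positive transversally to `x` -/
def Pos (h : E3 → ℝ) (x : E3) : Prop :=
  ∀ v : E3, (∀ c : ℝ, v ≠ c • x) → 0 < ⟪fderiv ℝ (FF h) x v, v⟫

theorem fderiv_FF_smul {h : E3 → ℝ} (hs : Smooth h) {c : ℝ} (hc : 0 < c) {x : E3}
    (hx : x ≠ 0) (v : E3) : c • fderiv ℝ (FF h) (c • x) v = fderiv ℝ (FF h) x v := by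
  have hcx : c • x ≠ 0 := smul_ne_zero hc.ne' hx
  have h1 : HasFDerivAt (FF h) (fderiv ℝ (FF h) (c • x)) (c • x) :=
    ((FF_at hs hcx).differentiableAt (by simp)).hasFDerivAt
  have h2 : HasFDerivAt (fun y : E3 => c • y) (c • ContinuousLinearMap.id ℝ E3) x :=
    (hasFDerivAt_id x).const_smul c
  have h3 := h1.comp x h2
  have h4 : (FF h ∘ fun y : E3 => c • y) = FF h := by
    funext y
    exact FF_smul h hc y
  rw [h4] at h3
  rw [h3.fderiv]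
  simp

theorem Pos.smul {h : E3 → ℝ} (hs : Smooth h) {c : ℝ} (hc : 0 < c) {x : E3} (hx : x ≠ 0)
    (hp : Pos h x) : Pos h (c • x) := by
  intro v hv
  have h1 : ∀ d : ℝ, v ≠ d • x := by
    intro d hd
    apply hv (d * c⁻¹)
    rw [hd, smul_smul, mul_assoc, inv_mul_cancel₀ hc.ne', mul_one]
  have h2 := hp v h1
  rw [← fderiv_FF_smul hs hc hx, real_inner_smul_left] at h2
  exact pos_of_mul_pos_right h2 hc.le |> fun h => by
    rcases (mul_pos_iff.1 h2) with h3 | h3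
    · exact h3.2
    · exact absurd h3.1 (not_lt.2 hc.le)

theorem Pos.nonneg {h : E3 → ℝ} (hs : Smooth h) {x : E3} (hx : x ≠ 0) (hp : Pos h x) (v : E3) :
    0 ≤ ⟪fderiv ℝ (FF h) x v, v⟫ := by
  by_cases hv : ∀ c : ℝ, v ≠ c • x
  · exact (hp v hv).le
  · push Not at hv
    obtain ⟨c, rfl⟩ := hv
    rw [map_smul, fderiv_FF_self hs hx, smul_zero, inner_zero_left]

theorem Pos.neg_nonpos {h : E3 → ℝ} (hs : Smooth h) (ho : ∀ u : E3, ‖u‖ = 1 → h (-u) = - h u)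
    {x : E3} (hx : x ≠ 0) (hp : Pos h (-x)) (v : E3) : ⟪fderiv ℝ (FF h) x v, v⟫ ≤ 0 := by
  have h1 := hp.nonneg hs (neg_ne_zero.2 hx) v
  rw [fderiv_FF_neg hs ho hx, inner_neg_left] at h1
  linarith

/-- criterion for positivity in a frame -/
theorem pos_crit {h : E3 → ℝ} (hs : Smooth h) {x t a : E3} (hx : x ≠ 0)
    (hspan : ∀ v : E3, ∃ s p q : ℝ, v = s • x + p • t + q • a)
    (h11 : 0 < ⟪fderiv ℝ (FF h) x t, t⟫)
    (hdet : 0 < ⟪fderiv ℝ (FF h) x t, t⟫ * ⟪fderiv ℝ (FF h) x a, a⟫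
      - ⟪fderiv ℝ (FF h) x t, a⟫ ^ 2) : Pos h x := by
  intro v hv
  obtain ⟨s, p, q, rfl⟩ := hspan v
  have hpq : ¬ (p = 0 ∧ q = 0) := by
    rintro ⟨rfl, rfl⟩
    apply hv s
    simp
  set D := fderiv ℝ (FF h) x with hD
  have e1 : D x = 0 := fderiv_FF_self hs hx
  have e2 : ∀ w, ⟪D w, x⟫ = 0 := fun w => inner_fderiv_self hs hx w
  have e3 : ⟪D a, t⟫ = ⟪D t, a⟫ := by
    rw [hD, symm_FF hs hx, real_inner_comm]
  have e4 : ⟪D (s • x + p • t + q • a), s • x + p • t + q • a⟫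
      = p ^ 2 * ⟪D t, t⟫ + 2 * p * q * ⟪D t, a⟫ + q ^ 2 * ⟪D a, a⟫ := by
    simp only [map_add, map_smul, inner_add_left, inner_add_right, real_inner_smul_left,
      real_inner_smul_right, e1, e2, e3, inner_zero_left]
    ring
  rw [e4]
  set A := ⟪D t, t⟫
  set B := ⟪D t, a⟫
  set C := ⟪D a, a⟫
  have h5 : A * (p ^ 2 * A + 2 * p * q * B + q ^ 2 * C) = (A * p + B * q) ^ 2
      + (A * C - B ^ 2) * q ^ 2 := by ring
  have h6 : 0 < A * (p ^ 2 * A + 2 * p * q * B + q ^ 2 * C) := by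
    rw [h5]
    by_cases hq : q = 0
    · have hp : p ≠ 0 := fun hp => hpq ⟨hp, hq⟩
      rw [hq]
      have : 0 < (A * p) ^ 2 := by positivity
      nlinarith
    · have : 0 < (A * C - B ^ 2) * q ^ 2 := by positivity
      nlinarith [sq_nonneg (A * p + B * q)]
  rcases mul_pos_iff.1 h6 with h7 | h7
  · exact h7.2
  · exact absurd h7.1 (not_lt.2 h11.le)

/-- sign of a function near a simple zero -/
theorem sign_near {g : ℝ → ℝ} {g' : ℝ} (hg : HasDerivAt g g' 0) (h0 : g 0 = 0) (hn : g' < 0) :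
    (∀ᶠ r in 𝓝[>] (0 : ℝ), g r < 0) ∧ (∀ᶠ r in 𝓝[<] (0 : ℝ), 0 < g r) := by
  have h1 := (hasDerivAt_iff_tendsto_slope.1 hg).eventually (gt_mem_nhds hn)
  constructor
  · have h2 : ∀ᶠ r in 𝓝[>] (0 : ℝ), slope g 0 r < 0 :=
      h1.filter_mono (nhdsWithin_mono _ (fun r (hr : 0 < r) => ne_of_gt hr))
    filter_upwards [h2, self_mem_nhdsWithin] with r h3 hr
    have hr' : (0 : ℝ) < r := hr
    rw [slope_def_field, h0, sub_zero, sub_zero] at h3
    by_contra hcon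
    exact absurd h3 (not_lt.2 (div_nonneg (not_lt.1 hcon) hr'.le))
  · have h2 : ∀ᶠ r in 𝓝[<] (0 : ℝ), slope g 0 r < 0 :=
      h1.filter_mono (nhdsWithin_mono _ (fun r (hr : r < 0) => ne_of_lt hr))
    filter_upwards [h2, self_mem_nhdsWithin] with r h3 hr
    have hr' : r < (0 : ℝ) := hr
    rw [slope_def_field, h0, sub_zero, sub_zero] at h3
    by_contra hcon
    exact absurd h3 (not_lt.2 (div_nonneg_of_nonpos (not_lt.1 hcon) hr'.le))

/-- the third derivative -/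
noncomputable def T3 (h : E3 → ℝ) (u w p q : E3) : ℝ :=
  ⟪fderiv ℝ (fderiv ℝ (FF h)) u w p, q⟫

theorem hasDerivAt_form {h : E3 → ℝ} (hs : Smooth h) {u : E3} (hu : u ≠ 0) (w p q : E3) :
    HasDerivAt (fun r : ℝ => ⟪fderiv ℝ (FF h) (u + r • w) p, q⟫) (T3 h u w p q) 0 := by
  have hFF' : DifferentiableAt ℝ (fderiv ℝ (FF h)) u :=
    ((FF_at hs hu).fderiv_right (m := ∞) (by simp)).differentiableAt (by simp)
  have h1 : HasFDerivAt (fderiv ℝ (FF h)) (fderiv ℝ (fderiv ℝ (FF h)) u) (u + (0 : ℝ) • w) := by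
    rw [zero_smul, add_zero]
    exact hFF'.hasFDerivAt
  have hl : HasDerivAt (fun r : ℝ => u + r • w) w 0 := by
    simpa using ((hasDerivAt_id (0 : ℝ)).smul_const w).const_add u
  have h2 : HasDerivAt (fun r : ℝ => fderiv ℝ (FF h) (u + r • w))
      (fderiv ℝ (fderiv ℝ (FF h)) u w) 0 := h1.comp_hasDerivAt (0 : ℝ) hl
  have h3 : HasDerivAt (fun r : ℝ => fderiv ℝ (FF h) (u + r • w) p)
      (fderiv ℝ (fderiv ℝ (FF h)) u w p) 0 := by
    have := h2.clm_apply (hasDerivAt_const (0 : ℝ) p)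
    simpa using this
  have := h3.inner ℝ (hasDerivAt_const (0 : ℝ) q)
  simpa [T3] using this

theorem continuousAt_form {h : E3 → ℝ} (hs : Smooth h) {u : E3} (hu : u ≠ 0) (p q : E3) :
    ContinuousAt (fun x : E3 => ⟪fderiv ℝ (FF h) x p, q⟫) u := by
  have h1 : ContinuousAt (fderiv ℝ (FF h)) u :=
    ((FF_at hs hu).fderiv_right (m := ∞) (by simp)).continuousAt
  exact (h1.clm_apply continuousAt_const).inner continuousAt_const

theorem span_near {u t a : E3} (hdec : ∀ v : E3, v = ⟪u, v⟫ • u + ⟪t, v⟫ • t + ⟪a, v⟫ • a)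
    {x : E3} (hx : ⟪u, x⟫ ≠ 0) (v : E3) : ∃ s p q : ℝ, v = s • x + p • t + q • a := by
  refine ⟨⟪u, v⟫ / ⟪u, x⟫, ⟪t, v⟫ - ⟪u, v⟫ / ⟪u, x⟫ * ⟪t, x⟫,
    ⟪a, v⟫ - ⟪u, v⟫ / ⟪u, x⟫ * ⟪a, x⟫, ?_⟩
  have h1 : (⟪u, v⟫ / ⟪u, x⟫) • x
      = (⟪u, v⟫ / ⟪u, x⟫) • (⟪u, x⟫ • u + ⟪t, x⟫ • t + ⟪a, x⟫ • a) :=
    congrArg (fun z => (⟪u, v⟫ / ⟪u, x⟫) • z) (hdec x)
  rw [h1]
  conv_lhs => rw [hdec v]
  match_scalars
  · field_simp
  · ring
  · ring

end Pool.Agent.Helper355.Hedge
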