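import Mathlib

set_option autoImplicit false

open scoped Topology RealInnerProductSpace ContDiff

namespace Pool.Agent.Helper355.Hedge

/-- Euclidean three-space. A function `h` on the unit sphere is given by a function on `E3`; only
its values at the unit vectors are used. -/
abbrev E3 : Type := EuclideanSpace ℝ (Fin 3)

/-- The extension `x ↦ h (x / |x|)` of a function on the sphere, constant along rays. -/
noncomputable def ext0 (h : E3 → ℝ) : E3 → ℝ := fun x => h (‖x‖⁻¹ • x)

/-- `h ∈ C^∞(S^2)`: the extension constant along rays is smooth away from the origin. -/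
def Smooth (h : E3 → ℝ) : Prop := ContDiffOn ℝ ∞ (ext0 h) {0}ᶜ

/-- `h` is odd on the sphere (the hedgehog is projective). -/
def IsOdd (h : E3 → ℝ) : Prop := ∀ u : E3, ‖u‖ = 1 → h (-u) = - h u

/-- The hedgehog `x_h(u) = h(u) u + ∇h(u)`; the spherical gradient of `h` at `u` is the gradient
at `u` of the extension constant along rays. -/
noncomputable def xh (h : E3 → ℝ) (u : E3) : E3 := h u • u + gradient (ext0 h) u

/-- `u` is a singular point: the derivative of `x_h` at `u` kills a nonzero vector tangent to the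
sphere, that is, `x_h` is not an immersion at `u`. -/
def IsSing (h : E3 → ℝ) (u : E3) : Prop :=
  ∃ v : E3, v ≠ 0 ∧ ⟪u, v⟫ = 0 ∧ fderiv ℝ (fun x => xh h (‖x‖⁻¹ • x)) u v = 0

/-- The germ of `x_h` (on the sphere) at `u` is equivalent to the germ of `g` at `0` under
diffeomorphism germs of source and target: `P` is a local parametrisation of the sphere with
`P 0 = u`, and `Ψ` is a local diffeomorphism of the target at `x_h(u)`. -/
def GermEq (h : E3 → ℝ) (u : E3) (g : ℝ × ℝ → E3) : Prop :=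
  ∃ (P : ℝ × ℝ → E3) (Ψ : E3 → E3), ContDiffAt ℝ ∞ P 0 ∧ P 0 = u ∧ (∀ᶠ p in 𝓝 0, ‖P p‖ = 1) ∧
    Function.Injective (fderiv ℝ P 0) ∧ ContDiffAt ℝ ∞ Ψ (xh h u) ∧
    Function.Bijective (fderiv ℝ Ψ (xh h u)) ∧ ∀ᶠ p in 𝓝 0, Ψ (xh h (P p)) = g p

/-- The standard cuspidal edge `(s, t) ↦ (s, t^2, t^3)`. -/
def cuspEdge (p : ℝ × ℝ) : E3 := !₂[p.1, p.2 ^ 2, p.2 ^ 3]

/-- The standard swallowtail `(s, t) ↦ (s, -4 t^3 - 2 s t, 3 t^4 + s t^2)`. -/
def swallowtail (p : ℝ × ℝ) : E3 :=
  !₂[p.1, -4 * p.2 ^ 3 - 2 * p.1 * p.2, 3 * p.2 ^ 4 + p.1 * p.2 ^ 2]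

/-- the germ of `x_h` at `u` is a cuspidal edge -/
def IsCuspEdge (h : E3 → ℝ) (u : E3) : Prop := GermEq h u cuspEdge

/-- the germ of `x_h` at `u` is a swallowtail -/
def IsSwallowtail (h : E3 → ℝ) (u : E3) : Prop := GermEq h u swallowtail

/-- The hedgehog of `h` is generic: every singular point is a cuspidal edge or a swallowtail. -/
def IsGeneric (h : E3 → ℝ) : Prop :=
  ∀ u : E3, ‖u‖ = 1 → IsSing h u → IsCuspEdge h u ∨ IsSwallowtail h u

end Pool.Agent.Helper355.Hedge
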