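import Pool.Agent.Helper355.HedgeD

set_option autoImplicit false

open scoped Topology RealInnerProductSpace ContDiff
open Filter

namespace Pool.Agent.Helper355.Hedge

/-- an orthonormal frame with two given members -/
theorem frame_exists {u a : E3} (hu : ‖u‖ = 1) (ha : ‖a‖ = 1) (hua : ⟪u, a⟫ = 0) :
    ∃ t : E3, ‖t‖ = 1 ∧ ⟪u, t⟫ = 0 ∧ ⟪t, a⟫ = 0 ∧
      ∀ v : E3, v = ⟪u, v⟫ • u + ⟪t, v⟫ • t + ⟪a, v⟫ • a := by
  obtain ⟨c, hc0, hc2⟩ : ∃ c : OrthonormalBasis (Fin 3) ℝ E3, c 0 = u ∧ c 2 = a := by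
    have hcard : Module.finrank ℝ E3 = Fintype.card (Fin 3) := by simp
    have hon : Orthonormal ℝ ((({0, 2} : Set (Fin 3))).domRestrict (![u, 0, a] : Fin 3 → E3)) := by
      constructor
      · rintro ⟨i, hi⟩
        rcases hi with hi | hi
        · subst hi
          exact hu
        · have hi' : i = 2 := hi
          subst hi'
          exact ha
      · rintro ⟨i, hi⟩ ⟨j, hj⟩ hij
        rcases hi with hi | hi <;> rcases hj with hj | hj
        · exact absurd (Subtype.ext (hi.trans hj.symm)) hij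
        · have hj' : j = 2 := hj
          subst hi hj'
          exact hua
        · have hi' : i = 2 := hi
          subst hj hi'
          show ⟪a, u⟫ = 0
          rw [real_inner_comm]
          exact hua
        · exact absurd (Subtype.ext ((show i = 2 from hi).trans (show j = 2 from hj).symm)) hij
    obtain ⟨c, hc⟩ := hon.exists_orthonormalBasis_extension_of_card_eq hcard
    exact ⟨c, hc 0 (by simp), hc 2 (by simp)⟩
  have hib : ∀ i j : Fin 3, ⟪c i, c j⟫ = if i = j then (1 : ℝ) else 0 :=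
    fun i j => orthonormal_iff_ite.1 c.orthonormal i j
  refine ⟨c 1, c.norm_eq_one 1, ?_, ?_, ?_⟩
  · rw [← hc0, hib]
    simp
  · rw [← hc2, hib]
    simp
  · intro v
    have h1 := c.sum_repr' v
    rw [Fin.sum_univ_three, hc0, hc2] at h1
    exact h1.symm

theorem perp_exists {u : E3} (hu : ‖u‖ = 1) : ∃ a : E3, ‖a‖ = 1 ∧ ⟪u, a⟫ = 0 := by
  obtain ⟨c, hc0⟩ : ∃ c : OrthonormalBasis (Fin 3) ℝ E3, c 0 = u := by
    have hcard : Module.finrank ℝ E3 = Fintype.card (Fin 3) := by simp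
    have hon : Orthonormal ℝ ((({0} : Set (Fin 3))).domRestrict (![u, 0, 0] : Fin 3 → E3)) := by
      constructor
      · rintro ⟨i, hi⟩
        have hi' : i = 0 := hi
        subst hi'
        exact hu
      · rintro ⟨i, hi⟩ ⟨j, hj⟩ hij
        exact absurd (Subtype.ext ((show i = 0 from hi).trans (show j = 0 from hj).symm)) hij
    obtain ⟨c, hc⟩ := hon.exists_orthonormalBasis_extension_of_card_eq hcard
    exact ⟨c, hc 0 (by simp)⟩
  refine ⟨c 1, c.norm_eq_one 1, ?_⟩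
  rw [← hc0, orthonormal_iff_ite.1 c.orthonormal 0 1]
  simp

theorem ne_zero_of_unit {u : E3} (hu : ‖u‖ = 1) : u ≠ 0 := by
  intro h0
  rw [h0, norm_zero] at hu
  exact zero_ne_one hu

theorem inner_self_unit {u : E3} (hu : ‖u‖ = 1) : ⟪u, u⟫ = 1 := by
  rw [real_inner_self_eq_norm_sq, hu]
  norm_num

/-- a nonzero vector orthogonal to `u` is not a multiple of `u` -/
theorem not_mul {u a : E3} (hu : ‖u‖ = 1) (ha : a ≠ 0) (hua : ⟪u, a⟫ = 0) (c : ℝ) :
    a ≠ c • u := by
  intro h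
  rw [h, real_inner_smul_right, inner_self_unit hu, mul_one] at hua
  rw [hua, zero_smul] at h
  exact ha h

/-- positivity at a point is an open condition -/
theorem pos_open {h : E3 → ℝ} (hs : Smooth h) {x : E3} (hx : x ≠ 0) (hp : Pos h x) :
    ∀ᶠ y in 𝓝 x, Pos h y := by
  have hn : 0 < ‖x‖ := norm_pos_iff.2 hx
  set u : E3 := ‖x‖⁻¹ • x with hu
  have hun : ‖u‖ = 1 := by
    rw [hu, norm_smul, norm_inv, norm_norm, inv_mul_cancel₀ hn.ne']
  obtain ⟨a, ha, hua⟩ := perp_exists hun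
  obtain ⟨t, ht, hut, hta, hdec⟩ := frame_exists hun ha hua
  have hxu : x = ‖x‖ • u := by
    rw [hu, smul_smul, mul_inv_cancel₀ hn.ne', one_smul]
  have hux : ⟪u, x⟫ = ‖x‖ := by
    conv_lhs => rw [hxu]
    rw [real_inner_smul_right, inner_self_unit hun, mul_one]
  have hnot : ∀ v : E3, v ≠ 0 → ⟪u, v⟫ = 0 → ∀ c : ℝ, v ≠ c • x := by
    intro v hv huv c hc
    rw [hxu, smul_smul] at hc
    exact not_mul hun hv huv _ hc
  set A := ⟪fderiv ℝ (FF h) x t, t⟫ with hA
  set B := ⟪fderiv ℝ (FF h) x t, a⟫ with hB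
  set C := ⟪fderiv ℝ (FF h) x a, a⟫ with hC
  have hApos : 0 < A := hp t (hnot t (ne_zero_of_unit ht) hut)
  have hdet : 0 < A * C - B ^ 2 := by
    have h1 : ⟪fderiv ℝ (FF h) x a, t⟫ = B := by
      rw [symm_FF hs hx, real_inner_comm]
    have h2 := hp (A • a - B • t) (hnot _ (by
      intro h0
      have h3 : ⟪a, A • a - B • t⟫ = A := by
        rw [inner_sub_right, real_inner_smul_right, real_inner_smul_right, inner_self_unit ha,
          real_inner_comm, hta]
        ring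
      rw [h0, inner_zero_right] at h3
      exact hApos.ne h3) (by
      rw [inner_sub_right, real_inner_smul_right, real_inner_smul_right, hua, hut]
      ring))
    simp only [map_sub, map_smul, inner_sub_left, inner_sub_right, real_inner_smul_left,
      real_inner_smul_right, h1, ← hA, ← hB, ← hC] at h2
    have h3 : 0 < A * (A * C - B ^ 2) := by nlinarith
    exact pos_of_mul_pos_right h3 hApos.le |> fun _ => by
      rcases mul_pos_iff.1 h3 with h4 | h4
      · exact h4.2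
      · exact absurd h4.1 (not_lt.2 hApos.le)
  have c1 := continuousAt_form hs hx t t
  have c2 := continuousAt_form hs hx t a
  have c3 := continuousAt_form hs hx a a
  have e1 : ∀ᶠ y in 𝓝 x, 0 < ⟪fderiv ℝ (FF h) y t, t⟫ := c1.eventually (lt_mem_nhds hApos)
  have e2 : ∀ᶠ y in 𝓝 x, 0 < ⟪fderiv ℝ (FF h) y t, t⟫ * ⟪fderiv ℝ (FF h) y a, a⟫
      - ⟪fderiv ℝ (FF h) y t, a⟫ ^ 2 :=
    ((c1.mul c3).sub (c2.pow 2)).eventually (lt_mem_nhds hdet)
  have e3 : ∀ᶠ y in 𝓝 x, 0 < ⟪u, y⟫ := by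
    have c4 : ContinuousAt (fun y : E3 => ⟪u, y⟫) x :=
      continuousAt_const.inner continuousAt_id
    exact c4.eventually (lt_mem_nhds (by show 0 < ⟪u, x⟫; rw [hux]; exact hn))
  filter_upwards [e1, e2, e3] with y h1 h2 h3
  refine pos_crit hs ?_ (span_near hdec h3.ne') h1 h2
  rintro rfl
  rw [inner_zero_right] at h3
  exact lt_irrefl _ h3

/-- a function which is at most its value at `0` on the right has nonpositive derivative -/
theorem deriv_nonpos {g : ℝ → ℝ} {g' : ℝ} (hg : HasDerivAt g g' 0)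
    (hle : ∀ᶠ r in 𝓝[>] (0 : ℝ), g r ≤ g 0) : g' ≤ 0 := by
  by_contra hcon
  push Not at hcon
  have h1 : HasDerivAt (fun r => g 0 - g r) (-g') 0 := by
    have h0 := (hasDerivAt_const (0 : ℝ) (g 0)).sub hg
    rw [zero_sub] at h0
    exact h0
  have h2 := (sign_near h1 (by simp) (by linarith)).1
  obtain ⟨r, h3, h4⟩ := (hle.and h2).exists
  linarith

theorem stepB {h : E3 → ℝ} (hs : Smooth h) (ho : ∀ u : E3, ‖u‖ = 1 → h (-u) = - h u)
    {e : E3} (he : ‖e‖ = 1) (hpe : Pos h e)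
    (hstar : ∀ (α β : ℝ) (y x : E3), 0 ≤ α → 0 ≤ β → y ≠ 0 → x ≠ 0 → Pos h y →
      x = α • e + β • y → Pos h x)
    {u t a : E3} (hu : ‖u‖ = 1) (ht : ‖t‖ = 1) (ha : ‖a‖ = 1) (hua : ⟪u, a⟫ = 0)
    (hdec : ∀ v : E3, v = ⟪u, v⟫ • u + ⟪t, v⟫ • t + ⟪a, v⟫ • a)
    (hDa : fderiv ℝ (FF h) u a = 0) (hl : 0 < ⟪fderiv ℝ (FF h) u t, t⟫)
    (hτ : T3 h u a a a < 0)
    (hmax : ∀ x : E3, x ≠ 0 → ¬ Pos h x → ¬ Pos h (-x) → ⟪FF h x, e⟫ ≤ ⟪FF h u, e⟫) :
    False := by
  have hu0 : u ≠ 0 := ne_zero_of_unit hu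
  have ha0 : a ≠ 0 := ne_zero_of_unit ha
  have ht0 : t ≠ 0 := ne_zero_of_unit ht
  have he0 : e ≠ 0 := ne_zero_of_unit he
  set lam := ⟪fderiv ℝ (FF h) u t, t⟫ with hlam
  have hDt : fderiv ℝ (FF h) u t = lam • t := by
    have h1 := hdec (fderiv ℝ (FF h) u t)
    have h2 : ⟪u, fderiv ℝ (FF h) u t⟫ = 0 := by
      rw [real_inner_comm]
      exact inner_fderiv_self hs hu0 t
    have h3 : ⟪a, fderiv ℝ (FF h) u t⟫ = 0 := by
      rw [real_inner_comm, symm_FF hs hu0, hDa, inner_zero_right]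
    rw [h2, h3, zero_smul, zero_smul, zero_add, add_zero, real_inner_comm] at h1
    exact h1
  -- points near `u`
  have hne : ∀ w : E3, ∀ᶠ r in 𝓝 (0 : ℝ), u + r • w ≠ 0 := by
    intro w
    have h1 : ContinuousAt (fun r : ℝ => u + r • w) 0 := by fun_prop
    refine h1.eventually_ne ?_
    simpa using hu0
  have hform0 : ∀ p q : E3, (fun r : ℝ => ⟪fderiv ℝ (FF h) (u + r • p) q, q⟫) 0
      = ⟪fderiv ℝ (FF h) u q, q⟫ := by
    intro p q
    simp
  -- feasible directions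
  have hfeas : ∀ w : E3, T3 h u w a a < 0 → ∀ᶠ r in 𝓝[>] (0 : ℝ),
      ⟪FF h (u + r • w), e⟫ ≤ ⟪FF h u, e⟫ ∧ ⟪fderiv ℝ (FF h) (u + r • w) a, a⟫ < 0 := by
    intro w hw
    have h1 := (sign_near (hasDerivAt_form hs hu0 w a a) (by simp [hDa]) hw).1
    have h2 : ∀ᶠ r in 𝓝 (0 : ℝ), 0 < ⟪fderiv ℝ (FF h) (u + r • w) t, t⟫ := by
      refine (hasDerivAt_form hs hu0 w t t).continuousAt.eventually (lt_mem_nhds ?_)
      simpa using hl
    filter_upwards [h1, h2.filter_mono nhdsWithin_le_nhds,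
      (hne w).filter_mono nhdsWithin_le_nhds] with r h1 h2 h3
    refine ⟨hmax _ h3 (fun hp => ?_) (fun hp => ?_), h1⟩
    · exact absurd (hp.nonneg hs h3 a) (not_le.2 h1)
    · exact absurd (hp.neg_nonpos hs ho h3 t) (not_le.2 h2)
  have hline : ∀ w : E3, ∀ r : ℝ, u + r • w ≠ 0 →
      HasDerivAt (fun r : ℝ => ⟪FF h (u + r • w), e⟫) ⟪fderiv ℝ (FF h) (u + r • w) w, e⟫ r := by
    intro w r hr
    have h1 : HasFDerivAt (FF h) (fderiv ℝ (FF h) (u + r • w)) (u + r • w) :=
      ((FF_at hs hr).differentiableAt (by simp)).hasFDerivAt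
    have h2 : HasDerivAt (fun r : ℝ => u + r • w) w r := by
      simpa using ((hasDerivAt_id r).smul_const w).const_add u
    have h3 := (h1.comp_hasDerivAt r h2).inner ℝ (hasDerivAt_const r e)
    simpa using h3
  have hB0 : ∀ w : E3, T3 h u w a a < 0 → ⟪fderiv ℝ (FF h) u w, e⟫ ≤ 0 := by
    intro w hw
    have h1 := hline w 0 (by simpa using hu0)
    rw [zero_smul, add_zero] at h1
    refine deriv_nonpos h1 ?_
    filter_upwards [hfeas w hw] with r hr
    simpa using hr.1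
  -- the component of `e` along `t` vanishes
  have hκ : ⟪t, e⟫ = 0 := by
    set κ := ⟪t, e⟫ with hκ
    set τ := T3 h u a a a with hτd
    set M := -(κ * T3 h u t a a + 1) / τ with hM
    have h1 : T3 h u (κ • t + M • a) a a = -1 := by
      have h2 : T3 h u (κ • t + M • a) a a = κ * T3 h u t a a + M * τ := by
        rw [hτd]
        unfold T3
        simp only [map_add, map_smul, add_apply, smul_apply, inner_add_left,
          real_inner_smul_left]
      rw [h2, hM, div_mul_cancel₀ _ hτ.ne]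
      ring
    have h2 := hB0 (κ • t + M • a) (by rw [h1]; norm_num)
    rw [map_add, map_smul, map_smul, hDa, smul_zero, add_zero, hDt, real_inner_smul_left,
      real_inner_smul_left, ← hκ] at h2
    have h3 : κ * κ * lam ≤ 0 := by linarith
    have h4 : κ * κ ≤ 0 := by
      by_contra hcon
      push Not at hcon
      have := mul_pos hcon hl
      linarith
    nlinarith [mul_self_nonneg κ]
  set c := ⟪u, e⟫ with hc
  set σ := ⟪a, e⟫ with hσ
  have hee : e = c • u + σ • a := by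
    have h1 := hdec e
    rw [hκ, zero_smul, add_zero] at h1
    exact h1
  have hnotP : ∀ k : ℝ, k ≠ 0 → ¬ Pos h (k • u) := by
    intro k hk hp
    have h1 := hp a (fun d hd => not_mul hu ha0 hua (d * k) (by rw [hd, smul_smul]))
    rcases lt_or_gt_of_ne hk with h2 | h2
    · have h3 : k • u = -((-k) • u) := by module
      have h4 : (-k) • u ≠ 0 := smul_ne_zero (by linarith) hu0
      rw [h3, fderiv_FF_neg hs ho h4] at h1
      have h5 := fderiv_FF_smul hs (show 0 < -k by linarith) hu0 a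
      rw [hDa] at h5
      rw [(smul_eq_zero.1 h5).resolve_left (by linarith)] at h1
      simp at h1
    · have h5 := fderiv_FF_smul hs h2 hu0 a
      rw [hDa] at h5
      rw [(smul_eq_zero.1 h5).resolve_left hk] at h1
      simp at h1
  have hσ0 : σ ≠ 0 := by
    intro h0
    rw [h0, zero_smul, add_zero] at hee
    have hc0 : c ≠ 0 := by
      intro h1
      rw [h1, zero_smul] at hee
      exact he0 hee
    rw [hee] at hpe
    exact hnotP c hc0 hpe
  -- `σ > 0`
  have hσp : 0 < σ := by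
    by_contra hcon
    have hσn : σ < 0 := lt_of_le_of_ne (not_lt.1 hcon) hσ0
    have h1 := hfeas a hτ
    have h2 : ∀ᶠ r in 𝓝 (0 : ℝ), σ - c * r < 0 := by
      have h3 : ContinuousAt (fun r : ℝ => σ - c * r) 0 := by fun_prop
      refine h3.eventually (gt_mem_nhds ?_)
      simpa using hσn
    have h3 := h1.and (((h2.and (hne a))).filter_mono nhdsWithin_le_nhds)
    obtain ⟨δ, hδ, h4⟩ := (mem_nhdsGT_iff_exists_Ioo_subset.1 h3)
    have hδ0 : (0 : ℝ) < δ := hδ
    have h5 : ∀ r ∈ Set.Icc (0 : ℝ) (δ / 2), u + r • a ≠ 0 := by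
      intro r hr
      rcases eq_or_lt_of_le hr.1 with h6 | h6
      · rw [← h6, zero_smul, add_zero]
        exact hu0
      · exact (h4 ⟨h6, by linarith [hr.2]⟩).2.2
    obtain ⟨ξ, hξ, h6⟩ := exists_hasDerivAt_eq_slope (fun r : ℝ => ⟪FF h (u + r • a), e⟫)
      (fun r : ℝ => ⟪fderiv ℝ (FF h) (u + r • a) a, e⟫) (show (0 : ℝ) < δ / 2 by linarith)
      (fun r hr => (hline a r (h5 r hr)).continuousAt.continuousWithinAt)
      (fun r hr => hline a r (h5 r ⟨hr.1.le, hr.2.le⟩))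
    have h7 : ξ ∈ Set.Ioo 0 δ := ⟨hξ.1, by linarith [hξ.2]⟩
    have h8 := (h4 h7)
    have h9 : (δ / 2) ∈ Set.Ioo 0 δ := ⟨by linarith, by linarith⟩
    have h10 := (h4 h9).1.1
    have h11 : ⟪fderiv ℝ (FF h) (u + ξ • a) a, e⟫
        = (σ - c * ξ) * ⟪fderiv ℝ (FF h) (u + ξ • a) a, a⟫ := by
      have h12 := inner_fderiv_self hs h8.2.2 a
      have h13 : e = c • (u + ξ • a) + (σ - c * ξ) • a := by
        conv_lhs => rw [hee]
        module
      conv_lhs => rw [h13]
      rw [inner_add_right, real_inner_smul_right, real_inner_smul_right, h12]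
      ring
    have h14 : 0 < (σ - c * ξ) * ⟪fderiv ℝ (FF h) (u + ξ • a) a, a⟫ :=
      mul_pos_of_neg_of_neg h8.2.1 h8.1.2
    rw [← h11, h6] at h14
    have h15 : (⟪FF h (u + (δ / 2) • a), e⟫ - ⟪FF h (u + (0 : ℝ) • a), e⟫) / (δ / 2 - 0) ≤ 0 := by
      rw [zero_smul, add_zero]
      exact div_nonpos_of_nonpos_of_nonneg (by linarith) (by linarith)
    linarith
  -- on the other side the form is positive
  have hD : HasDerivAt (fun r : ℝ => ⟪fderiv ℝ (FF h) (u + r • a) t, t⟫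
      * ⟪fderiv ℝ (FF h) (u + r • a) a, a⟫ - ⟪fderiv ℝ (FF h) (u + r • a) t, a⟫ ^ 2)
      (lam * T3 h u a a a) 0 := by
    have h1 := (hasDerivAt_form hs hu0 a t t).mul (hasDerivAt_form hs hu0 a a a)
    have h2 := (hasDerivAt_form hs hu0 a t a).pow 2
    have h3 := h1.sub h2
    have h4 : ⟪fderiv ℝ (FF h) u t, a⟫ = 0 := by
      rw [symm_FF hs hu0, hDa, inner_zero_right]
    have h5 : lam * T3 h u a a a = T3 h u a t t * ⟪fderiv ℝ (FF h) (u + (0 : ℝ) • a) a, a⟫
        + ⟪fderiv ℝ (FF h) (u + (0 : ℝ) • a) t, t⟫ * T3 h u a a a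
        - ((2 : ℕ) : ℝ) * ⟪fderiv ℝ (FF h) (u + (0 : ℝ) • a) t, a⟫ ^ (2 - 1) * T3 h u a t a := by
      rw [zero_smul, add_zero, hDa, inner_zero_left, ← hlam, h4]
      ring
    rw [h5]
    exact h3
  have hdet := (sign_near hD (by
    simp only [zero_smul, add_zero]
    rw [hDa, symm_FF hs hu0 t a, hDa, inner_zero_left, inner_zero_right]
    ring) (by nlinarith)).2
  have h11 : ∀ᶠ r in 𝓝 (0 : ℝ), 0 < ⟪fderiv ℝ (FF h) (u + r • a) t, t⟫ := by
    refine (hasDerivAt_form hs hu0 a t t).continuousAt.eventually (lt_mem_nhds ?_)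
    simpa using hl
  have h12 : ∀ᶠ r in 𝓝 (0 : ℝ), 0 < 1 - r * c / σ := by
    have h3 : ContinuousAt (fun r : ℝ => 1 - r * c / σ) 0 := by fun_prop
    refine h3.eventually (lt_mem_nhds ?_)
    simp
  obtain ⟨r, ⟨⟨h13, h14⟩, h15, h16⟩, hr⟩ := (((hdet.and (h11.filter_mono nhdsWithin_le_nhds)).and
    ((h12.and (hne a)).filter_mono nhdsWithin_le_nhds)).and self_mem_nhdsWithin).exists
  have hr0 : r < 0 := hr
  have hsp : ∀ v : E3, ∃ s p q : ℝ, v = s • (u + r • a) + p • t + q • a := by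
    refine span_near hdec ?_
    rw [inner_add_right, real_inner_smul_right, inner_self_unit hu, hua]
    norm_num
  have hy : Pos h (u + r • a) := pos_crit hs h16 hsp h14 h13
  refine hnotP (1 - r * c / σ) h15.ne' ?_
  refine hstar (-r / σ) 1 (u + r • a) _ (div_nonneg (by linarith) hσp.le) zero_le_one h16
    (smul_ne_zero h15.ne' hu0) hy ?_
  conv_rhs => rw [hee]
  match_scalars
  · field_simp
    ring
  · field_simp
    ring

end Pool.Agent.Helper355.Hedge
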