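import Pool.Agent.Helper355.HedgeE

set_option autoImplicit false

open scoped Topology RealInnerProductSpace ContDiff
open Filter

namespace Pool.Agent.Helper355.Hedge

/-- `x` and `-x` are not both positive points -/
theorem pos_neg {h : E3 → ℝ} (hs : Smooth h) (ho : ∀ u : E3, ‖u‖ = 1 → h (-u) = - h u)
    {u : E3} (hu : ‖u‖ = 1) (h1 : Pos h u) (h2 : Pos h (-u)) : False := by
  obtain ⟨a, ha, hua⟩ := perp_exists hu
  have h3 := h1 a (not_mul hu (ne_zero_of_unit ha) hua)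
  have h4 := h2.neg_nonpos hs ho (ne_zero_of_unit hu) a
  linarith

/-- a degenerate direction of a semidefinite form is in the kernel -/
theorem ker_of_semidef {D : E3 →L[ℝ] E3} (hsym : ∀ v w, ⟪D v, w⟫ = ⟪v, D w⟫)
    (hD : ∀ v, 0 ≤ ⟪D v, v⟫) {v : E3} (hv : ⟪D v, v⟫ = 0) : D v = 0 := by
  have h1 : ∀ w, ⟪D v, w⟫ = 0 := by
    intro w
    by_contra hne
    set B := ⟪D v, w⟫ with hB
    set C := ⟪D w, w⟫ with hC
    have hC0 : 0 ≤ C := hD w
    have h2 : ∀ s : ℝ, 0 ≤ 2 * s * B + s ^ 2 * C := by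
      intro s
      have h3 := hD (v + s • w)
      have h4 : ⟪D w, v⟫ = B := by rw [hsym, real_inner_comm]
      rw [map_add, map_smul, inner_add_left, inner_add_right, inner_add_right,
        real_inner_smul_left, real_inner_smul_left, real_inner_smul_right,
        real_inner_smul_right, hv, h4, ← hB, ← hC] at h3
      nlinarith
    have h5 := h2 (-B / (C + 1))
    have h6 : 2 * (-B / (C + 1)) * B + (-B / (C + 1)) ^ 2 * C
        = - (B ^ 2 * (C + 2)) / (C + 1) ^ 2 := by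
      field_simp
      ring
    rw [h6] at h5
    have h7 : 0 < B ^ 2 * (C + 2) / (C + 1) ^ 2 := by positivity
    have h8 : - (B ^ 2 * (C + 2)) / (C + 1) ^ 2 = - (B ^ 2 * (C + 2) / (C + 1) ^ 2) := by ring
    rw [h8] at h5
    linarith
  exact inner_self_eq_zero.1 (h1 (D v))

/-- the tangential part of a kernel vector -/
theorem sing_of_ker {h : E3 → ℝ} (hs : Smooth h) {u : E3} (hu : ‖u‖ = 1) {v : E3}
    (hv : ∀ c : ℝ, v ≠ c • u) (hD : fderiv ℝ (FF h) u v = 0) : IsSing h u := by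
  refine ⟨v - ⟪u, v⟫ • u, sub_ne_zero.2 (hv _), ?_, ?_⟩
  · rw [inner_sub_right, real_inner_smul_right, inner_self_unit hu]
    ring
  · have h1 : fderiv ℝ (FF h) u (v - ⟪u, v⟫ • u) = 0 := by
      rw [map_sub, map_smul, hD, fderiv_FF_self hs (ne_zero_of_unit hu)]
      simp
    exact h1

theorem stepA {h : E3 → ℝ} (hs : Smooth h) (ho : ∀ u : E3, ‖u‖ = 1 → h (-u) = - h u)
    {e : E3} (he : ‖e‖ = 1) (hpe : Pos h e) {u : E3} (hu : ‖u‖ = 1)
    (hp : ¬ Pos h u) (hn : ¬ Pos h (-u))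
    (hmax : ∀ x : E3, x ≠ 0 → ¬ Pos h x → ¬ Pos h (-x) → ⟪FF h x, e⟫ ≤ ⟪FF h u, e⟫) :
    IsSing h u := by
  by_contra hsing
  have hu0 : u ≠ 0 := ne_zero_of_unit hu
  have hker : ∀ v : E3, (∀ c : ℝ, v ≠ c • u) → fderiv ℝ (FF h) u v ≠ 0 :=
    fun v hv hD => hsing (sing_of_ker hs hu hv hD)
  obtain ⟨v1, hv1, hv1'⟩ : ∃ v : E3, (∀ c : ℝ, v ≠ c • u) ∧ ⟪fderiv ℝ (FF h) u v, v⟫ ≤ 0 := by
    unfold Pos at hp
    push Not at hp
    exact hp
  obtain ⟨v2, hv2, hv2'⟩ : ∃ v : E3, (∀ c : ℝ, v ≠ c • u) ∧ 0 ≤ ⟪fderiv ℝ (FF h) u v, v⟫ := by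
    unfold Pos at hn
    push Not at hn
    obtain ⟨v, h1, h2⟩ := hn
    refine ⟨v, fun c hc => h1 (-c) ?_, ?_⟩
    · rw [hc]
      module
    · rw [fderiv_FF_neg hs ho hu0, inner_neg_left] at h2
      linarith
  obtain ⟨w1, hw1⟩ : ∃ w : E3, ⟪fderiv ℝ (FF h) u w, w⟫ < 0 := by
    by_contra hcon
    push Not at hcon
    exact hker v1 hv1 (ker_of_semidef (symm_FF hs hu0) hcon (le_antisymm hv1' (hcon v1)))
  obtain ⟨w2, hw2⟩ : ∃ w : E3, 0 < ⟪fderiv ℝ (FF h) u w, w⟫ := by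
    by_contra hcon
    push Not at hcon
    have h1 := ker_of_semidef (D := -fderiv ℝ (FF h) u) (v := v2)
      (fun v w => by
        rw [neg_apply, neg_apply, inner_neg_left, inner_neg_right, symm_FF hs hu0])
      (fun v => by
        rw [neg_apply, inner_neg_left]
        linarith [hcon v])
      (by
        rw [neg_apply, inner_neg_left]
        linarith [hcon v2])
    rw [neg_apply, neg_eq_zero] at h1
    exact hker v2 hv2 h1
  -- `u` is a local maximum
  have c1 := (continuousAt_form hs hu0 w1 w1).eventually (gt_mem_nhds hw1)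
  have c2 := (continuousAt_form hs hu0 w2 w2).eventually (lt_mem_nhds hw2)
  have hloc : IsLocalMax (fun x : E3 => ⟪FF h x, e⟫) u := by
    filter_upwards [c1, c2, isOpen_ne.mem_nhds hu0] with y h1 h2 h3
    refine hmax y h3 (fun hp => ?_) (fun hp => ?_)
    · exact absurd (hp.nonneg hs h3 w1) (not_le.2 h1)
    · exact absurd (hp.neg_nonpos hs ho h3 w2) (not_le.2 h2)
  have hFd : HasFDerivAt (FF h) (fderiv ℝ (FF h) u) u :=
    ((FF_at hs hu0).differentiableAt (by simp)).hasFDerivAt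
  have hdir : ∀ v : E3, ⟪fderiv ℝ (FF h) u v, e⟫ = 0 := by
    intro v
    have h1 : HasFDerivAt (fun x : E3 => ⟪FF h x, e⟫)
        ((innerSL ℝ e).comp (fderiv ℝ (FF h) u)) u := by
      have h5 := (innerSL ℝ e).hasFDerivAt.comp u hFd
      refine h5.congr_of_eventuallyEq (Filter.Eventually.of_forall fun y => ?_)
      simp [real_inner_comm]
    have h2 := hloc.hasFDerivAt_eq_zero h1
    have h3 := congrArg (fun L : E3 →L[ℝ] ℝ => L v) h2
    have h4 : ⟪e, fderiv ℝ (FF h) u v⟫ = 0 := by simpa using h3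
    rw [real_inner_comm]
    exact h4
  have hDe : fderiv ℝ (FF h) u e = 0 := by
    have h1 := hdir (fderiv ℝ (FF h) u e)
    rw [symm_FF hs hu0] at h1
    exact inner_self_eq_zero.1 h1
  by_cases hec : ∀ c : ℝ, e ≠ c • u
  · exact hker e hec hDe
  · push Not at hec
    obtain ⟨c, hc⟩ := hec
    have h1 : |c| = 1 := by
      have h2 := he
      rw [hc, norm_smul, hu, mul_one, Real.norm_eq_abs] at h2
      exact h2
    rcases (abs_eq zero_le_one).1 h1 with h2 | h2
    · rw [hc, h2, one_smul] at hpe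
      exact hp hpe
    · rw [hc, h2, neg_one_smul] at hpe
      exact hn hpe

/-- the derivative of `x_h` is even to second order -/
theorem T3_neg {h : E3 → ℝ} (hs : Smooth h) (ho : ∀ u : E3, ‖u‖ = 1 → h (-u) = - h u)
    {u : E3} (hu : u ≠ 0) (w p q : E3) : T3 h (-u) w p q = T3 h u w p q := by
  have h1 := hasDerivAt_form hs (neg_ne_zero.2 hu) w p q
  have h2 := hasDerivAt_form hs hu (-w) p q
  have h3 : (fun r : ℝ => ⟪fderiv ℝ (FF h) (-u + r • w) p, q⟫)
      =ᶠ[𝓝 0] fun r : ℝ => -⟪fderiv ℝ (FF h) (u + r • (-w)) p, q⟫ := by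
    have h4 : ContinuousAt (fun r : ℝ => u + r • (-w)) 0 := by fun_prop
    have h5 : ∀ᶠ r in 𝓝 (0 : ℝ), u + r • (-w) ≠ 0 :=
      h4.eventually_ne (by simpa using hu)
    filter_upwards [h5] with r hr
    have h6 : -u + r • w = -(u + r • (-w)) := by module
    rw [h6, fderiv_FF_neg hs ho hr, inner_neg_left]
  have h4 := h1.unique (h2.neg.congr_of_eventuallyEq h3)
  rw [h4]
  unfold T3
  rw [map_neg, neg_apply, inner_neg_left, neg_neg]

/-- The maximum principle argument. -/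
theorem star_main {h : E3 → ℝ} (hs : Smooth h) (ho : ∀ u : E3, ‖u‖ = 1 → h (-u) = - h u)
    {e : E3} (he : ‖e‖ = 1) (hpe : Pos h e)
    (hstar : ∀ (α β : ℝ) (y x : E3), 0 ≤ α → 0 ≤ β → y ≠ 0 → x ≠ 0 → Pos h y →
      x = α • e + β • y → Pos h x) :
    ∃ u : E3, ‖u‖ = 1 ∧ IsSing h u ∧ ¬ IsCuspEdge h u := by
  by_contra hall
  push Not at hall
  -- the compact set
  set U : Set E3 := {x | x ≠ 0 ∧ Pos h x} with hU
  have hUo : IsOpen U := by
    rw [isOpen_iff_mem_nhds]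
    intro x hx
    filter_upwards [pos_open hs hx.1 hx.2, isOpen_ne.mem_nhds hx.1] with y h1 h2
    exact ⟨h2, h1⟩
  set V : Set E3 := {x | -x ∈ U} with hV
  have hVo : IsOpen V := hUo.preimage continuous_neg
  set K : Set E3 := Metric.sphere (0 : E3) 1 ∩ (U ∪ V)ᶜ with hK
  have hKc : IsCompact K :=
    (isCompact_sphere (0 : E3) 1).inter_right (hUo.union hVo).isClosed_compl
  have hKn : K.Nonempty := by
    by_contra hemp
    rw [Set.not_nonempty_iff_eq_empty] at hemp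
    have hsub : Metric.sphere (0 : E3) 1 ⊆ U ∪ V := by
      intro x hx
      by_contra hx2
      have : x ∈ K := ⟨hx, hx2⟩
      rw [hemp] at this
      exact this
    have hpre : IsPreconnected (Metric.sphere (0 : E3) 1) := by
      refine isPreconnected_sphere ?_ 0 1
      rw [← Module.finrank_eq_rank]
      simp
    have hE : e ∈ Metric.sphere (0 : E3) 1 := by simpa using he
    have hE' : -e ∈ Metric.sphere (0 : E3) 1 := by simpa using he
    obtain ⟨x, hx, hx1, hx2⟩ := hpre U V hUo hVo hsub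
      ⟨e, hE, ne_zero_of_unit he, hpe⟩
      ⟨-e, hE', by
        show -(-e) ∈ U
        rw [neg_neg]
        exact ⟨ne_zero_of_unit he, hpe⟩⟩
    have hxn : ‖x‖ = 1 := by simpa using hx
    exact pos_neg hs ho hxn hx1.2 hx2.2
  have hcont : ContinuousOn (fun x : E3 => ⟪FF h x, e⟫) K := by
    intro x hx
    have hxn : ‖x‖ = 1 := by simpa using hx.1
    exact (((FF_at hs (ne_zero_of_unit hxn)).continuousAt).inner
      continuousAt_const).continuousWithinAt
  obtain ⟨u, huK, humax⟩ := hKc.exists_isMaxOn hKn hcont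
  have hu : ‖u‖ = 1 := by simpa using huK.1
  have hu0 : u ≠ 0 := ne_zero_of_unit hu
  have hup : ¬ Pos h u := fun hp => huK.2 (Or.inl ⟨hu0, hp⟩)
  have hun : ¬ Pos h (-u) := fun hp => huK.2 (Or.inr ⟨neg_ne_zero.2 hu0, hp⟩)
  have hmax : ∀ x : E3, x ≠ 0 → ¬ Pos h x → ¬ Pos h (-x) → ⟪FF h x, e⟫ ≤ ⟪FF h u, e⟫ := by
    intro x hx h1 h2
    have hn : 0 < ‖x‖ := norm_pos_iff.2 hx
    have hy0 : ‖x‖⁻¹ • x ≠ 0 := smul_ne_zero (inv_ne_zero hn.ne') hx
    have hyx : ‖x‖ • (‖x‖⁻¹ • x) = x := by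
      rw [smul_smul, mul_inv_cancel₀ hn.ne', one_smul]
    have h3 : ‖x‖⁻¹ • x ∈ K := by
      refine ⟨?_, ?_⟩
      · simp [norm_smul, hn.ne']
      · rintro (h4 | h4)
        · apply h1
          have h5 := h4.2.smul hs hn h4.1
          rw [hyx] at h5
          exact h5
        · apply h2
          have h5 := h4.2.smul hs hn h4.1
          rw [smul_neg, hyx] at h5
          exact h5
    have h4 : ⟪FF h (‖x‖⁻¹ • x), e⟫ ≤ ⟪FF h u, e⟫ := humax h3
    rw [FF_smul h (inv_pos.2 hn)] at h4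
    exact h4
  have hsing : IsSing h u := stepA hs ho he hpe hu hup hun hmax
  obtain ⟨v, hv0, huv, hDv⟩ := hsing
  have hDv' : fderiv ℝ (FF h) u v = 0 := hDv
  have hvn : 0 < ‖v‖ := norm_pos_iff.2 hv0
  -- unit null vector
  have key : ∀ u' : E3, (u' = u ∨ u' = -u) → ∀ a : E3, ‖a‖ = 1 → ⟪u', a⟫ = 0 →
      fderiv ℝ (FF h) u a = 0 → ∀ t : E3, ‖t‖ = 1 →
      (∀ v : E3, v = ⟪u', v⟫ • u' + ⟪t, v⟫ • t + ⟪a, v⟫ • a) →
      0 < ⟪fderiv ℝ (FF h) u' t, t⟫ → False := by
    intro u' hu' a ha hua hDa t ht hdec hl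
    have hu'n : ‖u'‖ = 1 := by
      rcases hu' with rfl | rfl
      · exact hu
      · rw [norm_neg]
        exact hu
    have hDa' : fderiv ℝ (FF h) u' a = 0 := by
      rcases hu' with rfl | rfl
      · exact hDa
      · rw [fderiv_FF_neg hs ho hu0, hDa, neg_zero]
    have hFF' : FF h u' = FF h u := by
      rcases hu' with rfl | rfl
      · rfl
      · exact FF_even hs ho hu0
    have hcusp : IsCuspEdge h u' :=
      hall u' hu'n ⟨a, ne_zero_of_unit ha, hua, hDa'⟩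
    have hτ : T3 h u' a a a ≠ 0 := by
      intro h0
      exact not_cusp hs hu'n hdec hDa' (fun _ => h0) hcusp
    have hmax' : ∀ x : E3, x ≠ 0 → ¬ Pos h x → ¬ Pos h (-x) →
        ⟪FF h x, e⟫ ≤ ⟪FF h u', e⟫ := by
      rw [hFF']
      exact hmax
    rcases lt_or_gt_of_ne hτ with h1 | h1
    · exact stepB hs ho he hpe hstar hu'n ht ha hua hdec hDa' hl h1 hmax'
    · refine stepB hs ho he hpe hstar hu'n ht (a := -a) (by rw [norm_neg]; exact ha)
        (by rw [inner_neg_right, hua, neg_zero]) (fun v => ?_)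
        (by rw [map_neg, hDa', neg_zero]) hl ?_ hmax'
      · conv_lhs => rw [hdec v]
        rw [inner_neg_left]
        module
      · unfold T3 at h1 ⊢
        rw [map_neg (fderiv ℝ (fderiv ℝ (FF h)) u') a, neg_apply, map_neg, neg_neg,
          inner_neg_right]
        linarith
  set a : E3 := ‖v‖⁻¹ • v with ha'
  have ha : ‖a‖ = 1 := by
    rw [ha', norm_smul, norm_inv, norm_norm, inv_mul_cancel₀ hvn.ne']
  have hua : ⟪u, a⟫ = 0 := by
    rw [ha', real_inner_smul_right, huv, mul_zero]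
  have hDa : fderiv ℝ (FF h) u a = 0 := by
    rw [ha', map_smul, hDv', smul_zero]
  obtain ⟨t, ht, hut, hta, hdec⟩ := frame_exists hu ha hua
  have hDt : fderiv ℝ (FF h) u t ≠ 0 := by
    intro h0
    exact not_cusp hs hu hdec hDa (fun h => absurd h0 h)
      (hall u hu ⟨a, ne_zero_of_unit ha, hua, hDa⟩)
  have hl0 : ⟪fderiv ℝ (FF h) u t, t⟫ ≠ 0 := by
    intro h0
    apply hDt
    have h1 := hdec (fderiv ℝ (FF h) u t)
    have h2 : ⟪u, fderiv ℝ (FF h) u t⟫ = 0 := by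
      rw [real_inner_comm]
      exact inner_fderiv_self hs hu0 t
    have h3 : ⟪a, fderiv ℝ (FF h) u t⟫ = 0 := by
      rw [real_inner_comm, symm_FF hs hu0, hDa, inner_zero_right]
    rw [h2, h3, zero_smul, zero_smul, zero_add, add_zero, real_inner_comm, h0, zero_smul] at h1
    exact h1
  rcases lt_or_gt_of_ne hl0 with h1 | h1
  · refine key (-u) (Or.inr rfl) a ha (by rw [inner_neg_left, hua, neg_zero]) hDa t ht
      (fun v => ?_) ?_
    · conv_lhs => rw [hdec v]
      rw [inner_neg_left]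
      module
    · rw [fderiv_FF_neg hs ho hu0, inner_neg_left]
      linarith
  · exact key u (Or.inl rfl) a ha hua hDa t ht hdec h1

end Pool.Agent.Helper355.Hedge
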