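import Pool.Agent.Erdos456.Mertens

set_option autoImplicit false

namespace Pool.Agent.Helper355.Run

open Finset Real

/-- elements of `range N` which are congruent to one another modulo `p` -/
theorem card_cong {N p : ℕ} (S : Finset ℕ) (hS : S ⊆ range N)
    (hc : ∀ i ∈ S, ∀ j ∈ S, i % p = j % p) : S.card ≤ N / p + 1 := by
  have h1 : S.card ≤ (range (N / p + 1)).card := by
    refine Finset.card_le_card_of_injOn (fun i => i / p) ?_ ?_
    · intro i hi
      have h2 : i < N := mem_range.1 (hS hi)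
      have h3 : i / p ≤ N / p := Nat.div_le_div_right h2.le
      simp only [coe_range, Set.mem_Iio]
      omega
    · intro i hi j hj hij
      have h2 := hc i hi j hj
      have h3 : i / p = j / p := hij
      rw [← Nat.div_add_mod i p, ← Nat.div_add_mod j p, h2, h3]
  simpa using h1

/-- number of prime factors above a bound -/
theorem card_large {n N X : ℕ} (hn : 0 < n) (hnX : n ≤ X) (hN : 2 ≤ N) :
    (((n.primeFactors.filter (fun p => N < p)).card : ℕ) : ℝ) ≤ log X / log N := by
  set S := n.primeFactors.filter (fun p => N < p) with hS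
  have h1 : N ^ S.card ≤ n := by
    calc N ^ S.card ≤ ∏ p ∈ S, p := by
          rw [← Finset.prod_const]
          exact Finset.prod_le_prod' fun p hp => (mem_filter.1 hp).2.le
      _ ≤ ∏ p ∈ n.primeFactors, p :=
          Finset.prod_le_prod_of_subset_of_one_le' (filter_subset _ _)
            fun p hp _ => (Nat.prime_of_mem_primeFactors hp).one_lt.le
      _ ≤ n := Nat.le_of_dvd hn (Nat.prod_primeFactors_dvd n)
  have hl : 0 < log N := log_pos (by exact_mod_cast hN)
  rw [le_div_iff₀ hl]
  have h2 : ((N : ℝ)) ^ S.card ≤ X := by exact_mod_cast h1.trans hnX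
  have h3 := log_le_log (by positivity) h2
  rw [log_pow] at h3
  exact h3

theorem core {C : ℝ}
    (hC : ∀ N : ℕ, 3 ≤ N → |∑ p ∈ (Finset.Icc 1 N).filter Nat.Prime, (1 : ℝ) / p
      - Real.log (Real.log N)| ≤ C)
    {x a l w N : ℕ} (hx : 3 ≤ x) (hxa : x ≤ a) (hal : a + l ≤ 2 * x + 1)
    (hrun : ∀ n : ℕ, a ≤ n → n < a + l → log (log n) < (n.primeFactors.card : ℝ))
    (hw : 3 ≤ w) (hwN : w ≤ N) (hN : N * primorial w ≤ l) :
    log (log x) < log (log N) - log (log w) + 2 * C + 1 + log ((2 * x : ℕ) : ℝ) / log N := by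
  have hN3 : 3 ≤ N := hw.trans hwN
  have hm : 0 < primorial w := primorial_pos w
  set m := primorial w with hmd
  -- the progression
  obtain ⟨s, hsm, hs⟩ : ∃ s, s < m ∧ m ∣ a + s + (m - 1) := by
    refine ⟨(m - (a + (m - 1)) % m) % m, Nat.mod_lt _ hm, ?_⟩
    have h1 : (a + (m - 1)) % m < m := Nat.mod_lt _ hm
    set r := (a + (m - 1)) % m with hr
    have h2 : (a + (m - r) % m + (m - 1)) % m = 0 := by
      have h3 : a + (m - r) % m + (m - 1) = (a + (m - 1)) + (m - r) % m := by ring
      rw [h3, Nat.add_mod, ← hr, Nat.mod_mod, ← Nat.add_mod_mod, Nat.mod_mod,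
        Nat.add_mod_mod]
      have h4 : r + (m - r) = m := by omega
      rw [h4, Nat.mod_self]
    exact Nat.dvd_of_mod_eq_zero h2
  set n : ℕ → ℕ := fun j => a + s + j * m with hn
  have hnl : ∀ j, j < N → a ≤ n j ∧ n j < a + l := by
    intro j hj
    constructor
    · simp only [hn]
      omega
    · have h1 : (j + 1) * m ≤ N * m := Nat.mul_le_mul_right m hj
      have h2 : (j + 1) * m = j * m + m := by ring
      simp only [hn]
      omega
  -- small primes do not divide
  have hsmall : ∀ j p, p.Prime → p ≤ w → ¬ p ∣ n j := by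
    intro j p hp hpw hd
    have h1 : p ∣ m := by
      rw [hmd]
      exact (Nat.Prime.dvd_primorial_iff hp).2 hpw
    have h2 : p ∣ a + s + (m - 1) := h1.trans hs
    have h3 : p ∣ a + s := by
      have h4 : p ∣ j * m := h1.mul_left j
      exact (Nat.dvd_add_left h4).1 hd
    have h5 : p ∣ m - 1 := (Nat.dvd_add_right h3).1 h2
    have h6 : p ∣ 1 := by
      have h7 : m = (m - 1) + 1 := by omega
      rw [h7] at h1
      exact (Nat.dvd_add_right h5).1 h1
    exact hp.one_lt.ne' (Nat.dvd_one.1 h6)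
  set P := (Finset.Ioc w N).filter Nat.Prime with hP
  have hcount : ∀ p ∈ P, (((range N).filter (fun j => p ∣ n j)).card : ℝ) ≤ N * (1 / (p : ℝ)) + 1 := by
    intro p hp
    rw [hP, mem_filter, mem_Ioc] at hp
    have hpp := hp.2
    have hpm : Nat.Coprime p m := by
      rw [Nat.Prime.coprime_iff_not_dvd hpp, hmd, Nat.Prime.dvd_primorial_iff hpp]
      omega
    have h1 : ((range N).filter (fun j => p ∣ n j)).card ≤ N / p + 1 := by
      refine card_cong _ (filter_subset _ _) ?_
      intro i hi j hj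
      have hi2 := (mem_filter.1 hi).2
      have hj2 := (mem_filter.1 hj).2
      have h2 : (a + s + i * m) ≡ (a + s + j * m) [MOD p] := by
        unfold Nat.ModEq
        have e1 : (a + s + i * m) % p = 0 := Nat.mod_eq_zero_of_dvd hi2
        have e2 : (a + s + j * m) % p = 0 := Nat.mod_eq_zero_of_dvd hj2
        rw [e1, e2]
      have h3 : i * m ≡ j * m [MOD p] := Nat.ModEq.add_left_cancel' _ h2
      exact Nat.ModEq.cancel_right_of_coprime (by rw [Nat.Coprime] at hpm; exact hpm) h3
    have h2 : ((N / p : ℕ) : ℝ) ≤ (N : ℝ) / p := Nat.cast_div_le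
    have h3 : (((range N).filter (fun j => p ∣ n j)).card : ℝ) ≤ ((N / p : ℕ) : ℝ) + 1 := by
      exact_mod_cast h1
    calc _ ≤ ((N / p : ℕ) : ℝ) + 1 := h3
      _ ≤ (N : ℝ) / p + 1 := by linarith
      _ = _ := by ring
  -- double counting
  have hdc : ∑ j ∈ range N, (((P.filter (fun p => p ∣ n j)).card : ℕ) : ℝ)
      = ∑ p ∈ P, (((range N).filter (fun j => p ∣ n j)).card : ℝ) := by
    simp only [Finset.card_filter, Nat.cast_sum]
    exact Finset.sum_comm
  have hPcard : (P.card : ℝ) ≤ N := by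
    have h1 : P.card ≤ (Finset.Ioc w N).card := card_filter_le _ _
    rw [Nat.card_Ioc] at h1
    exact_mod_cast (h1.trans (Nat.sub_le _ _))
  have hsum : ∑ j ∈ range N, (((P.filter (fun p => p ∣ n j)).card : ℕ) : ℝ)
      ≤ N * (∑ p ∈ P, 1 / (p : ℝ) + 1) := by
    rw [hdc]
    calc ∑ p ∈ P, (((range N).filter (fun j => p ∣ n j)).card : ℝ)
        ≤ ∑ p ∈ P, (N * (1 / (p : ℝ)) + 1) := Finset.sum_le_sum hcount
      _ = N * ∑ p ∈ P, 1 / (p : ℝ) + P.card := by
          rw [Finset.sum_add_distrib, Finset.mul_sum]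
          simp
      _ ≤ N * (∑ p ∈ P, 1 / (p : ℝ) + 1) := by linarith
  have hS : ∑ p ∈ P, 1 / (p : ℝ) ≤ log (log N) - log (log w) + 2 * C := by
    have h1 := (abs_le.1 (hC N hN3)).2
    have h2 := (abs_le.1 (hC w hw)).1
    have h3 : (Finset.Icc 1 N).filter Nat.Prime
        = ((Finset.Icc 1 w).filter Nat.Prime) ∪ P := by
      ext p
      simp only [hP, mem_filter, mem_Icc, mem_Ioc, mem_union]
      constructor
      · rintro ⟨⟨h4, h5⟩, h6⟩
        rcases le_or_gt p w with h7 | h7
        · exact Or.inl ⟨⟨h4, h7⟩, h6⟩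
        · exact Or.inr ⟨⟨h7, h5⟩, h6⟩
      · rintro (⟨⟨h4, h5⟩, h6⟩ | ⟨⟨h4, h5⟩, h6⟩)
        · exact ⟨⟨h4, h5.trans hwN⟩, h6⟩
        · exact ⟨⟨by omega, h5⟩, h6⟩
    have h4 : Disjoint ((Finset.Icc 1 w).filter Nat.Prime) P := by
      rw [Finset.disjoint_left]
      intro p h5 h6
      rw [mem_filter, mem_Icc] at h5
      rw [hP, mem_filter, mem_Ioc] at h6
      omega
    rw [h3, Finset.sum_union h4] at h1
    linarith
  -- a good element of the progression
  obtain ⟨j, hj, hjle⟩ : ∃ j ∈ range N, (((P.filter (fun p => p ∣ n j)).card : ℕ) : ℝ)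
      ≤ ∑ p ∈ P, 1 / (p : ℝ) + 1 := by
    by_contra hcon
    push Not at hcon
    have hne : (range N).Nonempty := ⟨0, mem_range.2 (by omega)⟩
    have h1 := Finset.sum_lt_sum_of_nonempty hne hcon
    rw [Finset.sum_const, card_range, nsmul_eq_mul] at h1
    linarith
  have hjN : j < N := mem_range.1 hj
  obtain ⟨hja, hjl⟩ := hnl j hjN
  have hnpos : 0 < n j := by omega
  have hom : ((n j).primeFactors.card : ℝ) ≤ (((P.filter (fun p => p ∣ n j)).card : ℕ) : ℝ)
      + ((((n j).primeFactors.filter (fun p => N < p)).card : ℕ) : ℝ) := by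
    have h1 : (n j).primeFactors ⊆ (P.filter (fun p => p ∣ n j))
        ∪ ((n j).primeFactors.filter (fun p => N < p)) := by
      intro p hp
      have hpp := Nat.prime_of_mem_primeFactors hp
      have hpd := Nat.dvd_of_mem_primeFactors hp
      simp only [hP, mem_union, mem_filter, mem_Ioc]
      rcases le_or_gt p w with h2 | h2
      · exact absurd hpd (hsmall j p hpp h2)
      · rcases le_or_gt p N with h3 | h3
        · exact Or.inl ⟨⟨⟨h2, h3⟩, hpp⟩, hpd⟩
        · exact Or.inr ⟨hp, h3⟩
    have h2 := (Finset.card_le_card h1).trans (Finset.card_union_le _ _)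
    exact_mod_cast h2
  have hlarge := card_large (N := N) hnpos (show n j ≤ 2 * x by omega) (by omega)
  have hrn := hrun (n j) hja hjl
  have hx0 : (1 : ℝ) < log x := by
    rw [Real.lt_log_iff_exp_lt (by positivity)]
    have h1 : (3 : ℝ) ≤ x := by exact_mod_cast hx
    linarith [Real.exp_one_lt_d9]
  have hll : log (log x) ≤ log (log (n j)) := by
    apply log_le_log (by linarith)
    apply log_le_log (by positivity)
    exact_mod_cast hxa.trans hja
  linarith

end Pool.Agent.Helper355.Run
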