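import Pool.Agent.Helper355.RunSieve

set_option autoImplicit false

namespace Pool.Agent.Helper355.Run

open Finset Real

theorem one_sub_ge_exp {t : ℝ} (h0 : 0 ≤ t) (h1 : t ≤ 1 / 2) : exp (-(2 * t)) ≤ 1 - t := by
  have h2 := Real.add_one_le_exp (2 * t)
  have h3 : 1 ≤ exp (2 * t) * (1 - t) := by nlinarith
  rw [exp_neg]
  rw [inv_le_iff_one_le_mul₀ (exp_pos _)]
  linarith

theorem VV_ge (z : ℕ) : exp (-(2 * SS z)) ≤ VV z := by
  unfold VV SS
  rw [Finset.mul_sum, ← Finset.sum_neg_distrib, exp_sum]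
  apply Finset.prod_le_prod
  · intro p _
    exact (exp_pos _).le
  · intro p hp
    have h1 := (mem_PZ hp).1.two_le
    have h2 : (2 : ℝ) ≤ p := by exact_mod_cast h1
    refine one_sub_ge_exp (by positivity) ?_
    rw [div_le_div_iff₀ (by linarith) (by norm_num)]
    linarith

theorem VV_pos (z : ℕ) : 0 < VV z := (exp_pos _).trans_le (VV_ge z)

theorem core2 {C : ℝ}
    (hC : ∀ N : ℕ, 3 ≤ N → |∑ p ∈ (Finset.Icc 1 N).filter Nat.Prime, (1 : ℝ) / p
      - Real.log (Real.log N)| ≤ C)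
    {x a l z y r D : ℕ} (hx : 3 ≤ x) (hxa : x ≤ a) (hal : a + l ≤ 2 * x + 1)
    (hrun : ∀ n : ℕ, a ≤ n → n < a + l → log (log n) < (n.primeFactors.card : ℝ))
    (hz : 3 ≤ z) (hzy : z ≤ y) (hD : 1 ≤ D) (hyl : y * D ≤ l) (hr : Even r)
    (hV : exp (-(r : ℝ) + exp 1 * SS z) ≤ VV z / 4)
    (hE : 3 * (z : ℝ) ^ (2 * (r + 1)) ≤ D * VV z / 4) :
    log (log x) < 6 * (log (log y) - log (log z) + 2 * C) + log ((2 * x : ℕ) : ℝ) / log y := by
  have hVp := VV_pos z
  have hy3 : 3 ≤ y := hz.trans hzy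
  have hy0 : (0 : ℝ) < y := by positivity
  have hz1 : (1 : ℝ) ≤ z := by exact_mod_cast (by omega : 1 ≤ z)
  have hylr : (y : ℝ) * D ≤ l := by exact_mod_cast hyl
  have hD1 : (1 : ℝ) ≤ D := by exact_mod_cast hD
  have hyl1 : (y : ℝ) ≤ l := by nlinarith
  have hDl : (D : ℝ) ≤ l := by
    have h1 : (1 : ℝ) ≤ y := by exact_mod_cast (by omega : 1 ≤ y)
    nlinarith
  -- lower bound for the number of rough numbers
  have hlow : (l : ℝ) * VV z / 2 ≤ RC z a l := by
    have h1 := RC_lower z r a l (by omega) hr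
    have h2 : (z : ℝ) ^ (2 * r) ≤ (z : ℝ) ^ (2 * (r + 1)) :=
      pow_le_pow_right₀ hz1 (by omega)
    have h3 : (l : ℝ) * (VV z - exp (-(r : ℝ) + exp 1 * SS z)) ≥ l * (VV z - VV z / 4) :=
      mul_le_mul_of_nonneg_left (by linarith) (by positivity)
    nlinarith
  -- upper bound for the multiples
  set Q := (Finset.Ioc z y).filter Nat.Prime with hQ
  have hup : ∀ q ∈ Q, (((range l).filter (fun k => q ∣ a + k ∧ Rough z (a + k))).card : ℝ)
      ≤ 3 * VV z * l * (1 / (q : ℝ)) := by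
    intro q hq
    rw [hQ, mem_filter, mem_Ioc] at hq
    have hq0 : 0 < q := hq.2.pos
    have h1 := mult_le z a l q hq0
    have h2 := RC_upper z (r + 1) ((a + q - 1) / q) (l / q + 1) (by omega) hr.add_one
    have h3 : ((((range l).filter (fun k => q ∣ a + k ∧ Rough z (a + k))).card : ℕ) : ℝ)
        ≤ RC z ((a + q - 1) / q) (l / q + 1) := by exact_mod_cast h1
    have h4 : exp (-(((r + 1 : ℕ)) : ℝ) + exp 1 * SS z) ≤ VV z / 4 := by
      refine le_trans (exp_le_exp.2 ?_) hV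
      push_cast
      linarith
    have h5 : D ≤ l / q := by
      rw [Nat.le_div_iff_mul_le hq0]
      exact (Nat.mul_le_mul_left D hq.1.2).trans (by rw [mul_comm]; exact hyl)
    have h6 : (D : ℝ) ≤ ((l / q : ℕ) : ℝ) := by exact_mod_cast h5
    have h7 : ((l / q : ℕ) : ℝ) ≤ (l : ℝ) / q := Nat.cast_div_le
    have h9 : (((l / q + 1 : ℕ)) : ℝ) ≤ 2 * ((l : ℝ) / q) := by
      push_cast
      linarith
    have h10 : (D : ℝ) ≤ (((l / q + 1 : ℕ)) : ℝ) := by
      push_cast
      linarith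
    have h11 : (((l / q + 1 : ℕ)) : ℝ) * (VV z + exp (-(((r + 1 : ℕ)) : ℝ) + exp 1 * SS z))
        ≤ (((l / q + 1 : ℕ)) : ℝ) * (VV z + VV z / 4) :=
      mul_le_mul_of_nonneg_left (by linarith) (by positivity)
    have h12 : (D : ℝ) * VV z / 4 ≤ (((l / q + 1 : ℕ)) : ℝ) * VV z / 4 := by
      have := mul_le_mul_of_nonneg_right h10 hVp.le
      linarith
    have h13 : (((l / q + 1 : ℕ)) : ℝ) * VV z ≤ 2 * ((l : ℝ) / q) * VV z :=
      mul_le_mul_of_nonneg_right h9 hVp.le
    have h14 : 3 * VV z * l * (1 / (q : ℝ)) = 3 / 2 * (2 * ((l : ℝ) / q) * VV z) := by ring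
    rw [h14]
    linarith
  -- double counting
  set Rf := (range l).filter (fun k => Rough z (a + k)) with hRf
  have hRfc : (Rf.card : ℝ) = RC z a l := rfl
  have hdc : ∑ k ∈ Rf, (((Q.filter (fun q => q ∣ a + k)).card : ℕ) : ℝ)
      = ∑ q ∈ Q, (((range l).filter (fun k => q ∣ a + k ∧ Rough z (a + k))).card : ℝ) := by
    have h1 : ∀ q ∈ Q, (((range l).filter (fun k => q ∣ a + k ∧ Rough z (a + k))).card : ℝ)
        = (((Rf.filter (fun k => q ∣ a + k)).card : ℕ) : ℝ) := by
      intro q _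
      rw [hRf, Finset.filter_filter]
      congr 2
      ext k
      simp only [mem_filter]
      tauto
    rw [Finset.sum_congr rfl h1]
    simp only [Finset.card_filter, Nat.cast_sum]
    exact Finset.sum_comm
  have hS : ∑ q ∈ Q, 1 / (q : ℝ) ≤ log (log y) - log (log z) + 2 * C := by
    have h1 := (abs_le.1 (hC y hy3)).2
    have h2 := (abs_le.1 (hC z hz)).1
    have h3 : (Finset.Icc 1 y).filter Nat.Prime
        = ((Finset.Icc 1 z).filter Nat.Prime) ∪ Q := by
      ext p
      simp only [hQ, mem_filter, mem_Icc, mem_Ioc, mem_union]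
      constructor
      · rintro ⟨⟨h4, h5⟩, h6⟩
        rcases le_or_gt p z with h7 | h7
        · exact Or.inl ⟨⟨h4, h7⟩, h6⟩
        · exact Or.inr ⟨⟨h7, h5⟩, h6⟩
      · rintro (⟨⟨h4, h5⟩, h6⟩ | ⟨⟨h4, h5⟩, h6⟩)
        · exact ⟨⟨h4, h5.trans hzy⟩, h6⟩
        · exact ⟨⟨by omega, h5⟩, h6⟩
    have h4 : Disjoint ((Finset.Icc 1 z).filter Nat.Prime) Q := by
      rw [Finset.disjoint_left]
      intro p h5 h6
      rw [mem_filter, mem_Icc] at h5
      rw [hQ, mem_filter, mem_Ioc] at h6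
      omega
    rw [h3, Finset.sum_union h4] at h1
    linarith
  set M := 6 * (log (log y) - log (log z) + 2 * C) with hM
  have hS0 : 0 ≤ ∑ q ∈ Q, 1 / (q : ℝ) := Finset.sum_nonneg fun q _ => by positivity
  have hM0 : 0 ≤ M := by rw [hM]; linarith
  obtain ⟨k, hk, hkle⟩ : ∃ k ∈ Rf, (((Q.filter (fun q => q ∣ a + k)).card : ℕ) : ℝ) ≤ M := by
    by_contra hcon
    push Not at hcon
    have hRpos : 0 < (Rf.card : ℝ) := by
      rw [hRfc]
      have : 0 < (l : ℝ) * VV z / 2 := by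
        have : (0 : ℝ) < l := hy0.trans_le hyl1
        positivity
      linarith
    have hne : Rf.Nonempty := by
      rw [← Finset.card_pos]
      exact_mod_cast hRpos
    have h1 := Finset.sum_lt_sum_of_nonempty hne hcon
    rw [Finset.sum_const, nsmul_eq_mul, hdc, hRfc] at h1
    have h2 := Finset.sum_le_sum hup
    rw [← Finset.mul_sum] at h2
    have h3 : (l : ℝ) * VV z / 2 * M ≤ RC z a l * M := mul_le_mul_of_nonneg_right hlow hM0
    have h4 : 3 * VV z * l * ∑ q ∈ Q, 1 / (q : ℝ) ≤ 3 * VV z * l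
        * (log (log y) - log (log z) + 2 * C) :=
      mul_le_mul_of_nonneg_left hS (by positivity)
    have h5 : (l : ℝ) * VV z / 2 * M = 3 * VV z * l * (log (log y) - log (log z) + 2 * C) := by
      rw [hM]
      ring
    linarith
  rw [hRf, mem_filter, mem_range] at hk
  obtain ⟨hkl, hkr⟩ := hk
  have hnpos : 0 < a + k := by omega
  have hom : ((a + k).primeFactors.card : ℝ) ≤ (((Q.filter (fun q => q ∣ a + k)).card : ℕ) : ℝ)
      + ((((a + k).primeFactors.filter (fun p => y < p)).card : ℕ) : ℝ) := by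
    have h1 : (a + k).primeFactors ⊆ (Q.filter (fun q => q ∣ a + k))
        ∪ ((a + k).primeFactors.filter (fun p => y < p)) := by
      intro p hp
      have hpp := Nat.prime_of_mem_primeFactors hp
      have hpd := Nat.dvd_of_mem_primeFactors hp
      simp only [hQ, mem_union, mem_filter, mem_Ioc]
      rcases le_or_gt p z with h2 | h2
      · refine absurd hpd (hkr p ?_)
        unfold PZ
        rw [mem_filter, mem_Icc]
        exact ⟨⟨hpp.one_lt.le, h2⟩, hpp⟩
      · rcases le_or_gt p y with h3 | h3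
        · exact Or.inl ⟨⟨⟨h2, h3⟩, hpp⟩, hpd⟩
        · exact Or.inr ⟨hp, h3⟩
    have h2 := (Finset.card_le_card h1).trans (Finset.card_union_le _ _)
    exact_mod_cast h2
  have hlarge := card_large (N := y) hnpos (show a + k ≤ 2 * x by omega) (by omega)
  have hrn := hrun (a + k) (by omega) (by omega)
  have hx0 : (1 : ℝ) < log x := by
    rw [Real.lt_log_iff_exp_lt (by positivity)]
    have h1 : (3 : ℝ) ≤ x := by exact_mod_cast hx
    linarith [Real.exp_one_lt_d9]
  have hll : log (log x) ≤ log (log ((a + k : ℕ) : ℝ)) := by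
    apply log_le_log (by linarith)
    apply log_le_log (by positivity)
    exact_mod_cast (by omega : x ≤ a + k)
  linarith

end Pool.Agent.Helper355.Run
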