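import Mathlib

set_option autoImplicit false

namespace Pool.Agent.Helper355.Run

open Finset

theorem nth_le_of_lt {j y : ℕ} (h : j < Nat.primeCounting y) : Nat.nth Nat.Prime j ≤ y := by
  have h1 : j < Nat.count Nat.Prime (y + 1) := h
  exact Nat.lt_succ_iff.1 (Nat.nth_lt_of_lt_count h1)

theorem nth_inj : Function.Injective (Nat.nth Nat.Prime) :=
  Nat.nth_injective Nat.infinite_setOfPred_prime

theorem prod_nth_le {M y : ℕ} (h : M ≤ Nat.primeCounting y) :
    ∏ j ∈ range M, Nat.nth Nat.Prime j ≤ 4 ^ y := by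
  have h1 : ∏ j ∈ range M, Nat.nth Nat.Prime j
      = ∏ p ∈ (range M).image (Nat.nth Nat.Prime), p := by
    rw [Finset.prod_image]
    intro i _ j _ hij
    exact nth_inj hij
  rw [h1]
  refine le_trans ?_ (primorial_le_four_pow y)
  unfold primorial
  refine Finset.prod_le_prod_of_subset_of_one_le' ?_ ?_
  · intro p hp
    obtain ⟨j, hj, rfl⟩ := mem_image.1 hp
    rw [mem_filter, mem_range]
    have h2 := nth_le_of_lt (y := y) ((mem_range.1 hj).trans_le h)
    exact ⟨by omega, Nat.prime_nth_prime j⟩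
  · intro p hp _
    exact (mem_filter.1 hp).2.one_lt.le

theorem low_core {x y K l : ℕ} (hl : l * K ≤ Nat.primeCounting y) (hx : 0 < x)
    (hxy : 4 ^ y + l ≤ x + 1) :
    ∃ a : ℕ, x ≤ a ∧ a + l ≤ 2 * x + 1 ∧
      ∀ n : ℕ, a ≤ n → n < a + l → K ≤ n.primeFactors.card := by
  have hs : ∀ j ∈ range (l * K), Nat.nth Nat.Prime j ≠ 0 := fun j _ =>
    (Nat.prime_nth_prime j).ne_zero
  have hcop : Set.Pairwise (↑(range (l * K)) : Set ℕ)
      (Function.onFun Nat.Coprime (Nat.nth Nat.Prime)) := by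
    intro i _ j _ hij
    exact (Nat.coprime_primes (Nat.prime_nth_prime i) (Nat.prime_nth_prime j)).2
      (fun h => hij (nth_inj h))
  set A : ℕ → ℕ := fun j => (Nat.nth Nat.Prime j - 1) * (x + j / K) with hA
  obtain ⟨k, hk, hklt⟩ : ∃ k : ℕ, (∀ j ∈ range (l * K), k ≡ A j [MOD Nat.nth Nat.Prime j]) ∧
      k < ∏ j ∈ range (l * K), Nat.nth Nat.Prime j := by
    refine ⟨(Nat.chineseRemainderOfFinset A (Nat.nth Nat.Prime) (range (l * K)) hs hcop : ℕ),
      (Nat.chineseRemainderOfFinset A (Nat.nth Nat.Prime) (range (l * K)) hs hcop).2, ?_⟩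
    exact Nat.chineseRemainderOfFinset_lt_prod A (Nat.nth Nat.Prime) hs hcop
  have hk4 : k < 4 ^ y := hklt.trans_le (prod_nth_le hl)
  refine ⟨x + k, by omega, by omega, ?_⟩
  intro n hn1 hn2
  obtain ⟨i, rfl⟩ : ∃ i, n = x + k + i := ⟨n - (x + k), by omega⟩
  have hil : i < l := by omega
  have hdvd : ∀ r, r < K → Nat.nth Nat.Prime (i * K + r) ∣ x + k + i := by
    intro r hr
    have hK : 0 < K := by omega
    have hj : i * K + r < l * K := by
      have h1 : (i + 1) * K ≤ l * K := Nat.mul_le_mul_right K hil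
      have h2 : (i + 1) * K = i * K + K := by ring
      omega
    have h1 := hk (i * K + r) (mem_range.2 hj)
    have h2 : (i * K + r) / K = i := by
      rw [add_comm, Nat.add_mul_div_right _ _ hK, Nat.div_eq_of_lt hr, zero_add]
    simp only [hA, h2] at h1
    set p := Nat.nth Nat.Prime (i * K + r) with hp
    have hpp : p.Prime := Nat.prime_nth_prime _
    have h3 : k + (x + i) ≡ (p - 1) * (x + i) + (x + i) [MOD p] := h1.add_right _
    have h4' : ∀ q X : ℕ, 0 < q → (q - 1) * X + X = q * X := by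
      intro q X hq
      obtain ⟨r, rfl⟩ : ∃ r, q = r + 1 := ⟨q - 1, by omega⟩
      rw [Nat.add_sub_cancel]
      ring
    have h4 : (p - 1) * (x + i) + (x + i) = p * (x + i) := h4' _ _ hpp.pos
    rw [h4] at h3
    have h5 : p ∣ k + (x + i) := (Nat.ModEq.dvd_iff h3 dvd_rfl).2 (dvd_mul_right p _)
    have h6 : k + (x + i) = x + k + i := by ring
    rw [h6] at h5
    exact h5
  have hne : x + k + i ≠ 0 := by omega
  have hcard : ((range K).image (fun r => Nat.nth Nat.Prime (i * K + r))).card = K := by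
    rw [Finset.card_image_of_injective, card_range]
    intro r r' hrr
    have := nth_inj hrr
    omega
  rw [← hcard]
  refine Finset.card_le_card ?_
  intro p hp
  obtain ⟨r, hr, rfl⟩ := mem_image.1 hp
  rw [Nat.mem_primeFactors]
  exact ⟨Nat.prime_nth_prime _, hdvd r (mem_range.1 hr), hne⟩

end Pool.Agent.Helper355.Run
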