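import Pool.Agent.Helper355.BrunLow
import Pool.Agent.Helper355.RunCore

set_option autoImplicit false

namespace Pool.Agent.Helper355.Run

open Finset Real Pool.Agent.Helper742

/-- primes up to `z` -/
def PZ (z : ℕ) : Finset ℕ := (Finset.Icc 1 z).filter Nat.Prime

/-- `n` has no prime factor up to `z` -/
def Rough (z n : ℕ) : Prop := ∀ p ∈ PZ z, ¬ p ∣ n

instance (z n : ℕ) : Decidable (Rough z n) := by unfold Rough; infer_instance

/-- the number of rough integers in `[a, a + X)` -/
def RC (z a X : ℕ) : ℕ := ((range X).filter (fun k => Rough z (a + k))).card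

/-- the density -/
noncomputable def VV (z : ℕ) : ℝ := ∏ p ∈ PZ z, (1 - 1 / (p : ℝ))

/-- the sum of reciprocals -/
noncomputable def SS (z : ℕ) : ℝ := ∑ p ∈ PZ z, 1 / (p : ℝ)

/-- the local weights -/
def ww (a : ℕ) (p n : ℕ) : ℝ := if p ∣ a + n then 1 else 0

theorem ww_per (a p n : ℕ) : ww a p (n % p) = ww a p n := by
  unfold ww
  have h : p ∣ a + n % p ↔ p ∣ a + n := by
    rw [Nat.dvd_iff_mod_eq_zero, Nat.dvd_iff_mod_eq_zero, Nat.add_mod, Nat.mod_mod,
      ← Nat.add_mod]
  by_cases h1 : p ∣ a + n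
  · rw [if_pos h1, if_pos (h.2 h1)]
  · rw [if_neg h1, if_neg (fun h2 => h1 (h.1 h2))]

theorem mean_ww (a : ℕ) {p : ℕ} (hp : 0 < p) : mean (ww a) p = 1 / (p : ℝ) := by
  unfold mean ww
  have h1 : ∑ n ∈ range p, (if p ∣ a + n then (1 : ℝ) else 0)
      = (((range p).filter (fun n => p ∣ a + n)).card : ℝ) := by
    rw [Finset.card_filter]
    push_cast
    rfl
  have h2 : (range p).filter (fun n => p ∣ a + n) = {(p - a % p) % p} := by
    ext n
    simp only [mem_filter, mem_range, mem_singleton]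
    have hap : a % p < p := Nat.mod_lt _ hp
    have hap' : p * (a / p) + a % p = a := Nat.div_add_mod a p
    constructor
    · rintro ⟨h3, h4⟩
      have h5 : p ∣ a % p + n := by
        have h6 : a + n = p * (a / p) + (a % p + n) := by omega
        rw [h6] at h4
        exact (Nat.dvd_add_right (dvd_mul_right _ _)).1 h4
      obtain ⟨c, hc⟩ := h5
      have hc2 : c < 2 := by
        by_contra hcon
        have : p * 2 ≤ p * c := Nat.mul_le_mul_left p (by omega)
        omega
      rcases Nat.lt_or_ge c 1 with h6 | h6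
      · have h7 : c = 0 := by omega
        rw [h7, mul_zero] at hc
        have h8 : a % p = 0 := by omega
        have h9 : n = 0 := by omega
        rw [h8, h9, Nat.sub_zero, Nat.mod_self]
      · have h7 : c = 1 := by omega
        rw [h7, mul_one] at hc
        have h8 : n = p - a % p := by omega
        rw [← h8, Nat.mod_eq_of_lt h3]
    · rintro rfl
      refine ⟨Nat.mod_lt _ hp, ?_⟩
      rcases Nat.eq_zero_or_pos (a % p) with h3 | h3
      · rw [h3, Nat.sub_zero, Nat.mod_self, add_zero]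
        exact Nat.dvd_of_mod_eq_zero h3
      · rw [Nat.mod_eq_of_lt (by omega)]
        have h4 : a + (p - a % p) = p * (a / p) + p := by omega
        rw [h4]
        exact Nat.dvd_add (dvd_mul_right _ _) dvd_rfl
  rw [h1, h2, card_singleton]
  simp

theorem RC_eq (z a X : ℕ) : (RC z a X : ℝ) = ∑ n ∈ range X, ∏ p ∈ PZ z, (1 - ww a p n) := by
  unfold RC
  rw [Finset.card_filter]
  push_cast
  refine Finset.sum_congr rfl fun n _ => ?_
  by_cases h : Rough z (a + n)
  · rw [if_pos h]
    symm
    apply Finset.prod_eq_one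
    intro p hp
    unfold ww
    rw [if_neg (h p hp), sub_zero]
  · rw [if_neg h]
    unfold Rough at h
    push Not at h
    obtain ⟨p, hp, hd⟩ := h
    symm
    apply Finset.prod_eq_zero hp
    unfold ww
    rw [if_pos hd, sub_self]

theorem mem_PZ {z p : ℕ} (hp : p ∈ PZ z) : p.Prime ∧ p ≤ z := by
  unfold PZ at hp
  rw [mem_filter, mem_Icc] at hp
  exact ⟨hp.2, hp.1.2⟩

theorem RC_lower (z r a X : ℕ) (hz : 1 ≤ z) (hr : Even r) :
    X * (VV z - exp (-(r : ℝ) + exp 1 * SS z)) - 3 * (z : ℝ) ^ (2 * r) ≤ RC z a X := by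
  have h1 := brun_low (PZ z) z r hz hr (fun p hp => mem_PZ hp) (ww a)
    (fun p _ n => by unfold ww; split_ifs <;> norm_num)
    (fun p _ n => by unfold ww; split_ifs <;> norm_num)
    (fun p _ n => ww_per a p n) (exp 1) (exp_pos 1) X
  rw [← RC_eq] at h1
  have h2 : ∏ p ∈ PZ z, (1 - mean (ww a) p) = VV z := by
    unfold VV
    exact Finset.prod_congr rfl fun p hp => by rw [mean_ww a (mem_PZ hp).1.pos]
  have h3 : ∑ p ∈ PZ z, mean (ww a) p = SS z := by
    unfold SS
    exact Finset.sum_congr rfl fun p hp => by rw [mean_ww a (mem_PZ hp).1.pos]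
  have h4 : (exp 1)⁻¹ ^ r * exp (exp 1 * SS z) = exp (-(r : ℝ) + exp 1 * SS z) := by
    rw [exp_add, ← exp_neg, ← exp_nat_mul]
    congr 2
    ring
  rw [h2, h3, h4] at h1
  exact h1

theorem RC_upper (z r a X : ℕ) (hz : 1 ≤ z) (hr : Odd r) :
    (RC z a X : ℝ) ≤ X * (VV z + exp (-(r : ℝ) + exp 1 * SS z)) + 3 * (z : ℝ) ^ (2 * r) := by
  have h1 := brun (PZ z) z r hz hr (fun p hp => mem_PZ hp) (ww a)
    (fun p _ n => by unfold ww; split_ifs <;> norm_num)
    (fun p _ n => by unfold ww; split_ifs <;> norm_num)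
    (fun p _ n => ww_per a p n) (exp 1) (exp_pos 1) X
  rw [← RC_eq] at h1
  have h2 : ∏ p ∈ PZ z, (1 - mean (ww a) p) = VV z := by
    unfold VV
    exact Finset.prod_congr rfl fun p hp => by rw [mean_ww a (mem_PZ hp).1.pos]
  have h3 : ∑ p ∈ PZ z, mean (ww a) p = SS z := by
    unfold SS
    exact Finset.sum_congr rfl fun p hp => by rw [mean_ww a (mem_PZ hp).1.pos]
  have h4 : (exp 1)⁻¹ ^ r * exp (exp 1 * SS z) = exp (-(r : ℝ) + exp 1 * SS z) := by
    rw [exp_add, ← exp_neg, ← exp_nat_mul]
    congr 2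
    ring
  rw [h2, h3, h4] at h1
  exact h1

/-- rough multiples of `q` in a block -/
theorem mult_le (z a X q : ℕ) (hq : 0 < q) :
    ((range X).filter (fun k => q ∣ a + k ∧ Rough z (a + k))).card
      ≤ RC z ((a + q - 1) / q) (X / q + 1) := by
  unfold RC
  set a' := (a + q - 1) / q with ha'
  refine Finset.card_le_card_of_injOn (fun k => (a + k) / q - a') ?_ ?_
  · intro k hk
    rw [coe_filter, Set.mem_ofPred_eq, mem_range] at hk
    obtain ⟨hkX, ⟨m, hm⟩, hr⟩ := hk
    have h1 : (a + k) / q = m := by rw [hm, Nat.mul_div_cancel_left _ hq]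
    have h2 : a' ≤ m := by
      rw [ha', Nat.div_le_iff_le_mul_add_pred hq]
      rw [← hm]
      omega
    have h3 : a ≤ q * a' := by
      have h4 := Nat.div_add_mod (a + q - 1) q
      have h5 := Nat.mod_lt (a + q - 1) hq
      rw [← ha'] at h4
      omega
    simp only [coe_filter, Set.mem_ofPred_eq, mem_range, h1]
    refine ⟨?_, ?_⟩
    · have h4 : q * (m - a') ≤ k := by
        rw [Nat.mul_sub]
        omega
      have h5 : m - a' ≤ X / q := by
        rw [Nat.le_div_iff_mul_le hq, mul_comm]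
        omega
      omega
    · have h4 : a' + (m - a') = m := by omega
      rw [h4]
      intro p hp hd
      exact hr p hp (by rw [hm]; exact hd.mul_left q)
  · intro k hk k' hk' hkk
    rw [coe_filter, Set.mem_ofPred_eq, mem_range] at hk hk'
    obtain ⟨hkX, ⟨m, hm⟩, -⟩ := hk
    obtain ⟨hkX', ⟨m', hm'⟩, -⟩ := hk'
    have h1 : (a + k) / q = m := by rw [hm, Nat.mul_div_cancel_left _ hq]
    have h1' : (a + k') / q = m' := by rw [hm', Nat.mul_div_cancel_left _ hq]
    simp only [h1, h1'] at hkk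
    have h2 : a' ≤ m := by
      rw [ha', Nat.div_le_iff_le_mul_add_pred hq]
      rw [← hm]
      omega
    have h2' : a' ≤ m' := by
      rw [ha', Nat.div_le_iff_le_mul_add_pred hq]
      rw [← hm']
      omega
    have h3 : m = m' := by omega
    rw [h3, ← hm'] at hm
    omega

end Pool.Agent.Helper355.Run
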