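import Mathlib

set_option autoImplicit false

namespace Pool.Agent.Helper355.TriClass

universe u v

/-! ## Definitions -/

/-- The identities (I1), (I2), (I3) for a triple system `B` on `W`. -/
structure Identities {W : Type u} [AddCommGroup W] [Module ℂ W]
    (B : W →ₗ[ℂ] W →ₗ[ℂ] W →ₗ[ℂ] W) : Prop where
  i1 : ∀ x y v u, B x y (B x v u) = B x (B y x v) u
  i2 : ∀ x y z v, B x (B y z v) z = B (B x y z) v z
  i3 : ∀ x y z v, B x y (B z y v) = B (B x y z) y v

/-- Ideals of a triple system. -/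
def IsTripleIdeal {W : Type u} [AddCommGroup W] [Module ℂ W]
    (B : W →ₗ[ℂ] W →ₗ[ℂ] W →ₗ[ℂ] W) (I : Submodule ℂ W) : Prop :=
  ∀ x ∈ I, ∀ y z : W, B x y z ∈ I ∧ B y x z ∈ I ∧ B y z x ∈ I

/-- Simple triple systems: `B` is nonzero and the only ideals are `0` and `W`. -/
def IsSimpleTriple {W : Type u} [AddCommGroup W] [Module ℂ W]
    (B : W →ₗ[ℂ] W →ₗ[ℂ] W →ₗ[ℂ] W) : Prop :=
  B ≠ 0 ∧ ∀ I : Submodule ℂ W, IsTripleIdeal B I → I = ⊥ ∨ I = ⊤

/-- Isomorphism of triple systems. -/
def TripleIso {W : Type u} {W' : Type v} [AddCommGroup W] [Module ℂ W] [AddCommGroup W']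
    [Module ℂ W'] (B : W →ₗ[ℂ] W →ₗ[ℂ] W →ₗ[ℂ] W) (B' : W' →ₗ[ℂ] W' →ₗ[ℂ] W' →ₗ[ℂ] W') : Prop :=
  ∃ φ : W ≃ₗ[ℂ] W', ∀ x y z : W, φ (B x y z) = B' (φ x) (φ y) (φ z)

/-- The triple system of `n × n` matrices with product `X Y Z`. -/
def matTriple (n : ℕ) : Matrix (Fin n) (Fin n) ℂ →ₗ[ℂ] Matrix (Fin n) (Fin n) ℂ →ₗ[ℂ]
    Matrix (Fin n) (Fin n) ℂ →ₗ[ℂ] Matrix (Fin n) (Fin n) ℂ where
  toFun X :=
    { toFun := fun Y =>
        { toFun := fun Z => X * Y * Z
          map_add' := fun Z Z' => by rw [mul_add]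
          map_smul' := fun c Z => by rw [mul_smul_comm, RingHom.id_apply] }
      map_add' := fun Y Y' => by
        ext1 Z
        simp only [LinearMap.coe_mk, AddHom.coe_mk, LinearMap.add_apply, mul_add, add_mul]
      map_smul' := fun c Y => by
        ext1 Z
        simp only [LinearMap.coe_mk, AddHom.coe_mk, LinearMap.smul_apply, mul_smul_comm,
          smul_mul_assoc, RingHom.id_apply] }
  map_add' := fun X X' => by
    ext1 Y; ext1 Z
    simp only [LinearMap.coe_mk, AddHom.coe_mk, LinearMap.add_apply, add_mul]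
  map_smul' := fun c X => by
    ext1 Y; ext1 Z
    simp only [LinearMap.coe_mk, AddHom.coe_mk, LinearMap.smul_apply, smul_mul_assoc,
      RingHom.id_apply]

lemma matTriple_apply (n : ℕ) (X Y Z : Matrix (Fin n) (Fin n) ℂ) :
    matTriple n X Y Z = X * Y * Z := rfl

/-- The space of pairs of a `p × q` matrix and a `q × p` matrix. -/
abbrev PairSpace (p q : ℕ) : Type := Matrix (Fin p) (Fin q) ℂ × Matrix (Fin q) (Fin p) ℂ

/-- The triple system of pairs of rectangular matrices. -/
def pairTriple (p q : ℕ) : PairSpace p q →ₗ[ℂ] PairSpace p q →ₗ[ℂ] PairSpace p q →ₗ[ℂ]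
    PairSpace p q where
  toFun X :=
    { toFun := fun Y =>
        { toFun := fun Z => (X.1 * Y.2 * Z.1, X.2 * Y.1 * Z.2)
          map_add' := fun Z Z' => by
            simp only [Prod.fst_add, Prod.snd_add, Matrix.mul_add, Prod.mk_add_mk]
          map_smul' := fun c Z => by
            simp only [Prod.smul_fst, Prod.smul_snd, Matrix.mul_smul, Prod.smul_mk,
              RingHom.id_apply] }
      map_add' := fun Y Y' => by
        apply LinearMap.ext; intro Z
        simp only [LinearMap.coe_mk, AddHom.coe_mk, LinearMap.add_apply, Prod.fst_add,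
          Prod.snd_add, Matrix.mul_add, Matrix.add_mul, Prod.mk_add_mk]
      map_smul' := fun c Y => by
        apply LinearMap.ext; intro Z
        simp only [LinearMap.coe_mk, AddHom.coe_mk, LinearMap.smul_apply, Prod.smul_fst,
          Prod.smul_snd, Matrix.mul_smul, Matrix.smul_mul, Prod.smul_mk, RingHom.id_apply] }
  map_add' := fun X X' => by
    apply LinearMap.ext; intro Y; apply LinearMap.ext; intro Z
    simp only [LinearMap.coe_mk, AddHom.coe_mk, LinearMap.add_apply, Prod.fst_add,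
      Prod.snd_add, Matrix.add_mul, Prod.mk_add_mk]
  map_smul' := fun c X => by
    apply LinearMap.ext; intro Y; apply LinearMap.ext; intro Z
    simp only [LinearMap.coe_mk, AddHom.coe_mk, LinearMap.smul_apply, Prod.smul_fst,
      Prod.smul_snd, Matrix.smul_mul, Prod.smul_mk, RingHom.id_apply]

lemma pairTriple_apply (p q : ℕ) (X Y Z : PairSpace p q) :
    pairTriple p q X Y Z = (X.1 * Y.2 * Z.1, X.2 * Y.1 * Z.2) := rfl

/-- The product `X Yᵀ Z` on `r × s` matrices. -/
def trTriple (r s : ℕ) : Matrix (Fin r) (Fin s) ℂ →ₗ[ℂ] Matrix (Fin r) (Fin s) ℂ →ₗ[ℂ]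
    Matrix (Fin r) (Fin s) ℂ →ₗ[ℂ] Matrix (Fin r) (Fin s) ℂ where
  toFun X :=
    { toFun := fun Y =>
        { toFun := fun Z => X * Y.transpose * Z
          map_add' := fun Z Z' => by rw [Matrix.mul_add]
          map_smul' := fun c Z => by rw [Matrix.mul_smul, RingHom.id_apply] }
      map_add' := fun Y Y' => by
        apply LinearMap.ext; intro Z
        simp only [LinearMap.coe_mk, AddHom.coe_mk, LinearMap.add_apply, Matrix.transpose_add,
          Matrix.mul_add, Matrix.add_mul]
      map_smul' := fun c Y => by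
        apply LinearMap.ext; intro Z
        simp only [LinearMap.coe_mk, AddHom.coe_mk, LinearMap.smul_apply, Matrix.transpose_smul,
          Matrix.mul_smul, Matrix.smul_mul, RingHom.id_apply] }
  map_add' := fun X X' => by
    apply LinearMap.ext; intro Y; apply LinearMap.ext; intro Z
    simp only [LinearMap.coe_mk, AddHom.coe_mk, LinearMap.add_apply, Matrix.add_mul]
  map_smul' := fun c X => by
    apply LinearMap.ext; intro Y; apply LinearMap.ext; intro Z
    simp only [LinearMap.coe_mk, AddHom.coe_mk, LinearMap.smul_apply, Matrix.smul_mul,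
      RingHom.id_apply]

lemma trTriple_apply (r s : ℕ) (X Y Z : Matrix (Fin r) (Fin s) ℂ) :
    trTriple r s X Y Z = X * Y.transpose * Z := rfl

/-! ## Basic -/

section
variable {W : Type*} [AddCommGroup W] [Module ℂ W]

/-- The opposite product. -/
def op (B : W →ₗ[ℂ] W →ₗ[ℂ] W →ₗ[ℂ] W) : W →ₗ[ℂ] W →ₗ[ℂ] W →ₗ[ℂ] W :=
  (LinearMap.lflip.comp B.flip).flip

@[simp] lemma op_apply (B : W →ₗ[ℂ] W →ₗ[ℂ] W →ₗ[ℂ] W) (x y z : W) :
    op B x y z = B z y x := rfl

variable {B : W →ₗ[ℂ] W →ₗ[ℂ] W →ₗ[ℂ] W}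

lemma Identities.op (h : Identities B) : Identities (op B) where
  i1 x y v u := by simp only [op_apply]; exact (h.i2 u v x y).symm
  i2 x y z v := by simp only [op_apply]; exact (h.i1 z v y x).symm
  i3 x y z v := by simp only [op_apply]; exact (h.i3 v y z x).symm

lemma lin1 (h : Identities B) (x z y v u : W) :
    B x y (B z v u) + B z y (B x v u) = B x (B y z v) u + B z (B y x v) u := by
  have h0 := h.i1 (x + z) y v u
  have h1 := h.i1 x y v u
  have h2 := h.i1 z y v u
  simp only [map_add, LinearMap.add_apply] at h0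
  linear_combination (norm := module) h0 - h1 - h2

lemma lin2 (h : Identities B) (x y v z w : W) :
    B x (B y z v) w + B x (B y w v) z = B (B x y z) v w + B (B x y w) v z := by
  have h0 := h.i2 x y (z + w) v
  have h1 := h.i2 x y z v
  have h2 := h.i2 x y w v
  simp only [map_add, LinearMap.add_apply] at h0
  linear_combination (norm := module) h0 - h1 - h2

lemma lin3 (h : Identities B) (x z v y w : W) :
    B x y (B z w v) + B x w (B z y v) = B (B x y z) w v + B (B x w z) y v := by
  have h0 := h.i3 x (y + w) z v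
  have h1 := h.i3 x y z v
  have h2 := h.i3 x w z v
  simp only [map_add, LinearMap.add_apply] at h0
  linear_combination (norm := module) h0 - h1 - h2

/-- `u ↦ [x y u]` is a derivation of the symmetrised product. -/
lemma derL (h : Identities B) (x y u w z : W) :
    B x y (B u w z) + B x y (B z w u) =
      (B (B x y u) w z + B z w (B x y u)) - (B u (B w x y) z + B z (B w x y) u)
        + (B u w (B x y z) + B (B x y z) w u) := by
  have a1 := lin3 h x z u y w
  have a2 := lin3 h x u z y w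
  have b1 := lin1 h z x w y u
  have b2 := lin1 h u x w y z
  have c1 := lin2 h x w y z u
  linear_combination (norm := module) a1 + a2 - b1 - b2 - c1

/-- Mirror image of `derL`. -/
lemma derR (h : Identities B) (x y u w z : W) :
    B (B u w z) y x + B (B z w u) y x =
      (B (B u y x) w z + B z w (B u y x)) - (B u (B y x w) z + B z (B y x w) u)
        + (B u w (B z y x) + B (B z y x) w u) := by
  have := derL h.op x y u w z
  simp only [op_apply] at this
  linear_combination (norm := module) this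

/-- The operator `z ↦ [x y z] + [z y x]`. -/
def D (B : W →ₗ[ℂ] W →ₗ[ℂ] W →ₗ[ℂ] W) (x y : W) : Module.End ℂ W :=
  B x y + (B.flip y).flip x

lemma D_apply (x y z : W) : D B x y z = B x y z + B z y x := rfl

lemma D_comm (x y z : W) : D B x y z = D B z y x := by
  rw [D_apply, D_apply, add_comm]

/-- The right multiplication `u ↦ [u y z]`. -/
def R (B : W →ₗ[ℂ] W →ₗ[ℂ] W →ₗ[ℂ] W) (y z : W) : Module.End ℂ W := (B.flip y).flip z

@[simp] lemma R_apply (u y z : W) : R B y z u = B u y z := rfl

lemma D_eq (x y : W) : D B x y = B x y + R B y x := rfl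

lemma D_add_left (x x' y : W) : D B (x + x') y = D B x y + D B x' y := by
  ext z; simp only [D_apply, map_add, LinearMap.add_apply]; abel

lemma D_add_right (x y y' : W) : D B x (y + y') = D B x y + D B x y' := by
  ext z; simp only [D_apply, map_add, LinearMap.add_apply]; abel

lemma D_smul_left (c : ℂ) (x y : W) : D B (c • x) y = c • D B x y := by
  ext z; simp [D_apply, map_smul, LinearMap.smul_apply]

lemma D_smul_right (c : ℂ) (x y : W) : D B x (c • y) = c • D B x y := by
  ext z; simp [D_apply, map_smul, LinearMap.smul_apply]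

lemma derL' (h : Identities B) (x y u w z : W) :
    B x y (D B u w z) = D B (B x y u) w z - D B u (B w x y) z + D B u w (B x y z) := by
  have := derL h x y u w z
  simp only [D_apply, map_add]
  linear_combination (norm := module) this

lemma derR' (h : Identities B) (x y u w z : W) :
    B (D B u w z) y x = D B (B u y x) w z - D B u (B y x w) z + D B u w (B z y x) := by
  have := derR h x y u w z
  simp only [D_apply, map_add, LinearMap.add_apply]
  linear_combination (norm := module) this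

/-- The five-linear identity of Jordan triple systems. -/
lemma jts (h : Identities B) (x y u w z : W) :
    D B x y (D B u w z) = D B (D B x y u) w z - D B u (D B y x w) z + D B u w (D B x y z) := by
  have e1 := derL' h x y u w z
  have e2 := derR' h x y u w z
  rw [D_apply x y (D B u w z)]
  have f1 : D B (D B x y u) w z = D B (B x y u) w z + D B (B u y x) w z := by
    rw [D_apply x y u, D_add_left]; rfl
  have f2 : D B u (D B y x w) z = D B u (B y x w) z + D B u (B w x y) z := by
    rw [D_apply y x w, D_add_right]; rfl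
  have f3 : D B u w (D B x y z) = D B u w (B x y z) + D B u w (B z y x) := by
    rw [D_apply x y z, map_add]
  rw [f1, f2, f3, e1, e2]
  module

/-! ### Operator rules -/

lemma LL1 (h : Identities B) (x y v : W) : B x y * B x v = B x (B y x v) := by
  ext u; exact h.i1 x y v u

lemma LL3 (h : Identities B) (x y z : W) : B x y * B z y = B (B x y z) y := by
  ext u; exact h.i3 x y z u

lemma RR3 (h : Identities B) (v y z : W) : R B y v * R B y z = R B y (B z y v) := by
  ext u; exact (h.i3 u y z v).symm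

lemma RR2 (h : Identities B) (y z v : W) : R B v z * R B y z = R B (B y z v) z := by
  ext u; exact (h.i2 u y z v).symm

lemma LR3 (h : Identities B) (x y z : W) : B x y * R B y z = R B y z * B x y := by
  ext u; exact h.i3 x y u z

/-! ### The trace form -/

/-- The trace form. -/
noncomputable def Th (B : W →ₗ[ℂ] W →ₗ[ℂ] W →ₗ[ℂ] W) (x y : W) : ℂ :=
  LinearMap.trace ℂ W (D B x y) + LinearMap.trace ℂ W (D B y x)

lemma Th_symm (x y : W) : Th B x y = Th B y x := by
  unfold Th; ring

lemma Th_add_left (x x' y : W) : Th B (x + x') y = Th B x y + Th B x' y := by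
  simp only [Th, D_add_left, D_add_right, map_add]; ring

lemma Th_smul_left (c : ℂ) (x y : W) : Th B (c • x) y = c * Th B x y := by
  simp only [Th, D_smul_left, D_smul_right, map_smul, smul_eq_mul]; ring

lemma Th_add_right (x y y' : W) : Th B x (y + y') = Th B x y + Th B x y' := by
  rw [Th_symm, Th_add_left, Th_symm y, Th_symm y']

lemma Th_smul_right (c : ℂ) (x y : W) : Th B x (c • y) = c * Th B x y := by
  rw [Th_symm, Th_smul_left, Th_symm]

lemma traceT_L (h : Identities B) (x y u w : W) :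
    LinearMap.trace ℂ W (D B (B x y u) w) = LinearMap.trace ℂ W (D B u (B w x y)) := by
  have key : D B (B x y u) w - D B u (B w x y) = B x y * D B u w - D B u w * B x y := by
    ext z
    have := derL' h x y u w z
    simp only [LinearMap.sub_apply, Module.End.mul_apply]
    rw [this]; module
  have h2 : LinearMap.trace ℂ W (D B (B x y u) w - D B u (B w x y)) = 0 := by
    rw [key, map_sub, LinearMap.trace_mul_comm, sub_self]
  rw [map_sub] at h2
  exact sub_eq_zero.mp h2

lemma traceT_R (h : Identities B) (x y u w : W) :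
    LinearMap.trace ℂ W (D B (B u y x) w) = LinearMap.trace ℂ W (D B u (B y x w)) := by
  have key : D B (B u y x) w - D B u (B y x w) = R B y x * D B u w - D B u w * R B y x := by
    ext z
    have := derR' h x y u w z
    simp only [LinearMap.sub_apply, Module.End.mul_apply, R_apply]
    rw [this]; module
  have h2 : LinearMap.trace ℂ W (D B (B u y x) w - D B u (B y x w)) = 0 := by
    rw [key, map_sub, LinearMap.trace_mul_comm, sub_self]
  rw [map_sub] at h2
  exact sub_eq_zero.mp h2

/-- Cyclic invariance of the trace form. -/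
lemma Th_cyc (h : Identities B) (x y z w : W) : Th B (B x y z) w = Th B x (B y z w) := by
  unfold Th
  rw [traceT_R h z y x w, traceT_L h y z w x]

lemma Th_cyc' (h : Identities B) (x y z w : W) : Th B (B x y z) w = Th B z (B w x y) := by
  unfold Th
  rw [traceT_L h x y z w, ← traceT_R h y x w z]

end

/-! ## Nil -/

section
open Polynomial

variable {W : Type*} [AddCommGroup W] [Module ℂ W]
variable {B : W →ₗ[ℂ] W →ₗ[ℂ] W →ₗ[ℂ] W}

lemma pw_comm (h : Identities B) (u y : W) (k : ℕ) :
    B u y (((B u y) ^ k) u) = B (((B u y) ^ k) u) y u := by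
  induction k with
  | zero => simp
  | succ k ih =>
    have e : ((B u y) ^ (k + 1)) u = B u y (((B u y) ^ k) u) := by
      rw [pow_succ', Module.End.mul_apply]
    rw [e]
    conv_lhs => rw [ih]
    rw [h.i3]

lemma pw_succ (u y : W) (k : ℕ) : ((B u y) ^ (k + 1)) u = B u y (((B u y) ^ k) u) := by
  rw [pow_succ', Module.End.mul_apply]

lemma pow_L (h : Identities B) (u y : W) (k : ℕ) : (B u y) ^ (k + 1) = B (((B u y) ^ k) u) y := by
  induction k with
  | zero => simp
  | succ k ih => rw [pow_succ' _ (k + 1), pw_succ, ih, LL3 h]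

lemma pow_R (h : Identities B) (u y : W) (k : ℕ) : (R B y u) ^ (k + 1) = R B y (((B u y) ^ k) u) := by
  induction k with
  | zero => simp
  | succ k ih => rw [pow_succ' _ (k + 1), pw_succ, ih, RR3 h, pw_comm h]

lemma pow_L' (h : Identities B) (u y : W) (k : ℕ) : (B y u) ^ (k + 1) = B y (((B u y) ^ k) u) := by
  induction k with
  | zero => simp
  | succ k ih => rw [pow_succ' _ (k + 1), pw_succ, ih, LL1 h]

lemma pow_R' (h : Identities B) (u y : W) (k : ℕ) : (R B u y) ^ (k + 1) = R B (((B u y) ^ k) u) y := by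
  induction k with
  | zero => simp
  | succ k ih => rw [pow_succ' _ (k + 1), pw_succ, ih, RR2 h, pw_comm h]

lemma Th_eq (u y : W) : Th B u y = LinearMap.trace ℂ W (B u y) + LinearMap.trace ℂ W (R B y u)
    + LinearMap.trace ℂ W (B y u) + LinearMap.trace ℂ W (R B u y) := by
  simp only [Th, D_eq, map_add]; ring

lemma trace_nil {f : Module.End ℂ W} (hf : IsNilpotent f) : LinearMap.trace ℂ W f = 0 :=
  (LinearMap.isNilpotent_trace_of_isNilpotent hf).eq_zero

lemma Th_nil (h : Identities B) (u y : W) (hn : IsNilpotent (B u y)) : Th B u y = 0 := by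
  obtain ⟨k, hk⟩ := hn
  have hp : ((B u y) ^ k) u = 0 := by rw [hk]; rfl
  have h1 : IsNilpotent (R B y u) := ⟨k + 1, by rw [pow_R h, hp]; ext z; simp⟩
  have h2 : IsNilpotent (B y u) := ⟨k + 1, by rw [pow_L' h, hp]; ext z; simp⟩
  have h3 : IsNilpotent (R B u y) := ⟨k + 1, by rw [pow_R' h, hp]; ext z; simp⟩
  rw [Th_eq, trace_nil ⟨k, hk⟩, trace_nil h1, trace_nil h2, trace_nil h3]; simp

lemma B_aeval (h : Identities B) (u y w : W) (q : ℂ[X]) :
    B (aeval (B u y) q w) y = aeval (B u y) q * B w y := by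
  induction q using Polynomial.induction_on' with
  | add p q hp hq => simp only [map_add, LinearMap.add_apply, hp, hq, add_mul]
  | monomial n c =>
    have key : ∀ n : ℕ, B (((B u y) ^ n) w) y = (B u y) ^ n * B w y := by
      intro n
      induction n with
      | zero => simp
      | succ n ih =>
        rw [pow_succ', Module.End.mul_apply, ← LL3 h, ih, mul_assoc]
    rw [Polynomial.aeval_monomial]
    simp only [Module.End.mul_apply, Module.algebraMap_end_apply, map_smul, LinearMap.smul_apply,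
      key]
    ext z
    simp [Module.End.mul_apply]

lemma aeval_mem (u y : W) (S : Submodule ℂ W) (hinv : ∀ s ∈ S, B u y s ∈ S) (q : ℂ[X])
    (s : W) (hs : s ∈ S) : aeval (B u y) q s ∈ S := by
  induction q using Polynomial.induction_on' with
  | add p q hp hq => simp only [map_add, LinearMap.add_apply]; exact S.add_mem hp hq
  | monomial n c =>
    have key : ∀ n : ℕ, ((B u y) ^ n) s ∈ S := by
      intro n
      induction n with
      | zero => simpa
      | succ n ih => rw [pow_succ', Module.End.mul_apply]; exact hinv _ ih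
    rw [Polynomial.aeval_monomial]
    simp only [Module.End.mul_apply, Module.algebraMap_end_apply]
    exact S.smul_mem _ (key n)

/-- Existence of idempotents. -/
lemma exists_idem [FiniteDimensional ℂ W] (h : Identities B) (u y : W) (hn : ¬ IsNilpotent (B u y))
    (S : Submodule ℂ W) (hu : u ∈ S) (hinv : ∀ s ∈ S, B u y s ∈ S) :
    ∃ ε ∈ S, ε ≠ 0 ∧ B ε y ε = ε := by
  have hm : minpoly ℂ (B u y) ≠ 0 :=
    minpoly.ne_zero (Algebra.IsIntegral.isIntegral (R := ℂ) (B u y))
  obtain ⟨r, hr, hnd⟩ := Polynomial.exists_eq_pow_rootMultiplicity_mul_and_not_dvd _ hm (0 : ℂ)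
  set k := (minpoly ℂ (B u y)).rootMultiplicity 0 with hk
  have hm0 : aeval (B u y) (minpoly ℂ (B u y)) = 0 := minpoly.aeval _ _
  rw [C_0, sub_zero] at hr hnd
  have hcop : IsCoprime (X ^ (k + 1) : ℂ[X]) r :=
    ((Polynomial.irreducible_X.coprime_iff_not_dvd).mpr hnd).pow_left
  obtain ⟨a, b, hab⟩ := hcop
  obtain ⟨q, hq⟩ : ∃ q : ℂ[X], q = a * X ^ k := ⟨_, rfl⟩
  have hmul : B (aeval (B u y) q u) y = aeval (B u y) (q * X) := by
    rw [B_aeval h, map_mul, aeval_X]
  refine ⟨aeval (B u y) q u, aeval_mem u y S hinv q u hu, ?_, ?_⟩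
  · intro h0
    rw [h0] at hmul
    have h1 : aeval (B u y) (q * X) = 0 := by rw [← hmul]; ext z; simp
    apply hn
    refine ⟨k, ?_⟩
    have h2 : (X ^ k : ℂ[X]) = X ^ k * (q * X) + b * (X ^ k * r) := by
      rw [hq]; linear_combination (-(X : ℂ[X]) ^ k) * hab
    have h3 : (B u y) ^ k = aeval (B u y) (X ^ k : ℂ[X]) := by simp
    rw [h3, h2, map_add, map_mul, h1, mul_zero, zero_add, map_mul, ← hr, hm0, mul_zero]
  · rw [hmul, ← Module.End.mul_apply, ← map_mul]
    have h2 : q * X * q = q - b * a * (X ^ k * r) := by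
      rw [hq]; linear_combination (a * X ^ k) * hab
    rw [h2, ← hr, map_sub, map_mul, hm0, mul_zero, sub_zero]

/-! ### The defect -/

/-- `Δ_e(a,b,c) = [a [e b e] c] - a ∘ b ∘ c`, `a ∘ c = [a e c]`. -/
def Dl (B : W →ₗ[ℂ] W →ₗ[ℂ] W →ₗ[ℂ] W) (e a b c : W) : W :=
  B a (B e b e) c - B a e (B b e c)

lemma Dl_swap12 (h : Identities B) (e a b c : W) : Dl B e a b c = - Dl B e b a c := by
  have := lin1 h a b e e c
  simp only [Dl]
  linear_combination (norm := module) -this

lemma Dl_swap23 (h : Identities B) (e a b c : W) : Dl B e a b c = - Dl B e a c b := by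
  have := lin2 h a e e b c
  have i1 := h.i3 a e b c
  have i2 := h.i3 a e c b
  simp only [Dl]
  linear_combination (norm := module) this - i1 - i2

lemma Dl_swap13 (h : Identities B) (e a b c : W) : Dl B e a b c = - Dl B e c b a := by
  rw [Dl_swap12 h, Dl_swap23 h, Dl_swap12 h]; simp

lemma jq (h : Identities B) (e a b c : W) :
    B a (B e b e) c + B c (B e b e) a = B a e (B b e c) + B c e (B b e a) := by
  have := Dl_swap13 h e a b c
  simp only [Dl] at this
  linear_combination (norm := module) this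

/-! ### Semiprimeness -/

/-- The corner of an idempotent `ε` in the algebra `a ∘ c = [a e c]`. -/
def corner (B : W →ₗ[ℂ] W →ₗ[ℂ] W →ₗ[ℂ] W) (e ε : W) : Submodule ℂ W where
  carrier := {v | B ε e v = v ∧ B v e ε = v}
  add_mem' := by
    rintro a b ⟨h1, h2⟩ ⟨h3, h4⟩
    exact ⟨by rw [map_add, h1, h3], by rw [map_add, LinearMap.add_apply, LinearMap.add_apply, h2, h4]⟩
  zero_mem' := ⟨by simp, by simp⟩
  smul_mem' := by
    rintro c a ⟨h1, h2⟩
    exact ⟨by rw [map_smul, h1], by rw [map_smul, LinearMap.smul_apply, LinearMap.smul_apply, h2]⟩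

lemma mem_corner {e ε v : W} : v ∈ corner B e ε ↔ B ε e v = v ∧ B v e ε = v := Iff.rfl

lemma quad_mem_corner (h : Identities B) {e ε : W} (hε : B ε e ε = ε) (y : W) :
    B ε y ε ∈ corner B e ε := by
  constructor
  · rw [h.i1, h.i2, hε]
  · rw [← h.i2, ← h.i1, hε]

lemma semiprime_aux (h : Identities B) {e ε : W} (hε : B ε e ε = ε) {n : W} (hn : n ∈ corner B e ε)
    (hv : ∀ v ∈ corner B e ε, IsNilpotent (B (B n e v) e)) (y : W) : Th B n y = 0 := by
  obtain ⟨hn1, hn2⟩ := hn
  have e1 : Th B n y = Th B n (B y ε e) := by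
    conv_lhs => rw [← hn1]
    rw [Th_cyc' h]
  have e2 : Th B n (B y ε e) = Th B n (B e ε (B y ε e)) := by
    conv_lhs => rw [← hn2]
    rw [Th_cyc h]
  have e3 : B e ε (B y ε e) = B e (B ε y ε) e := by
    have a1 := lin1 h e y ε ε e
    have a2 := h.i3 y ε e e
    have a3 := h.i2 y ε e ε
    rw [hε] at a1 a3
    linear_combination (norm := module) a1 - a2 + a3
  rw [e1, e2, e3]
  obtain ⟨m, hm⟩ := hv _ (quad_mem_corner h hε y)
  set v := B ε y ε with hvdef
  set y' := B e v e with hy'
  have claim : ∀ k : ℕ, ((B n y') ^ k) n = ((B (B n e v) e) ^ k) n := by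
    intro k
    induction k with
    | zero => simp
    | succ k ih =>
      have c1 := pw_comm h n y' k
      rw [pw_succ]
      rw [ih] at c1 ⊢
      set p := ((B (B n e v) e) ^ k) n with hp
      have j := jq h e n v p
      have l1 : B n e (B v e p) = ((B (B n e v) e) ^ (k + 1)) n := by
        rw [pow_succ', Module.End.mul_apply, ← hp, h.i3]
      have l2 : B p e (B v e n) = ((B (B n e v) e) ^ (k + 1)) n := by
        have cm : Commute ((B (B n e v) e) ^ k) (R B e (B v e n)) :=
          (show Commute (B (B n e v) e) (R B e (B v e n)) from LR3 h _ _ _).pow_left k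
        have := congrArg (fun f : Module.End ℂ W => f n) cm.eq
        simp only [Module.End.mul_apply, R_apply] at this
        rw [hp, ← this, h.i3 n e v n, pow_succ, Module.End.mul_apply]
      rw [l1, l2] at j
      have j2 : (2 : ℂ) • B n y' p = (2 : ℂ) • ((B (B n e v) e) ^ (k + 1)) n := by
        rw [two_smul, two_smul]
        conv_lhs => rw [c1]
        rw [← j, c1]
        
      exact smul_right_injective W (two_ne_zero) j2
  apply Th_nil h
  refine ⟨m + 1, ?_⟩
  rw [pow_L h, claim, hm]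
  ext z; simp

lemma semiprime (h : Identities B) (hnd : ∀ u, (∀ v, Th B u v = 0) → u = 0) {e ε : W}
    (hε : B ε e ε = ε) {n : W} (hn : n ∈ corner B e ε)
    (hv : ∀ v ∈ corner B e ε, IsNilpotent (B (B n e v) e)) : n = 0 :=
  hnd n (semiprime_aux h hε hn hv)

end

/-! ## Idem -/

section
variable {W : Type*} [AddCommGroup W] [Module ℂ W]
variable {B : W →ₗ[ℂ] W →ₗ[ℂ] W →ₗ[ℂ] W}

lemma corner_mul (h : Identities B) {e ε u s : W} (hu : u ∈ corner B e ε) (hs : s ∈ corner B e ε) :
    B u e s ∈ corner B e ε := by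
  refine ⟨?_, ?_⟩
  · rw [h.i3, hu.1]
  · rw [← h.i3, hs.2]

lemma self_mem_corner {e ε : W} (hε : B ε e ε = ε) : ε ∈ corner B e ε := ⟨hε, hε⟩

lemma corner_scalar [FiniteDimensional ℂ W] (h : Identities B) (hnd : ∀ u, (∀ v, Th B u v = 0) → u = 0)
    {e ε : W} (hε : B ε e ε = ε) (hε0 : ε ≠ 0)
    (hmin : ∀ η ∈ corner B e ε, B η e η = η → η = 0 ∨ η = ε) :
    ∀ u ∈ corner B e ε, ∃ c : ℂ, u = c • ε := by
  intro u hu
  let f : Module.End ℂ (corner B e ε) := (B u e).restrict (fun s hs => corner_mul h hu hs)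
  have : Nontrivial (corner B e ε) :=
    ⟨⟨ε, self_mem_corner hε⟩, 0, fun hh => hε0 (congrArg Subtype.val hh)⟩
  obtain ⟨c, hc⟩ := Module.End.exists_eigenvalue f
  obtain ⟨a, ha⟩ := hc.exists_hasEigenvector
  have ha1 : B u e (a : W) = c • (a : W) := congrArg Subtype.val ha.apply_eq_smul
  have ha0 : (a : W) ≠ 0 := fun hh => ha.2 (Subtype.ext hh)
  obtain ⟨n, hn⟩ : ∃ n, n = u - c • ε := ⟨_, rfl⟩
  have hnc : n ∈ corner B e ε := by
    rw [hn]; exact Submodule.sub_mem _ hu (Submodule.smul_mem _ _ (self_mem_corner hε))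
  have hna : B n e (a : W) = 0 := by
    rw [hn]; simp only [map_sub, map_smul, LinearMap.sub_apply, LinearMap.smul_apply]
    rw [ha1, a.2.1, sub_self]
  have claim1 : IsNilpotent (B n e) := by
    by_contra hN
    obtain ⟨η, hη, h0, hid⟩ := exists_idem h n e hN (corner B e ε ⊓ LinearMap.ker (R B e (a : W)))
      ⟨hnc, by rw [SetLike.mem_coe, LinearMap.mem_ker, R_apply, hna]⟩
      (by
        rintro s ⟨hs1, hs2⟩
        refine ⟨corner_mul h hnc hs1, ?_⟩
        rw [SetLike.mem_coe, LinearMap.mem_ker, R_apply] at hs2 ⊢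
        rw [← h.i3, hs2, map_zero])
    rcases hmin η hη.1 hid with h1 | h1
    · exact h0 h1
    · have h2 := hη.2
      rw [SetLike.mem_coe, LinearMap.mem_ker, R_apply, h1, a.2.1] at h2
      exact ha0 h2
  have claim2 : ∀ v ∈ corner B e ε, IsNilpotent (B (B n e v) e) := by
    intro v hv
    by_contra hN
    obtain ⟨η, hη, h0, hid⟩ := exists_idem h (B n e v) e hN ((corner B e ε).map (B n e))
      ⟨v, hv, rfl⟩
      (by
        rintro s ⟨t, ht, rfl⟩
        refine ⟨B v e (B n e t), corner_mul h hv (corner_mul h hnc ht), ?_⟩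
        rw [h.i3])
    obtain ⟨t, ht, hte⟩ := hη
    have hη' : η ∈ corner B e ε := by rw [← hte]; exact corner_mul h hnc ht
    rcases hmin η hη' hid with h1 | h1
    · exact h0 h1
    · rw [h1] at hte
      have key : ∀ j : ℕ, ∃ s ∈ corner B e ε, ε = ((B n e) ^ j) s := by
        intro j
        induction j with
        | zero => exact ⟨ε, self_mem_corner hε, by simp⟩
        | succ j ih =>
          obtain ⟨s, hs, hs2⟩ := ih
          refine ⟨B t e s, corner_mul h ht hs, ?_⟩
          rw [pow_succ, Module.End.mul_apply, h.i3, hte, hs.1]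
          exact hs2
      obtain ⟨m, hm⟩ := claim1
      obtain ⟨s, _, hs2⟩ := key m
      rw [hm] at hs2
      exact hε0 hs2
  have hn0 : n = 0 := semiprime h hnd hε hnc claim2
  exact ⟨c, by rw [hn0] at hn; exact (sub_eq_zero.mp hn.symm)⟩

lemma corner_span [FiniteDimensional ℂ W] (h : Identities B) (hnd : ∀ u, (∀ v, Th B u v = 0) → u = 0)
    (e : W) : ∀ (k : ℕ) (ε : W), B ε e ε = ε → Module.finrank ℂ (corner B e ε) ≤ k →
      corner B e ε ≤ Submodule.span ℂ {η | B η e η = η} := by
  intro k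
  induction k with
  | zero =>
    intro ε hε hk v hv
    have : corner B e ε = ⊥ := Submodule.finrank_eq_zero.mp (Nat.le_zero.mp hk)
    rw [this] at hv
    rw [(Submodule.mem_bot ℂ).mp hv]
    exact Submodule.zero_mem _
  | succ k ih =>
    intro ε hε hk
    by_cases hε0 : ε = 0
    · intro v hv
      have h1 := hv.1
      rw [hε0] at h1
      simp only [map_zero, LinearMap.zero_apply] at h1
      rw [← h1]; exact Submodule.zero_mem _
    by_cases hmin : ∀ η ∈ corner B e ε, B η e η = η → η = 0 ∨ η = ε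
    · intro v hv
      obtain ⟨c, hc⟩ := corner_scalar h hnd hε hε0 hmin v hv
      rw [hc]
      exact Submodule.smul_mem _ _ (Submodule.subset_span hε)
    · push Not at hmin
      obtain ⟨η, hη, hid, hη0, hηε⟩ := hmin
      have εη : B ε e η = η := hη.1
      have ηε : B η e ε = η := hη.2
      obtain ⟨ζ, hζ⟩ : ∃ ζ, ζ = ε - η := ⟨_, rfl⟩
      have hζid : B ζ e ζ = ζ := by
        rw [hζ]; simp only [map_sub, LinearMap.sub_apply, hε, εη, ηε, hid]; module
      have hζη : B ζ e η = 0 := by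
        rw [hζ]; simp only [map_sub, LinearMap.sub_apply, εη, hid]; module
      have hηζ : B η e ζ = 0 := by
        rw [hζ]; simp only [map_sub, ηε, hid]; module
      have hζε : B ζ e ε = ζ := by
        rw [hζ]; simp only [map_sub, LinearMap.sub_apply, hε, ηε]
      have hεζ : B ε e ζ = ζ := by
        rw [hζ]; simp only [map_sub, hε, εη]
      have le1 : corner B e η ≤ corner B e ε := by
        intro v hv
        refine ⟨?_, ?_⟩
        · rw [← hv.1, h.i3, εη]
        · rw [← hv.2, ← h.i3, ηε]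
      have le2 : corner B e ζ ≤ corner B e ε := by
        intro v hv
        refine ⟨?_, ?_⟩
        · rw [← hv.1, h.i3, hεζ]
        · rw [← hv.2, ← h.i3, hζε]
      have lt1 : corner B e η < corner B e ε := by
        refine lt_of_le_of_ne le1 (fun hh => hηε ?_)
        have : ε ∈ corner B e η := by rw [hh]; exact self_mem_corner hε
        rw [← this.1, ηε]
      have lt2 : corner B e ζ < corner B e ε := by
        refine lt_of_le_of_ne le2 (fun hh => hη0 ?_)
        have : ε ∈ corner B e ζ := by rw [hh]; exact self_mem_corner hε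
        have h3 := this.1
        rw [hζε, hζ] at h3
        exact sub_eq_self.mp h3
      have f1 := Submodule.finrank_lt_finrank_of_lt lt1
      have f2 := Submodule.finrank_lt_finrank_of_lt lt2
      have s1 := ih η hid (by omega)
      have s2 := ih ζ hζid (by omega)
      intro a ha
      have hmem : ∀ x ∈ {η | B η e η = η}, x ∈ Submodule.span ℂ {η | B η e η = η} :=
        fun x hx => Submodule.subset_span hx
      have z1 : B η e (B a e η) ∈ corner B e η :=
        ⟨by rw [h.i3, hid], by rw [← h.i3, ← h.i3, hid]⟩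
      have z4 : B ζ e (B a e ζ) ∈ corner B e ζ :=
        ⟨by rw [h.i3, hζid], by rw [← h.i3, ← h.i3, hζid]⟩
      have z2 : B η e (B a e ζ) ∈ Submodule.span ℂ {η | B η e η = η} := by
        have hh : B (η + B η e (B a e ζ)) e (η + B η e (B a e ζ)) = η + B η e (B a e ζ) := by
          simp only [map_add, LinearMap.add_apply]
          have t1 : B η e (B η e (B a e ζ)) = B η e (B a e ζ) := by rw [h.i3, hid]
          have t2 : B (B η e (B a e ζ)) e η = 0 := by rw [← h.i3, ← h.i3, hζη, map_zero, map_zero]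
          have t3 : B (B η e (B a e ζ)) e (B η e (B a e ζ)) = 0 := by
            rw [h.i3, t2]; simp
          rw [t1, t2, t3, hid]; module
        have := Submodule.sub_mem _ (hmem _ hh) (hmem η hid)
        simpa using this
      have z3 : B ζ e (B a e η) ∈ Submodule.span ℂ {η | B η e η = η} := by
        have hh : B (ζ + B ζ e (B a e η)) e (ζ + B ζ e (B a e η)) = ζ + B ζ e (B a e η) := by
          simp only [map_add, LinearMap.add_apply]
          have t1 : B ζ e (B ζ e (B a e η)) = B ζ e (B a e η) := by rw [h.i3, hζid]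
          have t2 : B (B ζ e (B a e η)) e ζ = 0 := by rw [← h.i3, ← h.i3, hηζ, map_zero, map_zero]
          have t3 : B (B ζ e (B a e η)) e (B ζ e (B a e η)) = 0 := by
            rw [h.i3, t2]; simp
          rw [t1, t2, t3, hζid]; module
        have := Submodule.sub_mem _ (hmem _ hh) (hmem ζ hζid)
        simpa using this
      have dec : a = B η e (B a e η) + B η e (B a e ζ) + B ζ e (B a e η) + B ζ e (B a e ζ) := by
        rw [hζ]
        simp only [map_sub, LinearMap.sub_apply]
        rw [ha.2]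
        rw [ha.1, h.i3 ε e a η, ha.1]
        module
      rw [dec]
      exact Submodule.add_mem _ (Submodule.add_mem _ (Submodule.add_mem _ (s1 z1) z2) z3) (s2 z4)

end

/-! ## EL -/

section
section EL
variable {A : Type*} [NonUnitalRing A] (D : A →+ A →+ A)

lemma el_aux1 (skew : ∀ a b, D a b = - D b a)
    (cocyc : ∀ a u c, a * D u c - D (a * u) c + D a (u * c) - D a u * c = 0)
    (two : ∀ x : A, x + x = 0 → x = 0) (ε : A) (hε : ε * ε = ε) (hD : ∀ c, D ε c = 0)
    (assoc : ∀ a u c, (a * ε * u + D a u) * ε * c + D (a * ε * u + D a u) c =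
      a * ε * (u * ε * c + D u c) + D a (u * ε * c + D u c)) :
    ∀ a u c, D (D a u) c = 0 := by
  have hD' : ∀ c, D c ε = 0 := fun c => by rw [skew, hD, neg_zero]
  have p1 : ∀ u c, D (ε * u) c = ε * D u c := by
    intro u c
    have := cocyc ε u c
    rw [hD, hD, zero_mul, sub_zero, add_zero] at this
    exact (sub_eq_zero.mp this).symm
  have p2 : ∀ a u, D a (u * ε) = D a u * ε := by
    intro a u
    have := cocyc a u ε
    rw [hD', hD', mul_zero, sub_zero, zero_add] at this
    exact sub_eq_zero.mp this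
  have p3 : ∀ a c, D (a * ε) c = D a (ε * c) := by
    intro a c
    have := cocyc a ε c
    rw [hD, hD', mul_zero, zero_mul, sub_zero, zero_sub, neg_add_eq_zero] at this
    exact this
  have p2' : ∀ a c, D (a * ε) c = D a c * ε := by
    intro a c
    rw [skew, p2, skew c a, neg_mul, neg_neg]
  have p1' : ∀ a c, D a (ε * c) = ε * D a c := by
    intro a c
    rw [skew, p1, skew c a, mul_neg, neg_neg]
  have p4 : ∀ a c, ε * D a c = D a c * ε := by
    intro a c
    rw [← p1', ← p3, p2']
  have p6 : ∀ a u c, ε * a * D u c = ε * a * ε * D u c := by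
    intro a u c
    obtain ⟨p, hp⟩ : ∃ p, p = ε * a - ε * a * ε := ⟨_, rfl⟩
    have q1 : ∀ c, D p c = 0 := by
      intro c
      rw [hp, map_sub, AddMonoidHom.sub_apply, p2', p1, mul_assoc, ← p4, ← mul_assoc, hε, sub_self]
    have q2 : p * D u c = D (p * u) c := by
      have := cocyc p u c
      rw [q1, q1, zero_mul, sub_zero, add_zero] at this
      exact sub_eq_zero.mp this
    have q3 : ε * p = p := by
      rw [hp, mul_sub, ← mul_assoc, ← mul_assoc, ← mul_assoc, hε]
    have q4 : p * ε = 0 := by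
      rw [hp, sub_mul, mul_assoc (ε * a) ε ε, hε, sub_self]
    have q5 : p * D u c = 0 := by
      calc p * D u c = ε * (p * D u c) := by rw [← mul_assoc, q3]
        _ = ε * D (p * u) c := by rw [q2]
        _ = D (p * u) c * ε := p4 _ _
        _ = p * D u c * ε := by rw [q2]
        _ = p * ε * D u c := by rw [mul_assoc, ← p4, mul_assoc]
        _ = 0 := by rw [q4, zero_mul]
    rw [hp, sub_mul] at q5
    exact sub_eq_zero.mp q5
  have p7 : ∀ a u c, a * ε * D u c = ε * a * ε * D u c := by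
    intro a u c
    obtain ⟨p, hp⟩ : ∃ p, p = a * ε - ε * a * ε := ⟨_, rfl⟩
    have q1 : ∀ c, D p c = 0 := by
      intro c
      rw [hp, map_sub, AddMonoidHom.sub_apply, p2', p2', p1, mul_assoc, ← p4, ← mul_assoc, hε,
        sub_self]
    have q2 : p * D u c = D (p * u) c := by
      have := cocyc p u c
      rw [q1, q1, zero_mul, sub_zero, add_zero] at this
      exact sub_eq_zero.mp this
    have q3 : ε * p = 0 := by
      rw [hp, mul_sub, ← mul_assoc, ← mul_assoc, ← mul_assoc, hε, sub_self]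
    have q4 : p * ε = p := by
      rw [hp, sub_mul, mul_assoc a ε ε, mul_assoc (ε * a) ε ε, hε]
    have q5 : p * D u c = 0 := by
      calc p * D u c = p * ε * D u c := by rw [q4]
        _ = p * D u c * ε := by rw [mul_assoc, p4, mul_assoc]
        _ = D (p * u) c * ε := by rw [q2]
        _ = ε * D (p * u) c := (p4 _ _).symm
        _ = ε * (p * D u c) := by rw [q2]
        _ = 0 := by rw [← mul_assoc, q3, zero_mul]
    rw [hp, sub_mul] at q5
    exact sub_eq_zero.mp q5
  have p9 : ∀ a u c, D a (u * ε * c) = ε * D a (u * c) := by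
    intro a u c
    have h1 := cocyc a (u * ε) c
    rw [p2', ← mul_assoc a u ε, p2', p2] at h1
    have h2 := congrArg (fun t => ε * t) (cocyc a u c)
    simp only [mul_zero, mul_sub, mul_add] at h2
    have h3 : a * (D u c * ε) = ε * (a * D u c) := by
      rw [← p4, ← mul_assoc, ← mul_assoc, p7, p6]
    rw [h3, ← p4 (a * u) c, ← p4 a u] at h1
    have h4 : ε * D a u * c = ε * (D a u * c) := mul_assoc _ _ _
    rw [h4] at h1
    have := h1.trans h2.symm
    have h5 := sub_eq_zero.mpr this
    have h6 : D a (u * ε * c) - ε * D a (u * c) = 0 := by rw [← h5]; abel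
    exact sub_eq_zero.mp h6
  have asc : ∀ a u c, D (D a u) c = D a (D u c) := by
    intro a u c
    have h1 := assoc a u c
    simp only [map_add, AddMonoidHom.add_apply, mul_add, add_mul] at h1
    have h2 := cocyc (a * ε) u c
    rw [p2', p2', ← p4 a (u * c)] at h2
    rw [p9] at h1
    have h3 : a * ε * u * ε * c = a * ε * (u * ε * c) := by simp only [mul_assoc]
    rw [h3] at h1
    have h4 := sub_eq_zero.mpr h1
    have h5 : D (D a u) c - D a (D u c) = 0 := by
      have h6 := congrArg₂ (· + ·) h4 h2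
      simp only [add_zero] at h6
      rw [← h6]; abel
    exact sub_eq_zero.mp h5
  intro a u c
  apply two
  have h1 : D (D a u) c = - D (D a u) c := by
    calc D (D a u) c = D a (D u c) := asc _ _ _
      _ = - D (D u c) a := skew _ _
      _ = - D u (D c a) := by rw [asc]
      _ = D (D c a) u := by rw [skew u, neg_neg]
      _ = D c (D a u) := asc _ _ _
      _ = - D (D a u) c := skew _ _
  nth_rewrite 1 [h1]
  exact neg_add_cancel _

lemma el_aux2 (skew : ∀ a b, D a b = - D b a)
    (cocyc : ∀ a u c, a * D u c - D (a * u) c + D a (u * c) - D a u * c = 0)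
    (two : ∀ x : A, x + x = 0 → x = 0) (hDD : ∀ a u c, D (D a u) c = 0) :
    ∀ a b u, D a b * u * D a b = 0 := by
  have hDD' : ∀ a u c, D c (D a u) = 0 := fun a u c => by rw [skew, hDD, neg_zero]
  have self : ∀ a, D a a = 0 := by
    intro a
    apply two
    nth_rewrite 1 [skew]
    exact neg_add_cancel _
  have e1 : ∀ a b u c, D (D a b * u) c = D a b * D u c := by
    intro a b u c
    have := cocyc (D a b) u c
    rw [hDD, hDD, zero_mul, sub_zero, add_zero] at this
    exact (sub_eq_zero.mp this).symm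
  have e2 : ∀ x y a u, D a (u * D x y) = D a u * D x y := by
    intro x y a u
    have := cocyc a u (D x y)
    rw [hDD', hDD', mul_zero, sub_zero, zero_add] at this
    exact sub_eq_zero.mp this
  have e2' : ∀ x y u c, D (u * D x y) c = D u c * D x y := by
    intro x y u c
    rw [skew, e2, skew c u, neg_mul, neg_neg]
  have e3 : ∀ x y a c, D (a * D x y) c = D a (D x y * c) := by
    intro x y a c
    have := cocyc a (D x y) c
    rw [hDD, hDD', mul_zero, zero_mul, sub_zero, zero_sub, neg_add_eq_zero] at this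
    exact this
  have e4 : ∀ x y u c, D u c * D x y = D x y * D u c := by
    intro x y u c
    rw [← e2', e3, skew, e1, skew c u, mul_neg, neg_neg]
  -- `D a b * D c d = D a d * D b c`
  have st : ∀ a b c d, D a b * D c d = D a d * D b c := by
    intro a b c d
    have h1 : D a b * c = a * D b c - D (a * b) c + D a (b * c) := by
      have := cocyc a b c
      exact (sub_eq_zero.mp this).symm
    rw [← e1, h1, map_add, map_sub, AddMonoidHom.add_apply, AddMonoidHom.sub_apply, hDD, hDD,
      sub_zero, add_zero, e2']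
  have f1 : ∀ a b d, D a b * D a d = 0 := by
    intro a b d
    apply two
    have h1 : D a b * D a d = - (D a b * D a d) := by
      calc D a b * D a d = D a d * D b a := st _ _ _ _
        _ = D b a * D a d := e4 _ _ _ _
        _ = - (D a b * D a d) := by rw [skew b a, neg_mul]
    nth_rewrite 1 [h1]
    exact neg_add_cancel _
  have f2 : ∀ a s b d, D a b * D s d = - (D s b * D a d) := by
    intro a s b d
    have h1 := f1 (a + s) b d
    simp only [map_add, AddMonoidHom.add_apply, mul_add, add_mul, f1, zero_add, add_zero] at h1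
    exact eq_neg_of_add_eq_zero_right h1
  intro a b u
  have h1 : D a b * u = a * D b u - D (a * b) u + D a (b * u) := by
    have := cocyc a b u
    exact (sub_eq_zero.mp this).symm
  have g1 : D b u * D a b = 0 := by
    rw [skew a b, mul_neg, f1, neg_zero]
  have g2 : D a (b * u) * D a b = 0 := f1 _ _ _
  have g3 : D (a * b) u * D a b = 0 := by
    have k1 : D (a * b) b = D a (b * b) - D a b * b := by
      have := cocyc a b b
      rw [self, mul_zero, zero_sub] at this
      have h2 : D (a * b) b - (D a (b * b) - D a b * b) = 0 := by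
        rw [← neg_zero, ← this]; abel
      exact sub_eq_zero.mp h2
    rw [f2, k1, mul_sub, f1, ← mul_assoc, f1, zero_mul, sub_zero, neg_zero]
  rw [h1, add_mul, sub_mul, mul_assoc, g1, g2, g3, mul_zero, sub_zero, add_zero]

end EL

end

/-! ## Good -/

section
variable {W : Type*} [AddCommGroup W] [Module ℂ W]
variable {B : W →ₗ[ℂ] W →ₗ[ℂ] W →ₗ[ℂ] W}

/-- A complete idempotent pair with trivial defects. -/
structure Good (B : W →ₗ[ℂ] W →ₗ[ℂ] W →ₗ[ℂ] W) (x e : W) : Prop where
  ax : Identities B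
  nd : ∀ u, (∀ v, Th B u v = 0) → u = 0
  hx : B x e x = x
  he : B e x e = e
  v0p : ∀ v, v = B x e v + B v e x - B x e (B v e x)
  v0m : ∀ v, v = B e x v + B v x e - B e x (B v x e)
  dp : ∀ a b c, B a (B e b e) c = B a e (B b e c)
  dm : ∀ a b c, B a (B x b x) c = B a x (B b x c)

lemma D_op (u v : W) : D (op B) u v = D B u v := by
  ext z; rw [D_apply, D_apply, op_apply, op_apply, add_comm]

lemma Th_op (u v : W) : Th (op B) u v = Th B u v := by
  unfold Th; rw [D_op, D_op]

namespace Good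

variable {x e : W}

lemma swap (g : Good B x e) : Good B e x :=
  ⟨g.ax, g.nd, g.he, g.hx, g.v0m, g.v0p, g.dm, g.dp⟩

lemma op (g : Good B x e) : Good (op B) x e where
  ax := g.ax.op
  nd u hu := g.nd u (fun v => by rw [← Th_op]; exact hu v)
  hx := g.hx
  he := g.he
  v0p v := by
    simp only [op_apply]
    nth_rewrite 1 [g.v0p v]
    rw [g.ax.i3]; abel
  v0m v := by
    simp only [op_apply]
    nth_rewrite 1 [g.v0m v]
    rw [g.ax.i3]; abel
  dp a b c := by
    simp only [op_apply]
    rw [g.dp, g.ax.i3]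
  dm a b c := by
    simp only [op_apply]
    rw [g.dm, g.ax.i3]

lemma m1 (g : Good B x e) (a c : W) : B a e c = B a e (B x e c) := by
  rw [← g.dp, g.he]

lemma PV (g : Good B x e) {p : W} (hp : B p e x = 0) (v : W) : B p e v = 0 := by
  rw [g.m1, g.ax.i3, hp]; simp

lemma VN (g : Good B x e) {n : W} (hn : B x e n = 0) (v : W) : B v e n = 0 := by
  rw [g.m1, hn]; simp

/-- `[V P' x] = 0` -/
lemma l1 (g : Good B x e) {w : W} (hw : B w x e = 0) (u : W) : B u w x = 0 := by
  apply g.nd
  intro b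
  rw [Th_cyc g.ax, g.swap.PV hw]
  rw [← zero_smul ℂ u, Th_smul_right]; simp

lemma l1b (g : Good B x e) {w : W} (hw : B e x w = 0) (u : W) : B x w u = 0 := by
  have := g.op.l1 (w := w) (by simpa using hw) u
  simpa using this

/-- for `a ∈ A`, `w ∈ P'`: `[w a e] = 0`. -/
lemma l2a (g : Good B x e) {w a : W} (hw : B w x e = 0) (ha : B x e a = a) (ha' : B a e x = a) :
    B w a e = 0 := by
  have h1 : B x (B e a e) x = a := by rw [g.dp, ha', ha]
  rw [← h1, g.dm, g.swap.PV hw]

lemma l2 (g : Good B x e) {w a : W} (hw : B w x e = 0) (ha : B x e a = a) (ha' : B a e x = a)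
    (u : W) : B u w a = 0 := by
  have h1 := g.l2a hw ha ha'
  have e1 := lin2 g.ax u w e a x
  rw [h1, hw, g.l1 hw] at e1
  simp only [map_zero, LinearMap.zero_apply, add_zero] at e1
  have e2 := lin3 g.ax u a x w e
  rw [ha', g.l1 hw, g.l1 hw, ← e1] at e2
  simpa using e2

lemma l3 (g : Good B x e) {w p : W} (hw : B w x e = 0) (hp : B x e p = p) : B x w p = 0 := by
  have := g.ax.i1 x w e p
  rw [hp, hw] at this
  simpa using this

lemma l3' (g : Good B x e) {w p a : W} (hw : B w x e = 0) (ha : B x e a = a) (ha' : B a e x = a)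
    (hp : B x e p = p) : B a w p = 0 := by
  have e1 := lin1 g.ax a x w e p
  rw [hp, hw, g.l2a hw ha ha', g.l3 (p := B a e p) hw (by rw [g.ax.i3, ha])] at e1
  simpa using e1

lemma l4 (g : Good B x e) {w p q : W} (hw : B w x e = 0)
    (hp' : B p e x = 0) (hq : B x e q = q) : B p w q = 0 := by
  have e1 := lin1 g.ax p x w e q
  rw [hq, hw, g.PV hp', g.swap.l1 hp'] at e1
  simpa using e1

/-- `[P P' N] = 0` -/
lemma l5 (g : Good B x e) {w p n : W} (hw' : B e x w = w) (hw : B w x e = 0)
    (hp' : B p e x = 0) (hn : B x e n = 0) (hn' : B n e x = n) : B p w n = 0 := by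
  have e1 := lin1 g.ax p n w e x
  rw [hn', hp', g.swap.l1 hp'] at e1
  simp only [map_zero, LinearMap.zero_apply, add_zero] at e1
  rw [e1]
  have e2 := lin3 g.ax e w e x n
  rw [hw', hw, g.swap.l1b hn w] at e2
  simp only [map_zero, LinearMap.zero_apply, add_zero] at e2
  rw [← e2, g.ax.i2, hp']
  simp

/-- `[P N' N] = 0` -/
lemma l5b (g : Good B x e) {w p n : W} (hw' : B w x e = w) (hw : B e x w = 0)
    (hp : B x e p = p) (hp' : B p e x = 0) (hn : B x e n = 0) : B p w n = 0 := by
  have := g.op.l5 (w := w) (p := n) (n := p) (by simpa using hw') (by simpa using hw)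
    (by simpa using hn) (by simpa using hp') (by simpa using hp)
  simpa using this

/-- `w = [e [x w x] e]` for `w ∈ A'`. -/
lemma cA (g : Good B x e) {w : W} (hw : B e x w = w) (hw' : B w x e = w) (u v : W) :
    B u w v = B u e (B (B x w x) e v) := by
  have h1 : B e (B x w x) e = w := by
    rw [g.dm]; rw [hw', hw]
  rw [← g.dp, h1]

lemma l7 (g : Good B x e) (w : W) {p n : W} (hp : B x e p = p) (hp' : B p e x = 0) (hn : B x e n = 0) (hn' : B n e x = n) :
    B n w p = 0 := by
  apply g.nd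
  intro v
  have key : ∀ v, B p v n = 0 := by
    intro v
    have d : v = B e x (B v x e) + (B e x v - B e x (B v x e)) + (B v x e - B e x (B v x e)) := by
      nth_rewrite 1 [g.v0m v]; abel
    have z1 : B p (B e x (B v x e)) n = 0 := by
      rw [g.cA (w := B e x (B v x e)), g.PV hp']
      · rw [g.ax.i3, g.he]
      · rw [← g.ax.i3, ← g.ax.i3, g.he]
    have z2 : B p (B e x v - B e x (B v x e)) n = 0 := by
      apply g.l5 _ _ hp' hn hn'
      · rw [map_sub, g.ax.i3, g.ax.i3, g.he]
      · rw [map_sub, LinearMap.sub_apply, LinearMap.sub_apply, ← g.ax.i3, ← g.ax.i3, ← g.ax.i3,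
          g.he, sub_self]
    have z3 : B p (B v x e - B e x (B v x e)) n = 0 := by
      apply g.l5b _ _ hp hp' hn
      · rw [map_sub, LinearMap.sub_apply, LinearMap.sub_apply, ← g.ax.i3, ← g.ax.i3, ← g.ax.i3,
          g.he]
      · rw [map_sub, g.ax.i3 e x e (B v x e), g.he, sub_self]
    rw [d, map_add, map_add, LinearMap.add_apply, LinearMap.add_apply, z1, z2, z3]; simp
  rw [Th_cyc g.ax, Th_symm, Th_cyc g.ax, key]
  rw [← zero_smul ℂ w, Th_smul_right]; simp

/-- `[u w v] = u ∘ [x w v]` for `w ∈ P'`. -/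
lemma cP (g : Good B x e) {w : W} (hw' : B e x w = w) (hw : B w x e = 0) (u v : W) :
    B u w v = B u e (B x w v) := by
  have dec : ∀ v, v = B x e (B v e x) + (B x e v - B x e (B v e x)) +
      (B v e x - B x e (B v e x)) := by
    intro v
    nth_rewrite 1 [g.v0p v]; abel
  -- components
  have a1 : ∀ v, B x e (B x e (B v e x)) = B x e (B v e x) := fun v => by rw [g.ax.i3, g.hx]
  have a2 : ∀ v, B (B x e (B v e x)) e x = B x e (B v e x) := fun v => by
    rw [← g.ax.i3, ← g.ax.i3, g.hx]
  have p1 : ∀ v, B x e (B x e v - B x e (B v e x)) = B x e v - B x e (B v e x) := fun v => by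
    rw [map_sub, g.ax.i3, g.ax.i3, g.hx]
  have p2 : ∀ v, B (B x e v - B x e (B v e x)) e x = 0 := fun v => by
    rw [map_sub, LinearMap.sub_apply, LinearMap.sub_apply, ← g.ax.i3, ← g.ax.i3, ← g.ax.i3,
          g.hx, sub_self]
  have n1 : ∀ v, B x e (B v e x - B x e (B v e x)) = 0 := fun v => by
    rw [map_sub, g.ax.i3 x e x (B v e x), g.hx, sub_self]
  have n2 : ∀ v, B (B v e x - B x e (B v e x)) e x = B v e x - B x e (B v e x) := fun v => by
    rw [map_sub, LinearMap.sub_apply, LinearMap.sub_apply, ← g.ax.i3, ← g.ax.i3, ← g.ax.i3,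
          g.hx]
  have zA : ∀ u, B u w (B x e (B v e x)) = 0 := fun u => g.l2 hw (a1 v) (a2 v) u
  have zP : ∀ u, B u w (B x e v - B x e (B v e x)) = 0 := by
    intro u
    rw [dec u, map_add, map_add, LinearMap.add_apply, LinearMap.add_apply, LinearMap.add_apply,
      LinearMap.add_apply, g.l3' hw (a1 u) (a2 u) (p1 v), g.l4 hw (p2 u) (p1 v),
      g.l7 w (p1 v) (p2 v) (n1 u) (n2 u)]
    simp
  have zN : B u w (B v e x - B x e (B v e x)) = B u e (B x w (B v e x - B x e (B v e x))) := by
    have s1 : ∀ u, B u e (B x w (B v e x - B x e (B v e x))) =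
        B (B u e x) w (B v e x - B x e (B v e x)) := by
      intro u
      have e1 := lin3 g.ax u x (B v e x - B x e (B v e x)) e w
      rw [n1, g.l1 hw] at e1
      simpa using e1
    rw [s1]
    have s2 : B (u - B u e x) w (B v e x - B x e (B v e x)) = 0 := by
      have : u - B u e x = B x e u - B x e (B u e x) := by
        nth_rewrite 1 [g.v0p u]; abel
      rw [this]
      exact g.l5 hw' hw (p2 u) (n1 v) (n2 v)
    rw [map_sub B, LinearMap.sub_apply, LinearMap.sub_apply] at s2
    exact sub_eq_zero.mp s2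
  have tot : ∀ u, B u w v = B u w (B v e x - B x e (B v e x)) := by
    intro u
    nth_rewrite 1 [dec v]
    rw [map_add, map_add, zA, zP, zero_add, zero_add]
  rw [tot u, tot x, zN]

/-- `[u w v] = [u w x] ∘ v` for `w ∈ N'`. -/
lemma cN (g : Good B x e) {w : W} (hw' : B w x e = w) (hw : B e x w = 0) (u v : W) :
    B u w v = B (B u w x) e v := by
  have := g.op.cP (w := w) (by simpa using hw') (by simpa using hw) v u
  simpa using this

lemma PP (g : Good B x e) {a b : W} (ha : B e x a = a) (ha' : B a x e = 0)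
    (hb : B e x b = b) (hb' : B b x e = 0) (u v z : W) :
    B u a (B v b z) = B (B u a v) b z := by
  have h1 : B x e (B x b z) = B x b z := (g.cP hb hb' x z).symm
  have h2 : B (B x b z) e x = B x b z := by
    have e1 := lin3 g.ax x z x b e
    rw [g.l1 hb', g.l1 hb', map_zero, add_zero, add_zero] at e1
    rw [← e1]
    have e2 : B x b (z - B z e x) = 0 := by
      apply g.l3 hb'
      rw [map_sub]
      linear_combination (norm := module) -(g.v0p z)
    rw [map_sub] at e2
    exact (sub_eq_zero.mp e2).symm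
  have h3 : B x a (B v e (B x b z)) = B (B x a v) e (B x b z) := by
    have e1 := lin3 g.ax x v (B x b z) a e
    rw [g.l2 ha' h1 h2, g.l2 ha' h1 h2, map_zero, add_zero, add_zero] at e1
    exact e1
  rw [g.cP hb hb' v z, g.cP ha ha' u, h3, g.cP hb hb' (B u a v) z, g.cP ha ha' u v, g.ax.i3]

lemma NN (g : Good B x e) {a b : W} (ha : B e x a = 0) (ha' : B a x e = a)
    (hb : B e x b = 0) (hb' : B b x e = b) (u v z : W) :
    B u a (B v b z) = B (B u a v) b z := by
  have := g.op.PP (a := b) (b := a) (by simpa using hb') (by simpa using hb) (by simpa using ha')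
    (by simpa using ha) z v u
  simp only [op_apply] at this
  exact this.symm

/-- The product is totally associative: outer form. -/
lemma h_zero (g : Good B x e) (u w v w' z : W) :
    B u w (B v w' z) = B (B u w v) w' z := by
  -- the statement is symmetric in `w, w'`
  let H : W → W → Prop := fun w w' => ∀ u v z, B u w (B v w' z) = B (B u w v) w' z
  have Hadd1 : ∀ a b c, H a c → H b c → H (a + b) c := by
    intro a b c h1 h2 u v z
    simp only [map_add, LinearMap.add_apply, h1 u v z, h2 u v z]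
  have Hadd2 : ∀ a b c, H c a → H c b → H c (a + b) := by
    intro a b c h1 h2 u v z
    simp only [map_add, LinearMap.add_apply, h1 u v z, h2 u v z]
  have Hsymm : ∀ a b, H a b → H b a := by
    intro a b h1 u v z
    have e1 := lin3 g.ax u v z a b
    rw [h1 u v z] at e1
    exact add_left_cancel e1
  have dec : ∀ v, v = B e x (B v x e) + (B e x v - B e x (B v x e)) +
      (B v x e - B e x (B v x e)) := by
    intro v
    nth_rewrite 1 [g.v0m v]; abel
  have a1 : ∀ v, B e x (B e x (B v x e)) = B e x (B v x e) := fun v => by rw [g.ax.i3, g.he]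
  have a2 : ∀ v, B (B e x (B v x e)) x e = B e x (B v x e) := fun v => by
    rw [← g.ax.i3, ← g.ax.i3, g.he]
  have p1 : ∀ v, B e x (B e x v - B e x (B v x e)) = B e x v - B e x (B v x e) := fun v => by
    rw [map_sub, g.ax.i3, g.ax.i3, g.he]
  have p2 : ∀ v, B (B e x v - B e x (B v x e)) x e = 0 := fun v => by
    rw [map_sub, LinearMap.sub_apply, LinearMap.sub_apply, ← g.ax.i3, ← g.ax.i3, ← g.ax.i3,
          g.he, sub_self]
  have n1 : ∀ v, B e x (B v x e - B e x (B v x e)) = 0 := fun v => by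
    rw [map_sub, g.ax.i3 e x e (B v x e), g.he, sub_self]
  have n2 : ∀ v, B (B v x e - B e x (B v x e)) x e = B v x e - B e x (B v x e) := fun v => by
    rw [map_sub, LinearMap.sub_apply, LinearMap.sub_apply, ← g.ax.i3, ← g.ax.i3, ← g.ax.i3,
          g.he]
  have fA : ∀ a, B e x a = a → B a x e = a → ∃ β, ∀ u v, B u a v = B u e (B β e v) :=
    fun a ha ha' => ⟨_, g.cA ha ha'⟩
  have fP : ∀ a, B e x a = a → B a x e = 0 → ∃ φ : W → W, ∀ u v, B u a v = B u e (φ v) :=
    fun a ha ha' => ⟨_, g.cP ha ha'⟩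
  have fN : ∀ a, B e x a = 0 → B a x e = a → ∃ φ : W → W, ∀ u v, B u a v = B (φ u) e v :=
    fun a ha ha' => ⟨fun u => B u a x, g.cN ha' ha⟩
  have AA : ∀ a b, B e x a = a → B a x e = a → B e x b = b → B b x e = b → H a b := by
    intro a b ha ha' hb hb' u v z
    obtain ⟨β, ca⟩ := fA a ha ha'
    obtain ⟨γ, cb⟩ := fA b hb hb'
    rw [ca, ca, cb, cb]
    simp only [g.ax.i3]
  have AP : ∀ a b, B e x a = a → B a x e = a → B e x b = b → B b x e = 0 → H a b := by
    intro a b ha ha' hb hb' u v z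
    obtain ⟨β, ca⟩ := fA a ha ha'
    obtain ⟨γ, cb⟩ := fP b hb hb'
    rw [ca, ca, cb, cb]
    simp only [g.ax.i3]
  have NA : ∀ a b, B e x a = 0 → B a x e = a → B e x b = b → B b x e = b → H a b := by
    intro a b ha ha' hb hb' u v z
    obtain ⟨β, ca⟩ := fN a ha ha'
    obtain ⟨γ, cb⟩ := fA b hb hb'
    rw [ca, ca, cb, cb]
    simp only [g.ax.i3]
  have NP : ∀ a b, B e x a = 0 → B a x e = a → B e x b = b → B b x e = 0 → H a b := by
    intro a b ha ha' hb hb' u v z
    obtain ⟨β, ca⟩ := fN a ha ha'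
    obtain ⟨γ, cb⟩ := fP b hb hb'
    rw [ca, ca, cb, cb]
    simp only [g.ax.i3]
  have main : H w w' := by
    rw [dec w, dec w']
    refine Hadd1 _ _ _ (Hadd1 _ _ _ ?_ ?_) ?_
    · refine Hadd2 _ _ _ (Hadd2 _ _ _ ?_ ?_) ?_
      · exact AA _ _ (a1 w) (a2 w) (a1 w') (a2 w')
      · exact AP _ _ (a1 w) (a2 w) (p1 w') (p2 w')
      · exact Hsymm _ _ (NA _ _ (n1 w') (n2 w') (a1 w) (a2 w))
    · refine Hadd2 _ _ _ (Hadd2 _ _ _ ?_ ?_) ?_
      · exact Hsymm _ _ (AP _ _ (a1 w') (a2 w') (p1 w) (p2 w))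
      · exact g.PP (p1 w) (p2 w) (p1 w') (p2 w')
      · exact Hsymm _ _ (NP _ _ (n1 w') (n2 w') (p1 w) (p2 w))
    · refine Hadd2 _ _ _ (Hadd2 _ _ _ ?_ ?_) ?_
      · exact NA _ _ (n1 w) (n2 w) (a1 w') (a2 w')
      · exact NP _ _ (n1 w) (n2 w) (p1 w') (p2 w')
      · exact g.NN (n1 w) (n2 w) (n1 w') (n2 w')
  exact main u v z

/-- The product is totally associative: inner form. -/
lemma f_zero (g : Good B x e) (u w v w' z : W) :
    B u (B w v w') z = B u w (B v w' z) := by
  have key : ∀ t, Th B (B u (B w v w') z - B u w (B v w' z)) t = 0 := by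
    intro t
    have h1 : Th B (B u (B w v w') z) t = Th B (B w' z t) (B u w v) := by
      rw [Th_cyc g.ax, ← g.h_zero, Th_symm, Th_cyc' g.ax]
    have h2 : Th B (B u w (B v w' z)) t = Th B (B w' z t) (B u w v) := by
      rw [Th_cyc' g.ax, Th_cyc g.ax, g.h_zero, Th_symm, Th_cyc g.ax]
    rw [sub_eq_add_neg, Th_add_left, ← neg_one_smul ℂ (B u w (B v w' z)), Th_smul_left, h1, h2]
    ring
  exact sub_eq_zero.mp (g.nd _ key)

end Good

end

/-! ## Defect -/

section
variable {W : Type*} [AddCommGroup W] [Module ℂ W]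
variable {B : W →ₗ[ℂ] W →ₗ[ℂ] W →ₗ[ℂ] W}

/-- `W` with the associative product `a ∘ c = [a e c]`. -/
@[reducible] def algRing (h : Identities B) (e : W) : NonUnitalRing W :=
  { (inferInstance : AddCommGroup W) with
    mul := fun a c => B a e c
    left_distrib := fun a b c => map_add _ _ _
    right_distrib := fun a b c => by
      change B (a + b) e c = B a e c + B b e c
      rw [map_add]; rfl
    zero_mul := fun a => by
      change B 0 e a = 0
      simp
    mul_zero := fun a => by
      change B a e 0 = 0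
      simp
    mul_assoc := fun a b c => (h.i3 a e b c).symm }

lemma two_cancel (x : W) (hx : x + x = 0) : x = 0 := by
  rw [← two_smul ℂ x] at hx
  exact (smul_eq_zero.mp hx).resolve_left two_ne_zero

/-- The bilinear map `(a, c) ↦ Δ_e(a, b, c)`. -/
def DlHom (B : W →ₗ[ℂ] W →ₗ[ℂ] W →ₗ[ℂ] W) (e b : W) : W →+ W →+ W :=
  AddMonoidHom.mk' (fun a => AddMonoidHom.mk' (fun c => Dl B e a b c)
    (fun c d => by simp only [Dl, map_add]; abel))
    (fun a a' => by
      ext c
      simp only [Dl, map_add, LinearMap.add_apply, AddMonoidHom.mk'_apply, AddMonoidHom.add_apply]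
      abel)

lemma DlHom_apply (e a b c : W) : DlHom B e b a c = Dl B e a b c := rfl

lemma Dl_cocyc (h : Identities B) (e b a u c : W) :
    B a e (Dl B e u b c) - Dl B e (B a e u) b c + Dl B e a b (B u e c)
      - B (Dl B e a b u) e c = 0 := by
  have e1 := lin3 h a u c (B e b e) e
  simp only [Dl, map_sub, LinearMap.sub_apply]
  have e2 := h.i3 a e u (B b e c)
  have e3 : B a e (B b e (B u e c)) = B (B a e (B b e u)) e c := by
    rw [h.i3 b e u c, h.i3 a e (B b e u) c]
  rw [e2, ← e3]
  linear_combination (norm := module) e1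

lemma Dl_self (h : Identities B) (e a c : W) : Dl B e a a c = 0 := by
  apply two_cancel
  nth_rewrite 1 [Dl_swap12 h]
  exact neg_add_cancel _

section
variable {x e : W}

lemma Dl_x (h : Identities B) (hx : B x e x = x) (he : B e x e = e)
    (v0p : ∀ v, v = B x e v + B v e x - B x e (B v e x)) (a c : W) : Dl B e a x c = 0 := by
  have k1 : ∀ a c, Dl B e (B a e x) x c = 0 := by
    intro a c
    simp only [Dl, he]
    rw [← h.i3 a e x c, ← h.i3 a e x (B x e c), h.i3 x e x c, hx, sub_self]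
  have k2 : ∀ a c, Dl B e (B x e a) x c = 0 := by
    intro a c
    rw [Dl_swap13 h]
    simp only [Dl, he]
    rw [h.i3 x e x a, hx, sub_self, neg_zero]
  have lin : Dl B e a x c = Dl B e (B x e a) x c + Dl B e (B a e x) x c
      - Dl B e (B x e (B a e x)) x c := by
    have := v0p a
    calc Dl B e a x c = DlHom B e x a c := rfl
      _ = DlHom B e x (B x e a + B a e x - B x e (B a e x)) c := by rw [← v0p a]
      _ = _ := by
        rw [map_sub, map_add, AddMonoidHom.sub_apply, AddMonoidHom.add_apply]; rfl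
  rw [lin, k1, k2, k2]; simp

/-- values of the defect lie in the corner of `x`. -/
lemma Dl_mem (h : Identities B) (hx : B x e x = x) (he : B e x e = e)
    (v0p : ∀ v, v = B x e v + B v e x - B x e (B v e x)) (a b c : W) :
    Dl B e a b c ∈ corner B e x ∧ Dl B e (B x e (B a e x)) b c = Dl B e a b c := by
  have zx : ∀ b c, Dl B e x b c = 0 := by
    intro b c; rw [Dl_swap12 h, Dl_x h hx he v0p, neg_zero]
  have zx' : ∀ b c, Dl B e c b x = 0 := by
    intro b c; rw [Dl_swap13 h, zx, neg_zero]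
  have p1 : ∀ u c, Dl B e (B x e u) b c = B x e (Dl B e u b c) := by
    intro u c
    have := Dl_cocyc h e b x u c
    rw [zx, zx] at this
    simp only [add_zero, map_zero, LinearMap.zero_apply, sub_zero] at this
    exact (sub_eq_zero.mp this).symm
  have p2 : ∀ a u, Dl B e a b (B u e x) = B (Dl B e a b u) e x := by
    intro a u
    have := Dl_cocyc h e b a u x
    rw [zx', zx'] at this
    simp only [map_zero, zero_add, sub_zero] at this
    exact sub_eq_zero.mp this
  have p3 : ∀ a c, Dl B e (B a e x) b c = Dl B e a b (B x e c) := by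
    intro a c
    have := Dl_cocyc h e b a x c
    rw [zx, zx'] at this
    simp only [map_zero, LinearMap.zero_apply, sub_zero, zero_sub] at this
    exact (neg_add_eq_zero.mp this)
  have p2' : ∀ a c, Dl B e (B a e x) b c = B (Dl B e a b c) e x := by
    intro a c
    rw [Dl_swap13 h, p2, Dl_swap13 h e c b a]
    simp
  have p1' : ∀ a c, Dl B e a b (B x e c) = B x e (Dl B e a b c) := by
    intro a c
    rw [Dl_swap13 h, p1, Dl_swap13 h e c b a]
    simp
  have p4 : ∀ a c, B x e (Dl B e a b c) = B (Dl B e a b c) e x := by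
    intro a c
    rw [← p1', ← p3, p2']
  have p5 : B x e (Dl B e a b c) = Dl B e a b c := by
    have := v0p (Dl B e a b c)
    rw [← p4, h.i3 x e x, hx, add_sub_cancel_right] at this
    exact this.symm
  refine ⟨⟨p5, by rw [← p4, p5]⟩, ?_⟩
  rw [p1, p2', ← p4, p5, p5]

lemma Dl_idem [FiniteDimensional ℂ W] (h : Identities B) (hnd : ∀ u, (∀ v, Th B u v = 0) → u = 0)
    (hx : B x e x = x) (he : B e x e = e)
    (v0p : ∀ v, v = B x e v + B v e x - B x e (B v e x)) {η : W} (hη : B η e η = η) (a c : W) :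
    Dl B e a η c = 0 := by
  let _ := algRing h e
  have skew : ∀ a b, DlHom B e η a b = - DlHom B e η b a := fun a b => Dl_swap13 h e a η b
  have cocyc : ∀ a u c, a * DlHom B e η u c - DlHom B e η (a * u) c + DlHom B e η a (u * c)
      - DlHom B e η a u * c = 0 := fun a u c => Dl_cocyc h e η a u c
  have hD : ∀ c, DlHom B e η η c = 0 := fun c => Dl_self h e η c
  have prod : ∀ a c : W, B a (B e η e) c = a * η * c + DlHom B e η a c := by
    intro a c
    change B a (B e η e) c = B (B a e η) e c + (B a (B e η e) c - B a e (B η e c))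
    rw [h.i3 a e η c]; abel
  have assoc : ∀ a u c : W, (a * η * u + DlHom B e η a u) * η * c
      + DlHom B e η (a * η * u + DlHom B e η a u) c =
      a * η * (u * η * c + DlHom B e η u c) + DlHom B e η a (u * η * c + DlHom B e η u c) := by
    intro a u c
    rw [← prod, ← prod, ← prod, ← prod]
    exact (h.i3 a (B e η e) u c).symm
  have hDD := el_aux1 (DlHom B e η) skew cocyc two_cancel η hη hD assoc
  have hq := el_aux2 (DlHom B e η) skew cocyc two_cancel hDD
  apply semiprime h hnd hx (Dl_mem h hx he v0p a η c).1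
  intro v _
  refine ⟨2, ?_⟩
  rw [pow_two, LL3 h]
  have : B (B (Dl B e a η c) e v) e (B (Dl B e a η c) e v) = 0 := by
    rw [h.i3 (B (Dl B e a η c) e v) e (Dl B e a η c) v]
    have h2 : B (B (Dl B e a η c) e v) e (Dl B e a η c) = 0 := hq a c v
    rw [h2]; simp
  rw [this]; simp

lemma Dl_zero [FiniteDimensional ℂ W] (h : Identities B) (hnd : ∀ u, (∀ v, Th B u v = 0) → u = 0)
    (hx : B x e x = x) (he : B e x e = e)
    (v0p : ∀ v, v = B x e v + B v e x - B x e (B v e x)) (a b c : W) :
    B a (B e b e) c = B a e (B b e c) := by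
  have key : Dl B e a b c = 0 := by
    rw [Dl_swap12 h, ← (Dl_mem h hx he v0p b a c).2, ← Dl_swap12 h]
    have hb : B x e (B b e x) ∈ corner B e x := by
      refine ⟨by rw [h.i3, hx], by rw [← h.i3, ← h.i3, hx]⟩
    have := corner_span h hnd e _ x hx le_rfl hb
    refine Submodule.span_induction (p := fun t _ => Dl B e a t c = 0) ?_ ?_ ?_ ?_ this
    · intro η hη
      exact Dl_idem h hnd hx he v0p hη a c
    · simp [Dl]
    · intro s t _ _ hs ht
      have : Dl B e a (s + t) c = Dl B e a s c + Dl B e a t c := by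
        simp only [Dl, map_add, LinearMap.add_apply]; abel
      rw [this, hs, ht, add_zero]
    · intro r s _ hs
      have : Dl B e a (r • s) c = r • Dl B e a s c := by
        simp only [Dl, map_smul, LinearMap.smul_apply, smul_sub]
      rw [this, hs, smul_zero]
  exact sub_eq_zero.mp key

end

end

/-! ## Pair -/

section
variable {W : Type*} [AddCommGroup W] [Module ℂ W]
variable {B : W →ₗ[ℂ] W →ₗ[ℂ] W →ₗ[ℂ] W}

/-- An idempotent pair. -/
structure IPair (B : W →ₗ[ℂ] W →ₗ[ℂ] W →ₗ[ℂ] W) (x e : W) : Prop where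
  hx : B x e x = x
  he : B e x e = e

lemma IPair.swap {x e : W} (p : IPair B x e) : IPair B e x := ⟨p.he, p.hx⟩

lemma pair_of_idem (h : Identities B) {ε y : W} (hε : B ε y ε = ε) : IPair B ε (B y ε y) := by
  have h1 : B y ε (B y ε y) = B y ε y := by rw [h.i1, hε]
  refine ⟨?_, ?_⟩
  · rw [← h.i1, hε, hε]
  · rw [← h.i3 y ε y, h1, h1]

/-- The total rank of a pair. -/
noncomputable def rk (B : W →ₗ[ℂ] W →ₗ[ℂ] W →ₗ[ℂ] W) (x e : W) : ℕ :=
  Module.finrank ℂ (LinearMap.range (B x e)) + Module.finrank ℂ (LinearMap.range (R B e x)) +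
  (Module.finrank ℂ (LinearMap.range (B e x)) + Module.finrank ℂ (LinearMap.range (R B x e)))

lemma rk_swap (x e : W) : rk B x e = rk B e x := by
  unfold rk; ring

lemma trace_idem [FiniteDimensional ℂ W] {f : Module.End ℂ W} (hf : f * f = f) :
    LinearMap.trace ℂ W f = (Module.finrank ℂ (LinearMap.range f) : ℂ) := by
  apply LinearMap.IsProj.trace
  refine ⟨fun x => LinearMap.mem_range_self f x, ?_⟩
  rintro x ⟨y, rfl⟩
  rw [← Module.End.mul_apply, hf]

lemma Th_rk [FiniteDimensional ℂ W] (h : Identities B) {x e : W} (p : IPair B x e) :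
    Th B x e = (rk B x e : ℂ) := by
  rw [Th_eq, trace_idem, trace_idem, trace_idem, trace_idem]
  · unfold rk; push_cast; ring
  · rw [RR3 h, p.he]
  · rw [LL3 h, p.he]
  · rw [RR3 h, p.hx]
  · rw [LL3 h, p.hx]

lemma rk_le [FiniteDimensional ℂ W] (x e : W) : rk B x e ≤ 4 * Module.finrank ℂ W := by
  unfold rk
  have := Submodule.finrank_le (LinearMap.range (B x e))
  have := Submodule.finrank_le (LinearMap.range (R B e x))
  have := Submodule.finrank_le (LinearMap.range (B e x))
  have := Submodule.finrank_le (LinearMap.range (R B x e))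
  omega

lemma exists_max [FiniteDimensional ℂ W] :
    ∃ x e : W, IPair B x e ∧ ∀ x' e', IPair B x' e' → rk B x' e' ≤ rk B x e := by
  let S : Set ℕ := {n | ∃ x e : W, IPair B x e ∧ rk B x e = n}
  have hS : S.Nonempty := ⟨_, 0, 0, ⟨by simp, by simp⟩, rfl⟩
  have hb : BddAbove S := ⟨4 * Module.finrank ℂ W, by rintro n ⟨x, e, _, rfl⟩; exact rk_le x e⟩
  obtain ⟨x, e, hp, hr⟩ := Nat.sSup_mem hS hb
  refine ⟨x, e, hp, fun x' e' hp' => ?_⟩
  rw [hr]
  exact le_csSup hb ⟨x', e', hp', rfl⟩

/-- The zero Peirce space. -/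
def V0 (B : W →ₗ[ℂ] W →ₗ[ℂ] W →ₗ[ℂ] W) (x e : W) : Submodule ℂ W :=
  LinearMap.ker (B x e) ⊓ LinearMap.ker (R B e x)

lemma mem_V0 {x e a : W} : a ∈ V0 B x e ↔ B x e a = 0 ∧ B a e x = 0 := by
  unfold V0
  rw [Submodule.mem_inf, LinearMap.mem_ker, LinearMap.mem_ker, R_apply]

lemma half {a b : W} (hab : a + a = b + b) : a = b := by
  have : (a - b) + (a - b) = 0 := by
    rw [show (a - b) + (a - b) = (a + a) - (b + b) by abel, hab, sub_self]
  exact sub_eq_zero.mp (two_cancel _ this)

lemma xbx (h : Identities B) {x e b : W} (p : IPair B x e) (hb : b ∈ V0 B e x) : B x b x = 0 := by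
  have := h.i1 x b e x
  rw [p.hx, (mem_V0.mp hb).2] at this
  simpa using this

lemma D_zero (h : Identities B) {x e b : W} (p : IPair B x e) (hb : b ∈ V0 B e x) :
    D B x b = 0 ∧ D B b x = 0 := by
  have h1 := xbx h p hb
  obtain ⟨hb1, hb2⟩ := mem_V0.mp hb
  have dxx : D B x e x = x + x := by rw [D_apply, p.hx]
  have dexb : D B e x b = 0 := by rw [D_apply, hb1, hb2, add_zero]
  have dbxe : D B b x e = 0 := by rw [D_apply, hb1, hb2, add_zero]
  have dxbx : D B x b x = 0 := by rw [D_apply, h1, add_zero]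
  have z1 : ∀ z : W, D B (0 : W) z = 0 := fun z => by ext; simp [D_apply]
  have z2 : ∀ z : W, D B z (0 : W) = 0 := fun z => by ext; simp [D_apply]
  constructor
  · ext z
    have e1 := jts h x e x b z
    have e2 := jts h x b x e z
    rw [dxx, dexb, D_add_left, z2] at e1
    rw [dxbx, dbxe, z1, z2] at e2
    simp only [LinearMap.zero_apply, LinearMap.add_apply, sub_zero, zero_add] at e1 e2 ⊢
    rw [e2] at e1
    apply two_cancel
    exact left_eq_add.mp (by rw [add_comm]; exact e1)
  · ext z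
    have e1 := jts h e x b x z
    have e2 := jts h b x e x z
    rw [dxx, dexb, D_add_right, z1] at e1
    rw [dxbx, dbxe, z1, z2] at e2
    simp only [LinearMap.zero_apply, LinearMap.add_apply, sub_zero, zero_add, zero_sub] at e1 e2 ⊢
    rw [e2] at e1
    have e3 : D B b x z + D B b x z = 0 := by
      have := right_eq_add.mp e1
      rwa [neg_eq_zero] at this
    exact two_cancel _ e3

lemma D_mem (h : Identities B) {x e a b c : W} (ha : a ∈ V0 B x e) (hb : b ∈ V0 B e x)
    (hc : c ∈ V0 B x e) : D B a b c ∈ V0 B x e := by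
  obtain ⟨ha1, ha2⟩ := mem_V0.mp ha
  obtain ⟨hb1, hb2⟩ := mem_V0.mp hb
  obtain ⟨hc1, hc2⟩ := mem_V0.mp hc
  rw [mem_V0]
  constructor
  · rw [derL' h, ha1, hb2, hc1]; simp [D_apply]
  · rw [derR' h, ha2, hb1, hc2]; simp [D_apply]

lemma add_pair (h : Identities B) {x e ε f : W} (p : IPair B x e) (q : IPair B ε f)
    (hε : ε ∈ V0 B x e) (hf : f ∈ V0 B e x) : B (x + ε) (e + f) (x + ε) = x + ε := by
  obtain ⟨h1, h2⟩ := mem_V0.mp hε
  have h3 : D B ε e ε = 0 := by rw [(D_zero h p.swap hε).2]; rfl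
  have h4 : D B x f x = 0 := by rw [(D_zero h p hf).1]; rfl
  have h5 : D B x f ε = 0 := by rw [(D_zero h p hf).1]; rfl
  rw [D_apply] at h3 h4 h5
  have h3' := two_cancel _ h3
  have h4' := two_cancel _ h4
  simp only [map_add, LinearMap.add_apply, p.hx, h1, h2, h3', h4', q.hx]
  rw [show x + 0 + (0 + B ε f x) + (0 + 0 + (B x f ε + ε)) = x + ε + (B x f ε + B ε f x) by abel,
    h5, add_zero]

lemma V0_zero [FiniteDimensional ℂ W] (h : Identities B) (hnd : ∀ u, (∀ v, Th B u v = 0) → u = 0)
    {x e : W} (p : IPair B x e) (hmax : ∀ x' e', IPair B x' e' → rk B x' e' ≤ rk B x e)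
    {a : W} (ha : a ∈ V0 B x e) : a = 0 := by
  obtain ⟨ha1, ha2⟩ := mem_V0.mp ha
  apply hnd
  intro b
  by_contra hne
  obtain ⟨c, hc⟩ : ∃ c, c = b - B e x b - B b x e + B e x (B b x e) := ⟨_, rfl⟩
  have hcm : c ∈ V0 B e x := by
    rw [mem_V0, hc]
    constructor
    · simp only [map_add, map_sub]
      rw [h.i3 e x e b, h.i3 e x e (B b x e), p.he]; abel
    · simp only [map_add, map_sub, LinearMap.add_apply, LinearMap.sub_apply]
      rw [← h.i3 e x b e, ← h.i3 b x e e, ← h.i3 e x (B b x e) e, ← h.i3 b x e e, p.he]; abel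
  have z : ∀ u : W, Th B u 0 = 0 := fun u => by
    rw [← zero_smul ℂ u, Th_smul_right]; simp
  have t1 : Th B (B e x b) a = 0 := by rw [Th_cyc' h, ha2, z]
  have t2 : Th B (B b x e) a = 0 := by rw [Th_cyc h, ha1, z]
  have t3 : Th B (B e x (B b x e)) a = 0 := by rw [Th_cyc' h, ha2, z]
  have hTc : Th B a c = Th B a b := by
    have : b = c + B e x b + B b x e + (-1 : ℂ) • B e x (B b x e) := by
      rw [hc]; module
    conv_rhs => rw [this]
    rw [Th_add_right, Th_add_right, Th_add_right, Th_smul_right, Th_symm a (B e x b), t1,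
      Th_symm a (B b x e), t2, Th_symm a (B e x (B b x e)), t3]
    ring
  rw [← hTc] at hne
  have hnil : ¬ IsNilpotent (B a c) := fun hh => hne (Th_nil h a c hh)
  -- the invariant subspace
  let S : Submodule ℂ W := V0 B x e ⊓ LinearMap.ker (B a c - R B c a)
  have hSm : ∀ s, s ∈ S ↔ s ∈ V0 B x e ∧ B a c s = B s c a := by
    intro s
    change s ∈ V0 B x e ⊓ LinearMap.ker (B a c - R B c a) ↔ _
    rw [Submodule.mem_inf, LinearMap.mem_ker, LinearMap.sub_apply, R_apply, sub_eq_zero]
  obtain ⟨ε, hεS, hε0, hεid⟩ := exists_idem h a c hnil S ((hSm a).mpr ⟨ha, rfl⟩) (by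
    intro s hs
    rw [hSm] at hs ⊢
    obtain ⟨hs1, hs2⟩ := hs
    constructor
    · have h1 := D_mem h ha hcm hs1
      rw [D_apply, ← hs2] at h1
      have h2 : (2⁻¹ : ℂ) • (B a c s + B a c s) = B a c s := by
        rw [← two_smul ℂ (B a c s), smul_smul]; norm_num
      rw [← h2]
      exact Submodule.smul_mem _ _ h1
    · nth_rewrite 1 [hs2]
      rw [h.i3])
  have hεV := ((hSm ε).mp hεS).1
  have q := pair_of_idem h hεid
  obtain ⟨f, hf⟩ : ∃ f, f = B c ε c := ⟨_, rfl⟩
  rw [← hf] at q
  have hfV : f ∈ V0 B e x := by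
    have h1 := D_mem h hcm hεV hcm
    rw [D_apply] at h1
    have h2 : (2⁻¹ : ℂ) • (B c ε c + B c ε c) = f := by
      rw [← two_smul ℂ (B c ε c), smul_smul, hf]; norm_num
    rw [← h2]
    exact Submodule.smul_mem _ _ h1
  have pn : IPair B (x + ε) (e + f) :=
    ⟨add_pair h p q hεV hfV, add_pair h p.swap q.swap hfV hεV⟩
  have hle := hmax _ _ pn
  have hT : Th B (x + ε) (e + f) = Th B x e + Th B ε f := by
    rw [Th_add_left, Th_add_right, Th_add_right]
    have z1 : Th B x f = 0 := by
      unfold Th; rw [(D_zero h p hfV).1, (D_zero h p hfV).2]; simp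
    have z2 : Th B ε e = 0 := by
      unfold Th; rw [(D_zero h p.swap hεV).1, (D_zero h p.swap hεV).2]; simp
    rw [z1, z2]; ring
  rw [Th_rk h pn, Th_rk h p, Th_rk h q] at hT
  have hT' : rk B (x + ε) (e + f) = rk B x e + rk B ε f := by exact_mod_cast hT
  have hpos : 0 < Module.finrank ℂ (LinearMap.range (B ε f)) := by
    rw [Module.finrank_pos_iff_exists_ne_zero]
    exact ⟨⟨ε, ⟨ε, q.hx⟩⟩, fun hh => hε0 (congrArg Subtype.val hh)⟩
  have : rk B ε f ≥ 1 := by unfold rk; omega
  omega

/-- Existence of a good pair. -/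
lemma exists_good [FiniteDimensional ℂ W] (h : Identities B) (hnd : ∀ u, (∀ v, Th B u v = 0) → u = 0) :
    ∃ x e : W, Good B x e := by
  obtain ⟨x, e, p, hmax⟩ := exists_max (B := B)
  have v0 : ∀ {x e : W}, IPair B x e → (∀ x' e', IPair B x' e' → rk B x' e' ≤ rk B x e) →
      ∀ v, v = B x e v + B v e x - B x e (B v e x) := by
    intro x e p hmax v
    have hm : v - B x e v - B v e x + B x e (B v e x) ∈ V0 B x e := by
      rw [mem_V0]
      constructor
      · simp only [map_add, map_sub]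
        rw [h.i3 x e x v, h.i3 x e x (B v e x), p.hx]; abel
      · simp only [map_add, map_sub, LinearMap.add_apply, LinearMap.sub_apply]
        rw [← h.i3 x e v x, ← h.i3 v e x x, ← h.i3 x e (B v e x) x, ← h.i3 v e x x, p.hx]; abel
    have := V0_zero h hnd p hmax hm
    linear_combination (norm := module) this
  have v0p := v0 p hmax
  have v0m := v0 p.swap (fun x' e' hp' => by rw [rk_swap e x]; exact hmax x' e' hp')
  exact ⟨x, e, h, hnd, p.hx, p.he, v0p, v0m, Dl_zero h hnd p.hx p.he v0p,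
    Dl_zero h hnd p.he p.hx v0m⟩

/-- Total associativity when the trace form is nondegenerate. -/
theorem total_assoc [FiniteDimensional ℂ W] (h : Identities B)
    (hnd : ∀ u, (∀ v, Th B u v = 0) → u = 0) (x y z u v : W) :
    B x y (B z u v) = B (B x y z) u v ∧ B x (B y z u) v = B x y (B z u v) := by
  obtain ⟨a, b, g⟩ := exists_good h hnd
  exact ⟨g.h_zero x y z u v, g.f_zero x y z u v⟩

end

/-! ## Prim -/

section
variable {W : Type*} [AddCommGroup W] [Module ℂ W]
variable {B : W →ₗ[ℂ] W →ₗ[ℂ] W →ₗ[ℂ] W}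

/-- Total associativity. -/
structure TA (B : W →ₗ[ℂ] W →ₗ[ℂ] W →ₗ[ℂ] W) : Prop where
  a1 : ∀ x y z u v, B x y (B z u v) = B (B x y z) u v
  a2 : ∀ x y z u v, B x (B y z u) v = B x y (B z u v)

/-- Rank one idempotent pairs. -/
structure Prim (B : W →ₗ[ℂ] W →ₗ[ℂ] W →ₗ[ℂ] W) (c d : W) : Prop where
  c0 : c ≠ 0
  d0 : d ≠ 0
  hc : B c d c = c
  hd : B d c d = d
  rc : ∀ w, ∃ r : ℂ, B c w c = r • c
  rd : ∀ w, ∃ r : ℂ, B d w d = r • d

lemma Prim.swap {c d : W} (p : Prim B c d) : Prim B d c := ⟨p.d0, p.c0, p.hd, p.hc, p.rd, p.rc⟩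

lemma exists_prim [FiniteDimensional ℂ W] (h : Identities B) (ta : TA B)
    (hnd : ∀ u, (∀ v, Th B u v = 0) → u = 0) (hW : ∃ w : W, w ≠ 0) : ∃ c d : W, Prim B c d := by
  let S : Set ℕ := {n | ∃ e ε : W, ε ≠ 0 ∧ B ε e ε = ε ∧ Module.finrank ℂ (corner B e ε) = n}
  have hS : S.Nonempty := by
    obtain ⟨w, hw⟩ := hW
    obtain ⟨v, hv⟩ : ∃ v, Th B w v ≠ 0 := by
      by_contra hh
      push Not at hh
      exact hw (hnd w hh)
    have hnil : ¬ IsNilpotent (B w v) := fun hh => hv (Th_nil h w v hh)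
    obtain ⟨ε, _, h0, hid⟩ := exists_idem h w v hnil ⊤ trivial (fun _ _ => trivial)
    exact ⟨_, v, ε, h0, hid, rfl⟩
  obtain ⟨e, ε, hε0, hε, hn⟩ := Nat.sInf_mem hS
  have hmin : ∀ η ∈ corner B e ε, B η e η = η → η = 0 ∨ η = ε := by
    intro η hη hid
    by_contra hh
    push Not at hh
    obtain ⟨hη0, hηε⟩ := hh
    have le1 : corner B e η ≤ corner B e ε := by
      intro v hv
      refine ⟨?_, ?_⟩
      · rw [← hv.1, h.i3, hη.1]
      · rw [← hv.2, ← h.i3, hη.2]
    have lt1 : corner B e η < corner B e ε := by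
      refine lt_of_le_of_ne le1 (fun hh => hηε ?_)
      have : ε ∈ corner B e η := by rw [hh]; exact self_mem_corner hε
      rw [← this.1, hη.2]
    have f1 := Submodule.finrank_lt_finrank_of_lt lt1
    have : sInf S ≤ Module.finrank ℂ (corner B e η) := Nat.sInf_le ⟨e, η, hη0, hid, rfl⟩
    omega
  have hsc := corner_scalar h hnd hε hε0 hmin
  have q := pair_of_idem h hε
  obtain ⟨d, hd⟩ : ∃ d, d = B e ε e := ⟨_, rfl⟩
  rw [← hd] at q
  have rc : ∀ w, ∃ r : ℂ, B ε w ε = r • ε := fun w => hsc _ (quad_mem_corner h hε w)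
  refine ⟨ε, d, hε0, ?_, q.hx, q.he, rc, ?_⟩
  · intro h0
    have := q.hx
    rw [h0] at this
    simp only [map_zero, LinearMap.zero_apply] at this
    exact hε0 this.symm
  · intro w
    obtain ⟨r, hr⟩ := rc (B d w d)
    refine ⟨r, ?_⟩
    have s1 : B d ε (B d w d) = B d w d := by rw [ta.a1, q.he]
    have s2 : B (B d w d) ε d = B d w d := by rw [← ta.a1, q.he]
    calc B d w d = B d ε (B (B d w d) ε d) := by rw [s2, s1]
      _ = B d (B ε (B d w d) ε) d := by rw [ta.a2]
      _ = r • d := by rw [hr]; simp only [map_smul, LinearMap.smul_apply, q.he]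

/-- The space `{a : [a d c] = a}`. -/
def Xs (B : W →ₗ[ℂ] W →ₗ[ℂ] W →ₗ[ℂ] W) (c d : W) : Submodule ℂ W where
  carrier := {a | B a d c = a}
  add_mem' := by
    intro a b h1 h2
    simp only [Set.mem_ofPred_eq] at *
    rw [map_add, LinearMap.add_apply, LinearMap.add_apply, h1, h2]
  zero_mem' := by simp
  smul_mem' := by
    intro r a h1
    simp only [Set.mem_ofPred_eq] at *
    rw [map_smul, LinearMap.smul_apply, LinearMap.smul_apply, h1]

/-- The map `w ↦ (y ↦ [w y c])`. -/
def ph (ta : TA B) {c d : W} (p : Prim B c d) : W →ₗ[ℂ] (Xs B d c →ₗ[ℂ] Xs B c d) where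
  toFun w :=
    { toFun := fun y => ⟨B w y c, by
        change B (B w y c) d c = B w y c
        rw [← ta.a1, p.hc]⟩
      map_add' := fun y z => Subtype.ext (by
        simp only [Submodule.coe_add, map_add, LinearMap.add_apply])
      map_smul' := fun r y => Subtype.ext (by
        simp only [Submodule.coe_smul, map_smul, LinearMap.smul_apply, RingHom.id_apply]) }
  map_add' u v := by
    ext y
    simp
  map_smul' r u := by
    ext y
    simp

lemma ph_apply (ta : TA B) {c d : W} (p : Prim B c d) (w : W) (y : Xs B d c) :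
    ((ph ta p w y : Xs B c d) : W) = B w y c := rfl

lemma ph_mul (ta : TA B) {c d : W} (p : Prim B c d) (u v w : W) (y : Xs B d c) :
    ph ta p (B u v w) y = ph ta p u (ph ta p.swap v (ph ta p w y)) := by
  apply Subtype.ext
  rw [ph_apply, ph_apply, ph_apply, ph_apply, ta.a2]
  have : B (B w y c) d c = B w y c := by rw [← ta.a1, p.hc]
  rw [this, ta.a1]

lemma c_mem {c d : W} (p : Prim B c d) : c ∈ Xs B c d := p.hc

/-- The linear form with `[c w c] = λ(w) c`. -/
lemma exists_lam {c d : W} (p : Prim B c d) : ∃ l : W →ₗ[ℂ] ℂ, ∀ w, B c w c = l w • c := by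
  obtain ⟨f, hf⟩ : ∃ f : Module.Dual ℂ W, f c ≠ 0 := by
    by_contra hh
    push Not at hh
    exact p.c0 ((Module.forall_dual_apply_eq_zero_iff ℂ c).mp hh)
  refine ⟨(f c)⁻¹ • f.comp ((B c).flip c), fun w => ?_⟩
  obtain ⟨r, hr⟩ := p.rc w
  simp only [LinearMap.smul_apply, LinearMap.comp_apply, LinearMap.flip_apply, hr, map_smul,
    smul_eq_mul]
  field_simp

lemma ph_surj [FiniteDimensional ℂ W] (h : Identities B) (ta : TA B)
    (hnd : ∀ u, (∀ v, Th B u v = 0) → u = 0) {c d : W} (p : Prim B c d) :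
    Function.Surjective (ph ta p) := by
  obtain ⟨l, hl⟩ := exists_lam p
  -- the functionals
  let fn : W → W → Module.Dual ℂ (Xs B d c) := fun u v =>
    (l.comp (B u v)).comp (Xs B d c).subtype
  have hfn : ∀ u v y, fn u v y = l (B u v y) := fun u v y => rfl
  let S : Submodule ℂ (Module.Dual ℂ (Xs B d c)) :=
    Submodule.span ℂ (Set.range fun q : W × W => fn q.1 q.2)
  have hsep : S.dualCoannihilator = ⊥ := by
    rw [Submodule.eq_bot_iff]
    intro y hy
    rw [Submodule.mem_dualCoannihilator] at hy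
    have hy' : ∀ u v, l (B u v y) = 0 := fun u v => hy (fn u v) (Submodule.subset_span ⟨(u, v), rfl⟩)
    apply Subtype.ext
    apply hnd
    intro w
    have hyy : B (y : W) c d = y := y.2
    have e1 : Th B (y : W) w = Th B c (B d w y) := by
      nth_rewrite 1 [← hyy]
      rw [Th_cyc h, Th_symm, Th_cyc h]
    have e2 : B d w (y : W) = 0 := by
      obtain ⟨s, hs⟩ : ∃ s, s = B d w (y : W) := ⟨_, rfl⟩
      have s1 : B d c s = s := by rw [hs, ta.a1, p.hd]
      have s2 : B s c d = s := by rw [hs, ← ta.a1, hyy]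
      have s3 : B d (B c s c) d = s := by rw [ta.a2, s2, s1]
      rw [hl, hs, hy'] at s3
      rw [← s3]; simp
    rw [e1, e2, ← zero_smul ℂ c, Th_smul_right]; simp
  have hStop : S = ⊤ := by
    have := Subspace.dualCoannihilator_dualAnnihilator_eq (W := S)
    rw [hsep] at this
    rw [← this]; simp
  have hrank : ∀ (ξ : Module.Dual ℂ (Xs B d c)) (a : Xs B c d),
      ξ.smulRight a ∈ LinearMap.range (ph ta p) := by
    intro ξ a
    have hξ : ξ ∈ S := by rw [hStop]; trivial
    refine Submodule.span_induction (p := fun t _ => t.smulRight a ∈ LinearMap.range (ph ta p))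
      ?_ ?_ ?_ ?_ hξ
    · rintro _ ⟨⟨u, v⟩, rfl⟩
      refine ⟨B a d (B c u v), ?_⟩
      ext y
      have ha : B (a : W) d c = a := a.2
      rw [ph_apply, ← ta.a1 (a : W) d, ← ta.a1 c u v, ← ta.a2 c u v, hl]
      simp only [map_smul, ha, LinearMap.smulRight_apply, Submodule.coe_smul]
      rfl
    · have : (0 : Module.Dual ℂ (Xs B d c)).smulRight a = 0 := by ext; simp
      rw [this]; exact Submodule.zero_mem _
    · intro s t _ _ hs ht
      have : (s + t).smulRight a = s.smulRight a + t.smulRight a := by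
        ext y; simp [add_smul]
      rw [this]; exact Submodule.add_mem _ hs ht
    · intro r s _ hs
      have : (r • s).smulRight a = r • s.smulRight a := by
        ext y; simp [mul_smul]
      rw [this]; exact Submodule.smul_mem _ _ hs
  intro T
  let b := Module.finBasis ℂ (Xs B d c)
  have hT : T = ∑ i, (b.coord i).smulRight (T (b i)) := by
    apply b.ext
    intro j
    rw [LinearMap.sum_apply]
    simp [LinearMap.smulRight_apply, Finsupp.single_apply, ite_smul]
  have : T ∈ LinearMap.range (ph ta p) := by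
    rw [hT]
    exact Submodule.sum_mem _ (fun i _ => hrank _ _)
  exact this

end

/-! ## Assoc -/

section
variable {W : Type*} [AddCommGroup W] [Module ℂ W]
variable {B : W →ₗ[ℂ] W →ₗ[ℂ] W →ₗ[ℂ] W}

lemma ker_inter (ta : TA B) (hs : IsSimpleTriple B) {c d : W} (p : Prim B c d) :
    LinearMap.ker (ph ta p) ⊓ LinearMap.ker (ph ta p.swap) = ⊥ := by
  have hI : IsTripleIdeal B (LinearMap.ker (ph ta p) ⊓ LinearMap.ker (ph ta p.swap)) := by
    rintro u ⟨h1, h2⟩ y z
    rw [SetLike.mem_coe, LinearMap.mem_ker] at h1 h2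
    refine ⟨⟨?_, ?_⟩, ⟨?_, ?_⟩, ⟨?_, ?_⟩⟩ <;>
    · rw [SetLike.mem_coe, LinearMap.mem_ker]
      ext1 t
      rw [ph_mul]
      simp [h1, h2]
  rcases hs.2 _ hI with h | h
  · exact h
  · exfalso
    have hc : c ∈ LinearMap.ker (ph ta p) ⊓ LinearMap.ker (ph ta p.swap) := by rw [h]; trivial
    have h1 := LinearMap.mem_ker.mp hc.1
    have h2 := congrArg (fun f : Xs B d c →ₗ[ℂ] Xs B c d =>
      ((f ⟨d, c_mem p.swap⟩ : Xs B c d) : W)) h1
    simp only [ph_apply, p.hc] at h2
    exact p.c0 h2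

lemma ker_sup (ta : TA B) (hs : IsSimpleTriple B) {c d : W} (p : Prim B c d) :
    LinearMap.ker (ph ta p) ⊔ LinearMap.ker (ph ta p.swap) = ⊥ ∨
    LinearMap.ker (ph ta p) ⊔ LinearMap.ker (ph ta p.swap) = ⊤ := by
  apply hs.2
  intro u hu y z
  obtain ⟨u1, h1, u2, h2, rfl⟩ := Submodule.mem_sup.mp hu
  rw [LinearMap.mem_ker] at h1 h2
  simp only [map_add, LinearMap.add_apply]
  refine ⟨?_, ?_, ?_⟩
  · apply Submodule.add_mem_sup
    · rw [LinearMap.mem_ker]; ext1 t; rw [ph_mul, h1]; simp
    · rw [LinearMap.mem_ker]; ext1 t; rw [ph_mul, h2]; simp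
  · rw [add_comm]
    apply Submodule.add_mem_sup
    · rw [LinearMap.mem_ker]; ext1 t; rw [ph_mul, h2]; simp
    · rw [LinearMap.mem_ker]; ext1 t; rw [ph_mul, h1]; simp
  · apply Submodule.add_mem_sup
    · rw [LinearMap.mem_ker]; ext1 t; rw [ph_mul, h1]; simp
    · rw [LinearMap.mem_ker]; ext1 t; rw [ph_mul, h2]; simp

/-- The paired case. -/
lemma pair_case [FiniteDimensional ℂ W] (h : Identities B) (ta : TA B)
    (hnd : ∀ u, (∀ v, Th B u v = 0) → u = 0) (hs : IsSimpleTriple B) {c d : W} (p : Prim B c d)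
    (ht : LinearMap.ker (ph ta p) ⊔ LinearMap.ker (ph ta p.swap) = ⊤) :
    Function.Bijective ((ph ta p).prod (ph ta p.swap)) := by
  constructor
  · rw [← LinearMap.ker_eq_bot, LinearMap.ker_prod]
    exact ker_inter ta hs p
  · rintro ⟨α, β⟩
    obtain ⟨w, hw⟩ := ph_surj h ta hnd p α
    obtain ⟨w', hw'⟩ := ph_surj h ta hnd p.swap β
    have m1 : w ∈ LinearMap.ker (ph ta p) ⊔ LinearMap.ker (ph ta p.swap) := by rw [ht]; trivial
    have m2 : w' ∈ LinearMap.ker (ph ta p) ⊔ LinearMap.ker (ph ta p.swap) := by rw [ht]; trivial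
    obtain ⟨a1, h1, a2, h2, rfl⟩ := Submodule.mem_sup.mp m1
    obtain ⟨b1, h3, b2, h4, rfl⟩ := Submodule.mem_sup.mp m2
    rw [LinearMap.mem_ker] at h1 h2 h3 h4
    refine ⟨a2 + b1, ?_⟩
    rw [map_add, h1, zero_add] at hw
    rw [map_add, h4, add_zero] at hw'
    rw [LinearMap.prod_apply]
    simp only [Function.prod, map_add]
    rw [hw, h3, h2, hw']; simp

lemma exists_central [FiniteDimensional ℂ W] (h : Identities B) (ta : TA B)
    (hnd : ∀ u, (∀ v, Th B u v = 0) → u = 0) {c d : W} (p : Prim B c d)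
    (h1 : Function.Bijective (ph ta p)) (h2 : Function.Bijective (ph ta p.swap)) :
    ∃ z : W, z ≠ 0 ∧ ∀ u v, B u v z = B z u v := by
  -- the trace of `b ↦ [w b v]`
  let M : W → W → Module.End ℂ W := fun w v => (B w).flip v
  have hM : ∀ w v b, M w v b = B w b v := fun w v b => rfl
  obtain ⟨w, v, hwv⟩ : ∃ w v, LinearMap.trace ℂ W (M w v) ≠ 0 := by
    have hd0 : (⟨d, c_mem p.swap⟩ : Xs B d c) ≠ 0 := fun hh => p.d0 (congrArg Subtype.val hh)
    have hc0 : (⟨c, c_mem p⟩ : Xs B c d) ≠ 0 := fun hh => p.c0 (congrArg Subtype.val hh)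
    obtain ⟨ξ', hξ'⟩ : ∃ f : Module.Dual ℂ (Xs B d c), f ⟨d, c_mem p.swap⟩ ≠ 0 := by
      by_contra hh
      push Not at hh
      exact hd0 ((Module.forall_dual_apply_eq_zero_iff ℂ _).mp hh)
    obtain ⟨b0, hb0⟩ := h1.2 (ξ'.smulRight (⟨c, c_mem p⟩ : Xs B c d))
    have hb00 : b0 ≠ 0 := by
      intro hh
      rw [hh, map_zero] at hb0
      have := congrArg (fun f => f (⟨d, c_mem p.swap⟩ : Xs B d c)) hb0
      simp only [LinearMap.zero_apply, LinearMap.smulRight_apply] at this
      rcases smul_eq_zero.mp this.symm with h3 | h3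
      · exact hξ' h3
      · exact hc0 h3
    have hψ : ph ta p.swap b0 ≠ 0 := fun hh => hb00 (h2.1 (by rw [hh, map_zero]))
    obtain ⟨a', ha'⟩ : ∃ a', ph ta p.swap b0 a' ≠ 0 := by
      by_contra hh
      push Not at hh
      exact hψ (LinearMap.ext hh)
    obtain ⟨ξ, hξ⟩ : ∃ f : Module.Dual ℂ (Xs B d c), f (ph ta p.swap b0 a') ≠ 0 := by
      by_contra hh
      push Not at hh
      exact ha' ((Module.forall_dual_apply_eq_zero_iff ℂ _).mp hh)
    obtain ⟨w, hw⟩ := h1.2 (ξ.smulRight (⟨c, c_mem p⟩ : Xs B c d))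
    obtain ⟨v, hv⟩ := h1.2 (ξ'.smulRight a')
    refine ⟨w, v, ?_⟩
    have hMw : M w v = ((ξ.comp ((LinearMap.applyₗ a').comp (ph ta p.swap)))).smulRight b0 := by
      ext b
      apply h1.1
      ext1 y
      rw [hM, ph_mul, hw, hv]
      simp only [LinearMap.smulRight_apply, LinearMap.comp_apply, LinearMap.applyₗ_apply_apply,
        map_smul, LinearMap.smul_apply, hb0, smul_smul, mul_comm]
    rw [hMw, LinearMap.trace_smulRight]
    exact hξ
  -- solve `Th z v = trace (M w v)`
  let TH : W →ₗ[ℂ] Module.Dual ℂ W := LinearMap.mk₂ ℂ (fun u v => Th B u v)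
    (fun a b c => Th_add_left a b c) (fun r a b => Th_smul_left r a b)
    (fun a b c => Th_add_right a b c) (fun r a b => Th_smul_right r a b)
  have hTH : ∀ u v, TH u v = Th B u v := fun u v => rfl
  have hinj : Function.Injective TH := by
    rw [injective_iff_map_eq_zero]
    intro a ha
    apply hnd
    intro v
    rw [← hTH, ha]; rfl
  have hsurj : Function.Surjective TH :=
    (LinearMap.injective_iff_surjective_of_finrank_eq_finrank
      (Subspace.dual_finrank_eq (K := ℂ) (V := W)).symm).mp hinj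
  let τ : Module.Dual ℂ W :=
    { toFun := fun v => LinearMap.trace ℂ W (M w v)
      map_add' := fun a b => by
        have : M w (a + b) = M w a + M w b := by ext; simp [M]
        rw [this, map_add]
      map_smul' := fun r a => by
        have : M w (r • a) = r • M w a := by ext; simp [M]
        rw [this, map_smul, RingHom.id_apply] }
  obtain ⟨z, hz⟩ := hsurj τ
  have hz' : ∀ v, Th B z v = LinearMap.trace ℂ W (M w v) := fun v => by rw [← hTH, hz]; rfl
  refine ⟨z, ?_, ?_⟩
  · intro hh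
    apply hwv
    rw [← hz', hh, ← zero_smul ℂ (0 : W), Th_smul_left]; simp
  · intro u v
    have key : ∀ t, Th B (B u v z - B z u v) t = 0 := by
      intro t
      have e1 : Th B (B u v z) t = LinearMap.trace ℂ W (R B u v * M w t) := by
        rw [Th_cyc' h, hz']
        congr 1
        ext b
        rw [hM, Module.End.mul_apply, R_apply, hM, ta.a1]
      have e2 : Th B (B z u v) t = LinearMap.trace ℂ W (M w t * R B u v) := by
        rw [Th_cyc h, hz']
        congr 1
        ext b
        rw [hM, Module.End.mul_apply, R_apply, hM, ta.a2]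
      rw [sub_eq_add_neg, Th_add_left, ← neg_one_smul ℂ (B z u v), Th_smul_left, e1, e2,
        LinearMap.trace_mul_comm]
      ring
    exact sub_eq_zero.mp (hnd _ key)

/-- The unpaired case. -/
lemma full_case [FiniteDimensional ℂ W] (h : Identities B) (ta : TA B)
    (hnd : ∀ u, (∀ v, Th B u v = 0) → u = 0) {c d : W} (p : Prim B c d)
    (h1 : Function.Bijective (ph ta p)) (h2 : Function.Bijective (ph ta p.swap)) :
    ∃ F : W →ₗ[ℂ] Module.End ℂ (Xs B c d), Function.Bijective F ∧
      ∀ u v w, F (B u v w) = F u * F v * F w := by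
  obtain ⟨z, hz0, hz⟩ := exists_central h ta hnd p h1 h2
  have hφz : ph ta p z ≠ 0 := fun hh => hz0 (h1.1 (by rw [hh, map_zero]))
  obtain ⟨y0, hy0⟩ : ∃ y, ph ta p z y ≠ 0 := by
    by_contra hh
    push Not at hh
    exact hφz (LinearMap.ext hh)
  have hc0 : (⟨c, c_mem p⟩ : Xs B c d) ≠ 0 := fun hh => p.c0 (congrArg Subtype.val hh)
  have hd0 : (⟨d, c_mem p.swap⟩ : Xs B d c) ≠ 0 := fun hh => p.d0 (congrArg Subtype.val hh)
  -- transitivity
  have tr : ∀ {X Y : Submodule ℂ W} (y : Y) (a : X), y ≠ 0 → ∃ T : Y →ₗ[ℂ] X, T y = a := by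
    intro X Y y a hy
    obtain ⟨f, hf⟩ : ∃ f : Module.Dual ℂ Y, f y ≠ 0 := by
      by_contra hh
      push Not at hh
      exact hy ((Module.forall_dual_apply_eq_zero_iff ℂ _).mp hh)
    refine ⟨((f y)⁻¹ • f).smulRight a, ?_⟩
    simp [LinearMap.smulRight_apply, hf]
  have t1 : ∀ (y : Xs B d c) (a : Xs B c d), y ≠ 0 → ∃ u, ph ta p u y = a := by
    intro y a hy
    obtain ⟨T, hT⟩ := tr y a hy
    obtain ⟨u, hu⟩ := h1.2 T
    exact ⟨u, by rw [hu, hT]⟩
  have t2 : ∀ (a : Xs B c d) (y : Xs B d c), a ≠ 0 → ∃ u, ph ta p.swap u a = y := by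
    intro a y ha
    obtain ⟨T, hT⟩ := tr a y ha
    obtain ⟨u, hu⟩ := h2.2 T
    exact ⟨u, by rw [hu, hT]⟩
  have comm : ∀ u v (y : Xs B d c), ph ta p u (ph ta p.swap v (ph ta p z y)) =
      ph ta p z (ph ta p.swap u (ph ta p v y)) := by
    intro u v y
    rw [← ph_mul, ← ph_mul, hz]
  have zinj : Function.Injective (ph ta p z) := by
    rw [injective_iff_map_eq_zero]
    intro y hy
    by_contra hne
    obtain ⟨v, hv⟩ := t1 y ⟨c, c_mem p⟩ hne
    obtain ⟨u, hu⟩ := t2 ⟨c, c_mem p⟩ y0 hc0
    have := comm u v y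
    rw [hy, hv, hu, map_zero, map_zero] at this
    exact hy0 this.symm
  have zsurj : Function.Surjective (ph ta p z) := by
    intro a
    obtain ⟨v, hv⟩ := t2 _ ⟨d, c_mem p.swap⟩ hy0
    obtain ⟨u, hu⟩ := t1 ⟨d, c_mem p.swap⟩ a hd0
    have := comm u v y0
    rw [hv, hu] at this
    exact ⟨_, this.symm⟩
  let E : Xs B d c ≃ₗ[ℂ] Xs B c d := LinearEquiv.ofBijective (ph ta p z) ⟨zinj, zsurj⟩
  have hE : ∀ y, E y = ph ta p z y := fun y => rfl
  let F : W →ₗ[ℂ] Module.End ℂ (Xs B c d) :=
    (LinearMap.lcomp ℂ (Xs B c d) (E.symm : Xs B c d →ₗ[ℂ] Xs B d c)).comp (ph ta p)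
  have hF : ∀ u a, F u a = ph ta p u (E.symm a) := fun u a => rfl
  let G : W → Module.End ℂ (Xs B c d) := fun u => (ph ta p z).comp (ph ta p.swap u)
  have hG : ∀ u a, G u a = ph ta p z (ph ta p.swap u a) := fun u a => rfl
  have Fbij : Function.Bijective F := by
    constructor
    · rw [injective_iff_map_eq_zero]
      intro u hu
      apply h1.1
      rw [map_zero]
      ext1 y
      have := congrArg (fun f => f (E y)) hu
      simp only [hF, LinearEquiv.symm_apply_apply, LinearMap.zero_apply] at this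
      rw [this]; rfl
    · intro T
      obtain ⟨u, hu⟩ := h1.2 (T.comp (E : Xs B d c →ₗ[ℂ] Xs B c d))
      refine ⟨u, ?_⟩
      ext1 a
      rw [hF, hu]; simp
  have FG : ∀ u v, F u * G v = G u * F v := by
    intro u v
    ext1 a
    rw [Module.End.mul_apply, Module.End.mul_apply, hF, hG, hG, hF]
    have e1 : E.symm (ph ta p z (ph ta p.swap v a)) = ph ta p.swap v a := by
      rw [← hE, LinearEquiv.symm_apply_apply]
    rw [e1]
    have := comm u v (E.symm a)
    rw [← hE, LinearEquiv.apply_symm_apply] at this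
    exact this
  obtain ⟨u0, hu0⟩ := Fbij.2 1
  have G1 : ∀ v, G v = G u0 * F v := by
    intro v
    rw [← FG, hu0, one_mul]
  have G2 : ∀ u, G u = F u * G u0 := by
    intro u
    rw [FG, hu0, mul_one]
  -- `G u0` is central, hence scalar
  obtain ⟨k, hk⟩ : ∃ k : ℂ, G u0 = k • 1 := by
    obtain ⟨f, hf⟩ : ∃ f : Module.Dual ℂ (Xs B c d), f ⟨c, c_mem p⟩ ≠ 0 := by
      by_contra hh
      push Not at hh
      exact hc0 ((Module.forall_dual_apply_eq_zero_iff ℂ _).mp hh)
    refine ⟨(f ⟨c, c_mem p⟩)⁻¹ * f (G u0 ⟨c, c_mem p⟩), ?_⟩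
    ext1 a
    obtain ⟨u, hu⟩ := Fbij.2 (f.smulRight a)
    have e1 := congrArg (fun T => T (⟨c, c_mem p⟩ : Xs B c d)) ((G2 u).symm.trans (G1 u))
    simp only [Module.End.mul_apply, hu, LinearMap.smulRight_apply, map_smul] at e1
    rw [LinearMap.smul_apply, Module.End.one_apply, mul_smul, e1, smul_smul, inv_mul_cancel₀ hf,
      one_smul]
  have hGk : ∀ v, G v = k • F v := by
    intro v; rw [G1, hk, smul_mul_assoc, one_mul]
  have hk0 : k ≠ 0 := by
    intro hh
    have e1 := hGk d
    rw [hh, zero_smul] at e1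
    have e2 := congrArg (fun T => T (⟨c, c_mem p⟩ : Xs B c d)) e1
    simp only [hG, LinearMap.zero_apply] at e2
    have e3 : ph ta p.swap d ⟨c, c_mem p⟩ = 0 := zinj (by rw [e2, map_zero])
    have e4 := congrArg Subtype.val e3
    rw [ph_apply, p.hd] at e4
    exact p.d0 e4
  have Fm : ∀ u v w, F (B u v w) = k • (F u * F v * F w) := by
    intro u v w
    ext1 a
    rw [hF, ph_mul]
    have e1 := congrArg (fun T => T (ph ta p w (E.symm a))) (FG u v)
    have e2 := congrArg (fun T => T (ph ta p w (E.symm a))) (congrArg (fun T => F u * T) (hGk v))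
    simp only [Module.End.mul_apply, hG] at e2
    rw [hF u, ← hE, LinearEquiv.symm_apply_apply] at e2
    rw [e2]
    simp only [LinearMap.smul_apply, Module.End.mul_apply, map_smul]
    rfl
  obtain ⟨s, hs⟩ : ∃ s : ℂ, s ^ 2 = k := IsAlgClosed.exists_pow_nat_eq k (by norm_num)
  have hs0 : s ≠ 0 := by
    intro hh; apply hk0; rw [← hs, hh]; ring
  refine ⟨s • F, ⟨?_, ?_⟩, ?_⟩
  · intro u v huv
    apply Fbij.1
    exact smul_right_injective _ hs0 huv
  · intro T
    obtain ⟨u, hu⟩ := Fbij.2 (s⁻¹ • T)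
    exact ⟨u, by rw [LinearMap.smul_apply, hu, smul_smul, mul_inv_cancel₀ hs0, one_smul]⟩
  · intro u v w
    rw [LinearMap.smul_apply, Fm, ← hs]
    simp only [LinearMap.smul_apply, smul_mul_assoc, mul_smul_comm, smul_smul]
    congr 1
    ring

end

/-! ## Span -/

section
variable {W : Type*} [AddCommGroup W] [Module ℂ W]
variable {B : W →ₗ[ℂ] W →ₗ[ℂ] W →ₗ[ℂ] W}

/-- The span of all symmetrised products. -/
def US (B : W →ₗ[ℂ] W →ₗ[ℂ] W →ₗ[ℂ] W) : Submodule ℂ W :=
  Submodule.span ℂ {w | ∃ x y z, w = D B x y z}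

lemma D_mem_US (x y z : W) : D B x y z ∈ US B := Submodule.subset_span ⟨x, y, z, rfl⟩

lemma L_US (h : Identities B) (x y : W) : US B ≤ (US B).comap (B x y) := by
  unfold US
  rw [Submodule.span_le]
  rintro _ ⟨u, w, z, rfl⟩
  change B x y (D B u w z) ∈ US B
  rw [derL' h]
  exact Submodule.add_mem _ (Submodule.sub_mem _ (D_mem_US _ _ _) (D_mem_US _ _ _))
    (D_mem_US _ _ _)

/-- Left multiplications on the quotient. -/
def ql (h : Identities B) (x y : W) : Module.End ℂ (W ⧸ US B) := (US B).mapQ (US B) (B x y) (L_US h x y)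

lemma ql_mk (h : Identities B) (x y t : W) : ql h x y (Submodule.Quotient.mk t) =
    Submodule.Quotient.mk (B x y t) := rfl

lemma ql_sq (h : Identities B) (x z y : W) : ql h x y * ql h z y = 0 := by
  ext t
  change Submodule.Quotient.mk (B x y (B z y t)) = (0 : W ⧸ US B)
  rw [Submodule.Quotient.mk_eq_zero]
  have key : (2 : ℂ) • B x y (B z y t) = D B (B z y x) y t - D B x y (D B z y t)
      + D B x y (B z y t) + (2 : ℂ) • B x y (D B z y t) - D B z y (B x y t) := by
    simp only [D_apply, map_add]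
    have e1 := h.i3 z y x t
    have e3 := h.i3 x y t z
    have e5 := h.i3 t y z x
    linear_combination (norm := module) e1 - e5 - e3
  have hm : (2 : ℂ) • B x y (B z y t) ∈ US B := by
    rw [key]
    refine Submodule.sub_mem _ (Submodule.add_mem _ (Submodule.add_mem _ (Submodule.sub_mem _
      (D_mem_US _ _ _) (D_mem_US _ _ _)) (D_mem_US _ _ _)) (Submodule.smul_mem _ _ ?_))
      (D_mem_US _ _ _)
    exact L_US h x y (D_mem_US z y t)
  have h2 : (2⁻¹ : ℂ) • ((2 : ℂ) • B x y (B z y t)) = B x y (B z y t) := by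
    rw [smul_smul]; norm_num
  rw [← h2]
  exact Submodule.smul_mem _ _ hm

lemma ql_add_left (h : Identities B) (x x' y : W) : ql h (x + x') y = ql h x y + ql h x' y := by
  ext t
  change Submodule.Quotient.mk (B (x + x') y t) = Submodule.Quotient.mk (B x y t + B x' y t)
  rw [map_add]; rfl

lemma ql_add_right (h : Identities B) (x y y' : W) : ql h x (y + y') = ql h x y + ql h x y' := by
  ext t
  change Submodule.Quotient.mk (B x (y + y') t) = Submodule.Quotient.mk (B x y t + B x y' t)
  rw [map_add]; rfl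

lemma ql_smul_right (h : Identities B) (r : ℂ) (x y : W) : ql h x (r • y) = r • ql h x y := by
  ext t
  change Submodule.Quotient.mk (B x (r • y) t) = Submodule.Quotient.mk (r • B x y t)
  rw [map_smul]; rfl

lemma ql_anti (h : Identities B) (x z y v : W) : ql h x y * ql h z v = - (ql h x v * ql h z y) := by
  have e := ql_sq h x z (y + v)
  rw [ql_add_right, ql_add_right, mul_add, add_mul, add_mul, ql_sq, ql_sq, zero_add,
    add_zero] at e
  rw [add_comm] at e
  exact eq_neg_of_add_eq_zero_left e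

/-- The span of the operators `ql x y`, `y` fixed. -/
def QE (h : Identities B) (y : W) : Submodule ℂ (Module.End ℂ (W ⧸ US B)) :=
  Submodule.span ℂ (Set.range fun x => ql h x y)

lemma QE_sq (h : Identities B) (y : W) : QE h y * QE h y = 0 := by
  unfold QE
  rw [Submodule.span_mul_span, Submodule.zero_eq_bot, Submodule.span_eq_bot]
  rintro _ ⟨_, ⟨x, rfl⟩, _, ⟨z, rfl⟩, rfl⟩
  exact ql_sq h x z y

lemma QE_comm (h : Identities B) (y v : W) : Commute (QE h y) (QE h v) := by
  have key : ∀ y v, QE h y * QE h v ≤ QE h v * QE h y := by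
    intro y v
    nth_rewrite 1 [QE, QE]
    rw [Submodule.span_mul_span, Submodule.span_le]
    rintro _ ⟨_, ⟨x, rfl⟩, _, ⟨z, rfl⟩, rfl⟩
    change ql h x y * ql h z v ∈ QE h v * QE h y
    rw [ql_anti]
    exact Submodule.neg_mem _ (Submodule.mul_mem_mul (Submodule.subset_span ⟨x, rfl⟩)
      (Submodule.subset_span ⟨z, rfl⟩))
  exact le_antisymm (key y v) (key v y)

lemma US_top [FiniteDimensional ℂ W] (h : Identities B)
    (hW : Submodule.span ℂ {w | ∃ x y z, w = B x y z} = ⊤) : US B = ⊤ := by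
  let b := Module.finBasis ℂ W
  let E : Submodule ℂ (Module.End ℂ (W ⧸ US B)) := ∑ i, QE h (b i)
  have hE : IsNilpotent E :=
    Commute.isNilpotent_sum (s := Finset.univ) (f := fun i => QE h (b i))
      (fun i _ => ⟨2, by rw [pow_two]; exact QE_sq h _⟩) (fun i j _ _ => QE_comm h _ _)
  have hmem : ∀ x y, ql h x y ∈ E := by
    intro x y
    have hy : y = ∑ i, b.repr y i • b i := (b.sum_repr y).symm
    have hsum : ∀ (s : Finset (Fin (Module.finrank ℂ W))) (c : Fin (Module.finrank ℂ W) → ℂ),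
        ql h x (∑ i ∈ s, c i • b i) = ∑ i ∈ s, c i • ql h x (b i) := by
      intro s c
      classical
      induction s using Finset.induction_on with
      | empty =>
        simp only [Finset.sum_empty]
        have := ql_smul_right h 0 x 0
        simpa using this
      | insert i s hi ih =>
        rw [Finset.sum_insert hi, Finset.sum_insert hi, ql_add_right, ql_smul_right, ih]
    rw [hy, hsum]
    refine Submodule.sum_mem _ (fun i _ => Submodule.smul_mem _ _ ?_)
    have : QE h (b i) ≤ E := by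
      have := Finset.single_le_sum (f := fun i => QE h (b i)) (fun _ _ => bot_le)
        (Finset.mem_univ i)
      exact this
    exact this (Submodule.subset_span ⟨x, rfl⟩)
  -- all vectors of the quotient lie in `E ^ N • ⊤`
  have hall : ∀ N : ℕ, Submodule.span ℂ
      {q : W ⧸ US B | ∃ T ∈ E ^ N, ∃ q', q = T q'} = ⊤ := by
    intro N
    induction N with
    | zero =>
      rw [eq_top_iff]
      intro q _
      exact Submodule.subset_span ⟨1, by rw [Submodule.pow_zero]; exact Submodule.one_le.mp le_rfl, q, rfl⟩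
    | succ N ih =>
      rw [eq_top_iff, ← ih]
      rw [Submodule.span_le]
      rintro _ ⟨T, hT, q', rfl⟩
      -- `q'` is a sum of products
      have hq : q' ∈ Submodule.span ℂ {q : W ⧸ US B | ∃ x y t, q = ql h x y t} := by
        obtain ⟨w, rfl⟩ := Submodule.Quotient.mk_surjective _ q'
        have hw : w ∈ Submodule.span ℂ {w | ∃ x y z, w = B x y z} := by rw [hW]; trivial
        refine Submodule.span_induction (p := fun w _ => (Submodule.Quotient.mk w : W ⧸ US B) ∈
          Submodule.span ℂ {q : W ⧸ US B | ∃ x y t, q = ql h x y t}) ?_ ?_ ?_ ?_ hw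
        · rintro _ ⟨x, y, z, rfl⟩
          exact Submodule.subset_span ⟨x, y, Submodule.Quotient.mk z, rfl⟩
        · exact Submodule.zero_mem _
        · intro a b _ _ ha hb
          exact Submodule.add_mem _ ha hb
        · intro r a _ ha
          exact Submodule.smul_mem _ r ha
      refine Submodule.span_induction (p := fun q _ => T q ∈ Submodule.span ℂ
        {q : W ⧸ US B | ∃ T ∈ E ^ (N + 1), ∃ q', q = T q'}) ?_ ?_ ?_ ?_ hq
      · rintro _ ⟨x, y, t, rfl⟩
        refine Submodule.subset_span ⟨T * ql h x y, ?_, t, rfl⟩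
        rw [Submodule.pow_succ]
        exact Submodule.mul_mem_mul hT (hmem x y)
      · rw [map_zero]; exact Submodule.zero_mem _
      · intro a b _ _ ha hb
        rw [map_add]; exact Submodule.add_mem _ ha hb
      · intro r a _ ha
        rw [map_smul]; exact Submodule.smul_mem _ _ ha
  obtain ⟨N, hN⟩ := hE
  have h1 := hall N
  rw [hN] at h1
  have h2 : Submodule.span ℂ {q : W ⧸ US B | ∃ T ∈ (0 : Submodule ℂ (Module.End ℂ (W ⧸ US B))),
      ∃ q', q = T q'} = ⊥ := by
    rw [Submodule.span_eq_bot]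
    rintro _ ⟨T, hT, q', rfl⟩
    rw [Submodule.zero_eq_bot, Submodule.mem_bot] at hT
    rw [hT]; rfl
  rw [h2] at h1
  rw [eq_top_iff]
  intro w _
  have : (Submodule.Quotient.mk w : W ⧸ US B) ∈ (⊥ : Submodule ℂ (W ⧸ US B)) := by
    rw [h1]; trivial
  rw [Submodule.mem_bot, Submodule.Quotient.mk_eq_zero] at this
  exact this

end

/-! ## TKK -/

section
variable {W : Type*} [AddCommGroup W] [Module ℂ W]
variable {B : W →ₗ[ℂ] W →ₗ[ℂ] W →ₗ[ℂ] W}

/-- The pair of operators `(D(x,y), -D(y,x))`. -/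
def DD (B : W →ₗ[ℂ] W →ₗ[ℂ] W →ₗ[ℂ] W) (x y : W) : Module.End ℂ W × Module.End ℂ W :=
  (D B x y, - D B y x)

lemma DD_fst (x y z : W) : (DD B x y).1 z = B x y z + B z y x := rfl

lemma DD_snd (x y z : W) : (DD B x y).2 z = - (B y x z + B z x y) := rfl

lemma DD_add_left (x x' y : W) : DD B (x + x') y = DD B x y + DD B x' y := by
  refine Prod.ext ?_ ?_
  · exact D_add_left _ _ _
  · change - D B y (x + x') = - D B y x + - D B y x'
    rw [D_add_right]; abel

lemma DD_add_right (x y y' : W) : DD B x (y + y') = DD B x y + DD B x y' := by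
  refine Prod.ext ?_ ?_
  · exact D_add_right _ _ _
  · change - D B (y + y') x = - D B y x + - D B y' x
    rw [D_add_left]; abel

lemma DD_smul_left (r : ℂ) (x y : W) : DD B (r • x) y = r • DD B x y := by
  refine Prod.ext ?_ ?_
  · exact D_smul_left _ _ _
  · change - D B y (r • x) = r • (- D B y x)
    rw [D_smul_right, smul_neg]

lemma DD_smul_right (r : ℂ) (x y : W) : DD B x (r • y) = r • DD B x y := by
  refine Prod.ext ?_ ?_
  · exact D_smul_right _ _ _
  · change - D B (r • y) x = r • (- D B y x)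
    rw [D_smul_left, smul_neg]

lemma DD_neg_left (x y : W) : DD B (-x) y = - DD B x y := by
  rw [← neg_one_smul ℂ x, DD_smul_left, neg_one_smul]

lemma DD_neg_right (x y : W) : DD B x (-y) = - DD B x y := by
  rw [← neg_one_smul ℂ y, DD_smul_right, neg_one_smul]

lemma DD_sub_left (x x' y : W) : DD B (x - x') y = DD B x y - DD B x' y := by
  rw [sub_eq_add_neg, DD_add_left, DD_neg_left, ← sub_eq_add_neg]

lemma DD_sub_right (x y y' : W) : DD B x (y - y') = DD B x y - DD B x y' := by
  rw [sub_eq_add_neg, DD_add_right, DD_neg_right, ← sub_eq_add_neg]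

/-- Inner derivation pairs. -/
def Inn (B : W →ₗ[ℂ] W →ₗ[ℂ] W →ₗ[ℂ] W) : Submodule ℂ (Module.End ℂ W × Module.End ℂ W) :=
  Submodule.span ℂ (Set.range fun q : W × W => DD B q.1 q.2)

lemma DD_mem (x y : W) : DD B x y ∈ Inn B := Submodule.subset_span ⟨(x, y), rfl⟩

lemma inn_der (h : Identities B) (φ : Module.End ℂ W × Module.End ℂ W) (hφ : φ ∈ Inn B) :
    ∀ u w z : W, φ.1 (D B u w z) = D B (φ.1 u) w z + D B u (φ.2 w) z + D B u w (φ.1 z) ∧
    φ.2 (D B u w z) = D B (φ.2 u) w z + D B u (φ.1 w) z + D B u w (φ.2 z) := by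
  refine Submodule.span_induction (p := fun φ _ => ∀ u w z : W,
    φ.1 (D B u w z) = D B (φ.1 u) w z + D B u (φ.2 w) z + D B u w (φ.1 z) ∧
    φ.2 (D B u w z) = D B (φ.2 u) w z + D B u (φ.1 w) z + D B u w (φ.2 z)) ?_ ?_ ?_ ?_ hφ
  · rintro _ ⟨⟨x, y⟩, rfl⟩ u w z
    change D B x y (D B u w z) = D B (D B x y u) w z + D B u (- D B y x w) z
        + D B u w (D B x y z) ∧ - D B y x (D B u w z) = D B (- D B y x u) w z
        + D B u (D B x y w) z + D B u w (- D B y x z)
    have e1 := jts h x y u w z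
    have e2 := jts h y x u w z
    have n1 : D B u (- D B y x w) = - D B u (D B y x w) := by
      rw [← neg_one_smul ℂ, D_smul_right, neg_one_smul]
    have n2 : D B (- D B y x u) w = - D B (D B y x u) w := by
      rw [← neg_one_smul ℂ, D_smul_left, neg_one_smul]
    constructor
    · rw [n1, e1, LinearMap.neg_apply]; abel
    · rw [n2, e2, LinearMap.neg_apply, map_neg]; abel
  · intro u w z
    simp [D_apply]
  · intro φ ψ _ _ h1 h2 u w z
    obtain ⟨a1, a2⟩ := h1 u w z
    obtain ⟨b1, b2⟩ := h2 u w z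
    simp only [Prod.fst_add, Prod.snd_add, LinearMap.add_apply, D_add_left, D_add_right, map_add,
      a1, a2, b1, b2]
    constructor <;> abel
  · intro r φ _ h1 u w z
    obtain ⟨a1, a2⟩ := h1 u w z
    simp only [Prod.smul_fst, Prod.smul_snd, LinearMap.smul_apply, D_smul_left, D_smul_right,
      map_smul, a1, a2, smul_add, and_self]

lemma inn_br (h : Identities B) (φ : Module.End ℂ W × Module.End ℂ W) (hφ : φ ∈ Inn B) (u v : W) :
    φ * DD B u v - DD B u v * φ = DD B (φ.1 u) v + DD B u (φ.2 v) := by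
  refine Prod.ext ?_ ?_
  · ext z
    have := (inn_der h φ hφ u v z).1
    change φ.1 (D B u v z) - D B u v (φ.1 z) = D B (φ.1 u) v z + D B u (φ.2 v) z
    rw [this]; abel
  · ext z
    have := (inn_der h φ hφ v u z).2
    change φ.2 (- D B v u z) - (- D B v u (φ.2 z)) = - D B v (φ.1 u) z + - D B (φ.2 v) u z
    rw [map_neg, this]; abel

lemma inn_closed (h : Identities B) (φ ψ : Module.End ℂ W × Module.End ℂ W) (hφ : φ ∈ Inn B)
    (hψ : ψ ∈ Inn B) : φ * ψ - ψ * φ ∈ Inn B := by
  refine Submodule.span_induction (p := fun ψ _ => φ * ψ - ψ * φ ∈ Inn B) ?_ ?_ ?_ ?_ hψ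
  · rintro _ ⟨⟨x, y⟩, rfl⟩
    rw [inn_br h φ hφ]
    exact Submodule.add_mem _ (DD_mem _ _) (DD_mem _ _)
  · simp
  · intro a b _ _ ha hb
    have : φ * (a + b) - (a + b) * φ = (φ * a - a * φ) + (φ * b - b * φ) := by
      rw [mul_add, add_mul]; abel
    rw [this]; exact Submodule.add_mem _ ha hb
  · intro r a _ ha
    have : φ * (r • a) - (r • a) * φ = r • (φ * a - a * φ) := by
      rw [mul_smul_comm, smul_mul_assoc, smul_sub]
    rw [this]; exact Submodule.smul_mem _ _ ha

/-- The Lie algebra `W ⊕ Inn ⊕ W`. -/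
def K (_ : Identities B) : Type _ := W × (Inn B) × W

instance (h : Identities B) : AddCommGroup (K h) := inferInstanceAs (AddCommGroup (W × (Inn B) × W))
instance (h : Identities B) : Module ℂ (K h) := inferInstanceAs (Module ℂ (W × (Inn B) × W))
instance (h : Identities B) [FiniteDimensional ℂ W] : FiniteDimensional ℂ (K h) :=
  inferInstanceAs (FiniteDimensional ℂ (W × (Inn B) × W))

/-- Bracket of inner derivation pairs. -/
def ib (h : Identities B) (φ ψ : Inn B) : Inn B :=
  ⟨φ.1 * ψ.1 - ψ.1 * φ.1, inn_closed h _ _ φ.2 ψ.2⟩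

/-- `DD` as an element of `Inn`. -/
def DDi (B : W →ₗ[ℂ] W →ₗ[ℂ] W →ₗ[ℂ] W) (x y : W) : Inn B := ⟨DD B x y, DD_mem x y⟩

/-- The bracket. -/
def br (h : Identities B) (X Y : K h) : K h :=
  (X.2.1.1.1 Y.1 - Y.2.1.1.1 X.1, ib h X.2.1 Y.2.1 + DDi B X.1 Y.2.2 - DDi B Y.1 X.2.2,
    X.2.1.1.2 Y.2.2 - Y.2.1.1.2 X.2.2)

instance (h : Identities B) : LieRing (K h) where
  bracket := br h
  add_lie X Y Z := by
    obtain ⟨a, ⟨φ, hφ⟩, b⟩ := X
    obtain ⟨a', ⟨φ', hφ'⟩, b'⟩ := Y
    obtain ⟨a'', ⟨φ'', hφ''⟩, b''⟩ := Z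
    refine Prod.ext ?_ (Prod.ext (Subtype.ext ?_) ?_)
    · change (φ + φ').1 a'' - φ''.1 (a + a') = (φ.1 a'' - φ''.1 a) + (φ'.1 a'' - φ''.1 a')
      simp only [Prod.fst_add, LinearMap.add_apply, map_add]; abel
    · change (φ + φ') * φ'' - φ'' * (φ + φ') + DD B (a + a') b'' - DD B a'' (b + b') =
        (φ * φ'' - φ'' * φ + DD B a b'' - DD B a'' b) +
        (φ' * φ'' - φ'' * φ' + DD B a' b'' - DD B a'' b')
      rw [DD_add_left, DD_add_right, add_mul, mul_add]; abel
    · change (φ + φ').2 b'' - φ''.2 (b + b') = (φ.2 b'' - φ''.2 b) + (φ'.2 b'' - φ''.2 b')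
      simp only [Prod.snd_add, LinearMap.add_apply, map_add]; abel
  lie_add X Y Z := by
    obtain ⟨a, ⟨φ, hφ⟩, b⟩ := X
    obtain ⟨a', ⟨φ', hφ'⟩, b'⟩ := Y
    obtain ⟨a'', ⟨φ'', hφ''⟩, b''⟩ := Z
    refine Prod.ext ?_ (Prod.ext (Subtype.ext ?_) ?_)
    · change φ.1 (a' + a'') - (φ' + φ'').1 a = (φ.1 a' - φ'.1 a) + (φ.1 a'' - φ''.1 a)
      simp only [Prod.fst_add, LinearMap.add_apply, map_add]; abel
    · change φ * (φ' + φ'') - (φ' + φ'') * φ + DD B a (b' + b'') - DD B (a' + a'') b =
        (φ * φ' - φ' * φ + DD B a b' - DD B a' b) +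
        (φ * φ'' - φ'' * φ + DD B a b'' - DD B a'' b)
      rw [DD_add_left, DD_add_right, add_mul, mul_add]; abel
    · change φ.2 (b' + b'') - (φ' + φ'').2 b = (φ.2 b' - φ'.2 b) + (φ.2 b'' - φ''.2 b)
      simp only [Prod.snd_add, LinearMap.add_apply, map_add]; abel
  lie_self X := by
    obtain ⟨a, ⟨φ, hφ⟩, b⟩ := X
    refine Prod.ext ?_ (Prod.ext (Subtype.ext ?_) ?_)
    · change φ.1 a - φ.1 a = 0
      abel
    · change φ * φ - φ * φ + DD B a b - DD B a b = 0
      abel
    · change φ.2 b - φ.2 b = 0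
      abel
  leibniz_lie X Y Z := by
    obtain ⟨a, ⟨φ, hφ⟩, b⟩ := X
    obtain ⟨a', ⟨φ', hφ'⟩, b'⟩ := Y
    obtain ⟨a'', ⟨φ'', hφ''⟩, b''⟩ := Z
    refine Prod.ext ?_ (Prod.ext (Subtype.ext ?_) ?_)
    · change φ.1 (φ'.1 a'' - φ''.1 a') -
          (φ' * φ'' - φ'' * φ' + DD B a' b'' - DD B a'' b').1 a =
        ((φ * φ' - φ' * φ + DD B a b' - DD B a' b).1 a'' - φ''.1 (φ.1 a' - φ'.1 a)) +
        (φ'.1 (φ.1 a'' - φ''.1 a) - (φ * φ'' - φ'' * φ + DD B a b'' - DD B a'' b).1 a')
      simp only [Prod.fst_add, Prod.fst_sub, Prod.fst_mul, LinearMap.add_apply,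
        LinearMap.sub_apply, Module.End.mul_apply, map_sub, DD_fst]
      abel
    · change φ * (φ' * φ'' - φ'' * φ' + DD B a' b'' - DD B a'' b')
          - (φ' * φ'' - φ'' * φ' + DD B a' b'' - DD B a'' b') * φ
          + DD B a (φ'.2 b'' - φ''.2 b') - DD B (φ'.1 a'' - φ''.1 a') b =
        ((φ * φ' - φ' * φ + DD B a b' - DD B a' b) * φ''
          - φ'' * (φ * φ' - φ' * φ + DD B a b' - DD B a' b)
          + DD B (φ.1 a' - φ'.1 a) b'' - DD B a'' (φ.2 b' - φ'.2 b)) +
        (φ' * (φ * φ'' - φ'' * φ + DD B a b'' - DD B a'' b)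
          - (φ * φ'' - φ'' * φ + DD B a b'' - DD B a'' b) * φ'
          + DD B a' (φ.2 b'' - φ''.2 b) - DD B (φ.1 a'' - φ''.1 a) b')
      have e1 := inn_br h φ hφ a' b''
      have e2 := inn_br h φ hφ a'' b'
      have e3 := inn_br h φ'' hφ'' a b'
      have e4 := inn_br h φ'' hφ'' a' b
      have e5 := inn_br h φ' hφ' a b''
      have e6 := inn_br h φ' hφ' a'' b
      simp only [DD_sub_left, DD_sub_right]
      linear_combination (norm := noncomm_ring) e1 - e2 + e3 - e4 - e5 + e6
    · change φ.2 (φ'.2 b'' - φ''.2 b') -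
          (φ' * φ'' - φ'' * φ' + DD B a' b'' - DD B a'' b').2 b =
        ((φ * φ' - φ' * φ + DD B a b' - DD B a' b).2 b'' - φ''.2 (φ.2 b' - φ'.2 b)) +
        (φ'.2 (φ.2 b'' - φ''.2 b) - (φ * φ'' - φ'' * φ + DD B a b'' - DD B a'' b).2 b')
      simp only [Prod.snd_add, Prod.snd_sub, Prod.snd_mul, LinearMap.add_apply,
        LinearMap.sub_apply, Module.End.mul_apply, map_sub, DD_snd]
      abel

instance (h : Identities B) : LieAlgebra ℂ (K h) where
  lie_smul r X Y := by
    obtain ⟨a, ⟨φ, hφ⟩, b⟩ := X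
    obtain ⟨a', ⟨φ', hφ'⟩, b'⟩ := Y
    refine Prod.ext ?_ (Prod.ext (Subtype.ext ?_) ?_)
    · change φ.1 (r • a') - (r • φ').1 a = r • (φ.1 a' - φ'.1 a)
      simp only [Prod.smul_fst, LinearMap.smul_apply, map_smul, smul_sub]
    · change φ * (r • φ') - (r • φ') * φ + DD B a (r • b') - DD B (r • a') b =
        r • (φ * φ' - φ' * φ + DD B a b' - DD B a' b)
      rw [DD_smul_left, DD_smul_right, mul_smul_comm, smul_mul_assoc]
      module
    · change φ.2 (r • b') - (r • φ').2 b = r • (φ.2 b' - φ'.2 b)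
      simp only [Prod.smul_snd, LinearMap.smul_apply, map_smul, smul_sub]

end

/-! ## Solv -/

section
variable {W : Type*} [AddCommGroup W] [Module ℂ W]
variable {B : W →ₗ[ℂ] W →ₗ[ℂ] W →ₗ[ℂ] W}

/-- Trace on a triple product. -/
lemma trace_three {V1 V2 V3 : Type*} [AddCommGroup V1] [Module ℂ V1] [AddCommGroup V2]
    [Module ℂ V2] [AddCommGroup V3] [Module ℂ V3] [FiniteDimensional ℂ V1]
    [FiniteDimensional ℂ V2] [FiniteDimensional ℂ V3] (T : Module.End ℂ (V1 × V2 × V3))
    (T1 : Module.End ℂ V1) (T2 : Module.End ℂ V2) (T3 : Module.End ℂ V3)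
    (h1 : ∀ a, (T (a, 0, 0)).1 = T1 a) (h2 : ∀ a, (T (0, a, 0)).2.1 = T2 a)
    (h3 : ∀ a, (T (0, 0, a)).2.2 = T3 a) :
    LinearMap.trace ℂ (V1 × V2 × V3) T = LinearMap.trace ℂ V1 T1 + LinearMap.trace ℂ V2 T2
      + LinearMap.trace ℂ V3 T3 := by
  let i1 : V1 →ₗ[ℂ] V1 × V2 × V3 := LinearMap.inl ℂ V1 (V2 × V3)
  let i2 : V2 →ₗ[ℂ] V1 × V2 × V3 := (LinearMap.inr ℂ V1 (V2 × V3)).comp (LinearMap.inl ℂ V2 V3)
  let i3 : V3 →ₗ[ℂ] V1 × V2 × V3 := (LinearMap.inr ℂ V1 (V2 × V3)).comp (LinearMap.inr ℂ V2 V3)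
  let p1 : V1 × V2 × V3 →ₗ[ℂ] V1 := LinearMap.fst ℂ V1 (V2 × V3)
  let p2 : V1 × V2 × V3 →ₗ[ℂ] V2 := (LinearMap.fst ℂ V2 V3).comp (LinearMap.snd ℂ V1 (V2 × V3))
  let p3 : V1 × V2 × V3 →ₗ[ℂ] V3 := (LinearMap.snd ℂ V2 V3).comp (LinearMap.snd ℂ V1 (V2 × V3))
  have hid : T = (T.comp i1).comp p1 + (T.comp i2).comp p2 + (T.comp i3).comp p3 := by
    apply LinearMap.ext
    rintro ⟨a, b, c⟩
    change T (a, b, c) = T (a, 0, 0) + T (0, b, 0) + T (0, 0, c)
    rw [← map_add, ← map_add]
    simp
  have e1 : p1.comp (T.comp i1) = T1 := by ext a; exact h1 a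
  have e2 : p2.comp (T.comp i2) = T2 := by ext a; exact h2 a
  have e3 : p3.comp (T.comp i3) = T3 := by ext a; exact h3 a
  nth_rewrite 1 [hid]
  rw [map_add, map_add, LinearMap.trace_comp_comm' p1, LinearMap.trace_comp_comm' p2,
    LinearMap.trace_comp_comm' p3, e1, e2, e3]

lemma DDi_add_left (x x' y : W) : DDi B (x + x') y = DDi B x y + DDi B x' y :=
  Subtype.ext (DD_add_left _ _ _)
lemma DDi_add_right (x y y' : W) : DDi B x (y + y') = DDi B x y + DDi B x y' :=
  Subtype.ext (DD_add_right _ _ _)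
lemma DDi_smul_left (r : ℂ) (x y : W) : DDi B (r • x) y = r • DDi B x y :=
  Subtype.ext (DD_smul_left _ _ _)
lemma DDi_smul_right (r : ℂ) (x y : W) : DDi B x (r • y) = r • DDi B x y :=
  Subtype.ext (DD_smul_right _ _ _)

/-- `φ ↦ φ.2 b` -/
def ev2 (B : W →ₗ[ℂ] W →ₗ[ℂ] W →ₗ[ℂ] W) (b : W) : Inn B →ₗ[ℂ] W where
  toFun φ := φ.1.2 b
  map_add' _ _ := rfl
  map_smul' _ _ := rfl

/-- `φ ↦ φ.1 a` -/
def ev1 (B : W →ₗ[ℂ] W →ₗ[ℂ] W →ₗ[ℂ] W) (b : W) : Inn B →ₗ[ℂ] W where
  toFun φ := φ.1.1 b
  map_add' _ _ := rfl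
  map_smul' _ _ := rfl

/-- `z ↦ DD a z` -/
def dr (B : W →ₗ[ℂ] W →ₗ[ℂ] W →ₗ[ℂ] W) (a : W) : W →ₗ[ℂ] Inn B where
  toFun z := DDi B a z
  map_add' _ _ := DDi_add_right _ _ _
  map_smul' _ _ := DDi_smul_right _ _ _

/-- `z ↦ DD z b` -/
def dl (B : W →ₗ[ℂ] W →ₗ[ℂ] W →ₗ[ℂ] W) (b : W) : W →ₗ[ℂ] Inn B where
  toFun z := DDi B z b
  map_add' _ _ := DDi_add_left _ _ _
  map_smul' _ _ := DDi_smul_left _ _ _

/-- Inclusion of the first component. -/
def iA (h : Identities B) : W →ₗ[ℂ] K h where
  toFun a := ((a, 0, 0) : W × Inn B × W)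
  map_add' a b := by
    refine Prod.ext rfl (Prod.ext ?_ ?_)
    · change (0 : Inn B) = 0 + 0
      simp
    · change (0 : W) = 0 + 0
      simp
  map_smul' r a := by
    refine Prod.ext rfl (Prod.ext ?_ ?_)
    · change (0 : Inn B) = r • 0
      simp
    · change (0 : W) = r • 0
      simp

/-- Inclusion of the middle component. -/
def iF (h : Identities B) : Inn B →ₗ[ℂ] K h where
  toFun a := ((0, a, 0) : W × Inn B × W)
  map_add' a b := by
    refine Prod.ext ?_ (Prod.ext rfl ?_)
    · change (0 : W) = 0 + 0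
      simp
    · change (0 : W) = 0 + 0
      simp
  map_smul' r a := by
    refine Prod.ext ?_ (Prod.ext rfl ?_)
    · change (0 : W) = r • 0
      simp
    · change (0 : W) = r • 0
      simp

/-- Inclusion of the last component. -/
def iB (h : Identities B) : W →ₗ[ℂ] K h where
  toFun a := ((0, 0, a) : W × Inn B × W)
  map_add' a b := by
    refine Prod.ext ?_ (Prod.ext ?_ rfl)
    · change (0 : W) = 0 + 0
      simp
    · change (0 : Inn B) = 0 + 0
      simp
  map_smul' r a := by
    refine Prod.ext ?_ (Prod.ext ?_ rfl)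
    · change (0 : W) = r • 0
      simp
    · change (0 : Inn B) = r • 0
      simp

lemma K_dec (h : Identities B) (X : K h) : ∃ (a : W) (φ : Inn B) (b : W),
    X = iA h a + iF h φ + iB h b := by
  obtain ⟨a, φ, b⟩ := X
  refine ⟨a, φ, b, ?_⟩
  refine Prod.ext ?_ (Prod.ext ?_ ?_)
  · change a = a + 0 + 0
    simp
  · change φ = 0 + φ + 0
    simp
  · change b = 0 + 0 + b
    simp

lemma DD_zz : DD B (0 : W) 0 = 0 := by
  rw [← zero_smul ℂ (0 : W), DD_smul_left, zero_smul]

lemma DD_z (u : W) : DD B 0 u = 0 := by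
  rw [← zero_smul ℂ (0 : W), DD_smul_left, zero_smul]

lemma DD_z' (u : W) : DD B u 0 = 0 := by
  rw [← zero_smul ℂ (0 : W), DD_smul_right, zero_smul]

lemma lie_AB (h : Identities B) (x y : W) : ⁅iA h x, iB h y⁆ = iF h (DDi B x y) := by
  refine Prod.ext ?_ (Prod.ext (Subtype.ext ?_) ?_)
  · change (0 : Module.End ℂ W) 0 - (0 : Module.End ℂ W) x = (0 : W)
    simp
  · change 0 * 0 - 0 * 0 + DD B x y - DD B 0 0 = DD B x y
    rw [DD_zz]; simp
  · change (0 : Module.End ℂ W) y - (0 : Module.End ℂ W) 0 = (0 : W)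
    simp

lemma lie_FA (h : Identities B) (φ : Inn B) (z : W) : ⁅iF h φ, iA h z⁆ = iA h (φ.1.1 z) := by
  refine Prod.ext ?_ (Prod.ext (Subtype.ext ?_) ?_)
  · change φ.1.1 z - (0 : Module.End ℂ W) 0 = φ.1.1 z
    simp
  · change φ.1 * 0 - 0 * φ.1 + DD B 0 0 - DD B z 0 = 0
    rw [DD_zz, DD_z']; simp
  · change φ.1.2 0 - (0 : Module.End ℂ W) 0 = (0 : W)
    simp

lemma kill_a [FiniteDimensional ℂ W] (h : Identities B) (a : W) (X : K h) :
    LieModule.traceForm ℂ (K h) (K h) (iA h a) X = Th B a X.2.2 := by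
  rw [LieModule.traceForm_apply_apply]
  obtain ⟨a', φ', b'⟩ := X
  have t2 : LinearMap.trace ℂ (Inn B) ((dr B (-a)).comp (ev2 B b')) =
      LinearMap.trace ℂ W (D B b' a) := by
    rw [LinearMap.trace_comp_comm']
    congr 1
    ext z
    change - D B z (-a) b' = D B b' a z
    rw [D_comm b']
    simp [D_apply, add_comm]
  have := trace_three (V1 := W) (V2 := Inn B) (V3 := W)
    ((LieModule.toEnd ℂ (K h) (K h) (iA h a)) ∘ₗ
      (LieModule.toEnd ℂ (K h) (K h) ((a', φ', b') : W × Inn B × W)))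
    (D B a b') ((dr B (-a)).comp (ev2 B b')) 0
    (by
      intro z
      change (0 : Module.End ℂ W) (φ'.1.1 z - (0 : Module.End ℂ W) a') -
        (φ'.1 * 0 - 0 * φ'.1 + DD B a' 0 - DD B z b').1 a = D B a b' z
      rw [DD_z']
      simp only [mul_zero, zero_mul, sub_self, add_zero, zero_sub, LinearMap.zero_apply,
        Prod.fst_neg, LinearMap.neg_apply, DD_fst, neg_neg]
      rw [D_apply, add_comm])
    (by
      intro ψ
      apply Subtype.ext
      change 0 * (φ'.1 * ψ.1 - ψ.1 * φ'.1 + DD B a' 0 - DD B 0 b')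
        - (φ'.1 * ψ.1 - ψ.1 * φ'.1 + DD B a' 0 - DD B 0 b') * 0
        + DD B a (φ'.1.2 0 - ψ.1.2 b') - DD B (φ'.1.1 0 - ψ.1.1 a') 0 = DD B (-a) (ψ.1.2 b')
      rw [DD_z' (φ'.1.1 0 - ψ.1.1 a')]
      simp only [mul_zero, zero_mul, sub_self, zero_sub, map_zero, DD_neg_right, zero_add,
        sub_zero, DD_neg_left])
    (by
      intro z
      change (0 : Module.End ℂ W) (φ'.1.2 z - (0 : Module.End ℂ W) b') -
        (φ'.1 * 0 - 0 * φ'.1 + DD B a' z - DD B 0 b').2 0 = 0
      simp)
  refine Eq.trans this ?_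
  rw [t2, map_zero, add_zero]; rfl

lemma kill_b [FiniteDimensional ℂ W] (h : Identities B) (b : W) (X : K h) :
    LieModule.traceForm ℂ (K h) (K h) (iB h b) X = Th B X.1 b := by
  rw [LieModule.traceForm_apply_apply]
  obtain ⟨a', φ', b'⟩ := X
  have t2 : LinearMap.trace ℂ (Inn B) ((dl B b).comp (ev1 B a')) =
      LinearMap.trace ℂ W (D B a' b) := by
    rw [LinearMap.trace_comp_comm']
    congr 1
    ext z
    change D B z b a' = D B a' b z
    rw [D_comm]
  have := trace_three (V1 := W) (V2 := Inn B) (V3 := W)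
    ((LieModule.toEnd ℂ (K h) (K h) (iB h b)) ∘ₗ
      (LieModule.toEnd ℂ (K h) (K h) ((a', φ', b') : W × Inn B × W)))
    0 ((dl B b).comp (ev1 B a')) (D B b a')
    (by
      intro z
      change (0 : Module.End ℂ W) (φ'.1.1 z - (0 : Module.End ℂ W) a') -
        (φ'.1 * 0 - 0 * φ'.1 + DD B a' 0 - DD B z b').1 0 = 0
      simp)
    (by
      intro ψ
      apply Subtype.ext
      change 0 * (φ'.1 * ψ.1 - ψ.1 * φ'.1 + DD B a' 0 - DD B 0 b')
        - (φ'.1 * ψ.1 - ψ.1 * φ'.1 + DD B a' 0 - DD B 0 b') * 0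
        + DD B 0 (φ'.1.2 0 - ψ.1.2 b') - DD B (φ'.1.1 0 - ψ.1.1 a') b = DD B (ψ.1.1 a') b
      rw [DD_z (φ'.1.2 0 - ψ.1.2 b')]
      simp only [mul_zero, zero_mul, sub_self, zero_sub, map_zero, DD_neg_left, zero_add,
        neg_neg])
    (by
      intro z
      change (0 : Module.End ℂ W) (φ'.1.2 z - (0 : Module.End ℂ W) b') -
        (φ'.1 * 0 - 0 * φ'.1 + DD B a' z - DD B 0 b').2 b = D B b a' z
      rw [DD_z]
      simp only [mul_zero, zero_mul, sub_self, zero_sub, LinearMap.zero_apply,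
        sub_zero, zero_add, DD_snd, neg_neg]
      exact add_comm _ _)
  refine Eq.trans this ?_
  rw [t2, map_zero, zero_add]; rfl

lemma kill_zero [FiniteDimensional ℂ W] (h : Identities B) (hT : ∀ u v, Th B u v = 0) :
    LieModule.traceForm ℂ (K h) (K h) = 0 := by
  have ka : ∀ (a : W) (X : K h), LieModule.traceForm ℂ (K h) (K h) (iA h a) X = 0 :=
    fun a X => by rw [kill_a, hT]
  have kb : ∀ (b : W) (X : K h), LieModule.traceForm ℂ (K h) (K h) (iB h b) X = 0 :=
    fun b X => by rw [kill_b, hT]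
  have kf : ∀ (φ : Inn B) (X : K h), LieModule.traceForm ℂ (K h) (K h) (iF h φ) X = 0 := by
    intro φ X
    obtain ⟨φ, hφ⟩ := φ
    refine Submodule.span_induction (p := fun φ hφ =>
      LieModule.traceForm ℂ (K h) (K h) (iF h ⟨φ, hφ⟩) X = 0) ?_ ?_ ?_ ?_ hφ
    · rintro _ ⟨⟨x, y⟩, rfl⟩
      change LieModule.traceForm ℂ (K h) (K h) (iF h (DDi B x y)) X = 0
      rw [← lie_AB, LieModule.traceForm_apply_lie_apply, ka]
    · have : iF h (0 : Inn B) = 0 := map_zero _
      change LieModule.traceForm ℂ (K h) (K h) (iF h 0) X = 0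
      rw [this, map_zero]; rfl
    · intro φ ψ hφ hψ h1 h2
      change LieModule.traceForm ℂ (K h) (K h)
        (iF h ((⟨φ, hφ⟩ : Inn B) + (⟨ψ, hψ⟩ : Inn B))) X = 0
      rw [map_add, map_add, LinearMap.add_apply]
      exact (congrArg₂ (· + ·) h1 h2).trans (add_zero _)
    · intro r φ hφ h1
      change LieModule.traceForm ℂ (K h) (K h) (iF h (r • (⟨φ, hφ⟩ : Inn B))) X = 0
      rw [map_smul, map_smul, LinearMap.smul_apply]
      exact (congrArg (fun t => r • t) h1).trans (smul_zero _)
  ext X Y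
  obtain ⟨a, φ, b, rfl⟩ := K_dec h X
  rw [map_add, map_add, LinearMap.add_apply, LinearMap.add_apply, ka, kb, kf]
  simp

/-- Degenerate trace form is impossible for perfect systems. -/
lemma trivial_of_Th_zero [FiniteDimensional ℂ W] (h : Identities B) (hT : ∀ u v, Th B u v = 0)
    (hU : US B = ⊤) : ∀ w : W, w = 0 := by
  have hnil := LieModule.isNilpotent_derivedSeries_of_traceForm_eq_zero (kill_zero h hT)
  obtain ⟨k, hk⟩ := (LieModule.isNilpotent_iff ℂ
    (LieAlgebra.derivedSeries ℂ (K h) 1) (K h)).mp hnil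
  have key : ∀ k : ℕ, ∀ w : W, iA h w ∈
      LieModule.lowerCentralSeries ℂ (LieAlgebra.derivedSeries ℂ (K h) 1) (K h) k := by
    intro k
    induction k with
    | zero => intro w; exact LieSubmodule.mem_top _
    | succ k ih =>
      intro w
      have hw : w ∈ US B := by rw [hU]; trivial
      refine Submodule.span_induction (p := fun w _ => iA h w ∈
        LieModule.lowerCentralSeries ℂ (LieAlgebra.derivedSeries ℂ (K h) 1) (K h) (k + 1))
        ?_ ?_ ?_ ?_ hw
      · rintro _ ⟨x, y, z, rfl⟩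
        rw [LieModule.lowerCentralSeries_succ]
        have hd : ⁅iA h x, iB h y⁆ ∈ LieAlgebra.derivedSeries ℂ (K h) 1 := by
          rw [LieAlgebra.derivedSeries_def, LieAlgebra.derivedSeriesOfIdeal_succ,
            LieAlgebra.derivedSeriesOfIdeal_zero]
          exact LieSubmodule.lie_mem_lie (LieSubmodule.mem_top _) (LieSubmodule.mem_top _)
        have he : iA h (D B x y z) =
            ⁅(⟨_, hd⟩ : LieAlgebra.derivedSeries ℂ (K h) 1), iA h z⁆ := by
          change iA h (D B x y z) = ⁅⁅iA h x, iB h y⁆, iA h z⁆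
          rw [lie_AB, lie_FA]; rfl
        rw [he]
        exact LieSubmodule.lie_mem_lie (LieSubmodule.mem_top _) (ih z)
      · rw [map_zero]; exact Submodule.zero_mem _
      · intro a b _ _ h1 h2
        rw [map_add]; exact Submodule.add_mem _ h1 h2
      · intro r a _ h1
        rw [map_smul]; exact Submodule.smul_mem _ r h1
  intro w
  have h1 := key k w
  rw [hk, LieSubmodule.mem_bot] at h1
  exact congrArg Prod.fst h1

/-- For a simple system the trace form is nondegenerate. -/
theorem nondeg_of_simple [FiniteDimensional ℂ W] (h : Identities B) (hs : IsSimpleTriple B) :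
    ∀ u, (∀ v, Th B u v = 0) → u = 0 := by
  let I : Submodule ℂ W :=
    { carrier := {u | ∀ v, Th B u v = 0}
      add_mem' := fun {a b} ha hb v => by rw [Th_add_left, ha, hb, add_zero]
      zero_mem' := fun v => by rw [← zero_smul ℂ v, Th_smul_left]; simp
      smul_mem' := fun r a ha v => by rw [Th_smul_left, ha, mul_zero] }
  have hI : IsTripleIdeal B I := by
    intro u hu y z
    refine ⟨fun v => ?_, fun v => ?_, fun v => ?_⟩
    · rw [Th_cyc h]; exact hu _
    · rw [Th_cyc h, Th_symm, Th_cyc h]; exact hu _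
    · rw [Th_cyc' h]; exact hu _
  rcases hs.2 I hI with h1 | h1
  · intro u hu
    have : u ∈ I := hu
    rw [h1] at this
    exact this
  · exfalso
    have hT : ∀ u v, Th B u v = 0 := by
      intro u
      have : u ∈ I := by rw [h1]; trivial
      exact this
    -- the span of all products is everything
    have hspan : Submodule.span ℂ {w | ∃ x y z, w = B x y z} = ⊤ := by
      rcases hs.2 (Submodule.span ℂ {w | ∃ x y z, w = B x y z})
        (fun x _ y z => ⟨Submodule.subset_span ⟨_, _, _, rfl⟩, Submodule.subset_span ⟨_, _, _, rfl⟩,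
          Submodule.subset_span ⟨_, _, _, rfl⟩⟩) with h2 | h2
      · exfalso
        apply hs.1
        ext x y z
        have : B x y z ∈ Submodule.span ℂ {w | ∃ x y z, w = B x y z} :=
          Submodule.subset_span ⟨_, _, _, rfl⟩
        rw [h2, Submodule.mem_bot] at this
        rw [this]; rfl
      · exact h2
    have htriv := trivial_of_Th_zero h hT (US_top h hspan)
    apply hs.1
    ext x y z
    exact htriv _

end

/-! ## Final -/

section
section transfer
variable {W : Type u} {W' : Type v} [AddCommGroup W] [Module ℂ W] [AddCommGroup W'] [Module ℂ W']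
variable {B : W →ₗ[ℂ] W →ₗ[ℂ] W →ₗ[ℂ] W} {B' : W' →ₗ[ℂ] W' →ₗ[ℂ] W' →ₗ[ℂ] W'}

lemma ax_of_iso (hi : TripleIso B B') (h : Identities B') : Identities B := by
  obtain ⟨φ, hφ⟩ := hi
  constructor
  · intro x y v u
    apply φ.injective
    simp only [hφ]; exact h.i1 _ _ _ _
  · intro x y z v
    apply φ.injective
    simp only [hφ]; exact h.i2 _ _ _ _
  · intro x y z v
    apply φ.injective
    simp only [hφ]; exact h.i3 _ _ _ _

lemma simple_of_iso (hi : TripleIso B B') (h : IsSimpleTriple B') : IsSimpleTriple B := by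
  obtain ⟨φ, hφ⟩ := hi
  constructor
  · intro hB
    apply h.1
    ext x y z
    have := hφ (φ.symm x) (φ.symm y) (φ.symm z)
    rw [hB] at this
    simp only [LinearMap.zero_apply, map_zero, LinearEquiv.apply_symm_apply] at this
    rw [← this]; rfl
  · intro I hI
    have hI' : IsTripleIdeal B' (I.map (φ : W →ₗ[ℂ] W')) := by
      rintro _ ⟨x, hx, rfl⟩ y z
      obtain ⟨h1, h2, h3⟩ := hI x hx (φ.symm y) (φ.symm z)
      refine ⟨⟨_, h1, ?_⟩, ⟨_, h2, ?_⟩, ⟨_, h3, ?_⟩⟩ <;>
      · simp only [LinearEquiv.coe_coe, hφ, LinearEquiv.apply_symm_apply]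
    rcases h.2 _ hI' with h1 | h1
    · left
      rw [Submodule.eq_bot_iff]
      intro w hw
      have : φ w ∈ I.map (φ : W →ₗ[ℂ] W') := ⟨w, hw, rfl⟩
      rw [h1, Submodule.mem_bot] at this
      exact φ.injective (by rw [this, map_zero])
    · right
      rw [eq_top_iff]
      intro w _
      have : φ w ∈ I.map (φ : W →ₗ[ℂ] W') := by rw [h1]; trivial
      obtain ⟨v, hv, hvw⟩ := this
      rw [← φ.injective hvw]; exact hv

lemma TripleIso.symm (hi : TripleIso B B') : TripleIso B' B := by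
  obtain ⟨φ, hφ⟩ := hi
  refine ⟨φ.symm, fun x y z => ?_⟩
  apply φ.injective
  rw [hφ]; simp

/-- The dimension of the span of all left multiplications. -/
noncomputable def ldim (B : W →ₗ[ℂ] W →ₗ[ℂ] W →ₗ[ℂ] W) : ℕ :=
  Module.finrank ℂ (Submodule.span ℂ (Set.range fun q : W × W => (B q.1 q.2 : Module.End ℂ W)))

lemma ldim_iso (hi : TripleIso B B') : ldim B = ldim B' := by
  obtain ⟨φ, hφ⟩ := hi
  unfold ldim
  have : (Submodule.span ℂ (Set.range fun q : W × W => (B q.1 q.2 : Module.End ℂ W))).map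
      (φ.conj : Module.End ℂ W →ₗ[ℂ] Module.End ℂ W') =
      Submodule.span ℂ (Set.range fun q : W' × W' => (B' q.1 q.2 : Module.End ℂ W')) := by
    rw [Submodule.map_span]
    congr 1
    ext T
    constructor
    · rintro ⟨_, ⟨⟨x, y⟩, rfl⟩, rfl⟩
      refine ⟨(φ x, φ y), ?_⟩
      apply LinearMap.ext
      intro z
      simp only [LinearEquiv.coe_coe, LinearEquiv.conj_apply_apply, hφ,
        LinearEquiv.apply_symm_apply]
    · rintro ⟨⟨x, y⟩, rfl⟩
      refine ⟨_, ⟨(φ.symm x, φ.symm y), rfl⟩, ?_⟩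
      apply LinearMap.ext
      intro z
      simp only [LinearEquiv.coe_coe, LinearEquiv.conj_apply_apply, hφ,
        LinearEquiv.apply_symm_apply]
  rw [← this]
  exact (LinearEquiv.finrank_map_eq φ.conj _).symm

lemma finrank_iso (hi : TripleIso B B') : Module.finrank ℂ W = Module.finrank ℂ W' := by
  obtain ⟨φ, _⟩ := hi
  exact φ.finrank_eq

end transfer

/-! ### The models -/

lemma mat_ax (n : ℕ) : Identities (matTriple n) := by
  constructor <;> intros <;> simp only [matTriple_apply, mul_assoc]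

lemma pair_ax (p q : ℕ) : Identities (pairTriple p q) := by
  constructor <;> intros <;> simp only [pairTriple_apply, Matrix.mul_assoc]

lemma mat_simple (n : ℕ) (hn : 1 ≤ n) : IsSimpleTriple (matTriple n) := by
  have : NeZero n := ⟨by omega⟩
  constructor
  · intro h
    have := congrArg (fun f => f 1 1 1) h
    simp only [matTriple_apply, mul_one, LinearMap.zero_apply] at this
    exact one_ne_zero this
  · intro I hI
    by_cases hbot : I = ⊥
    · exact Or.inl hbot
    right
    obtain ⟨x, hx, hx0⟩ := Submodule.exists_mem_ne_zero_of_ne_bot hbot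
    obtain ⟨i, j, hij⟩ : ∃ i j, x i j ≠ 0 := by
      by_contra hh
      push Not at hh
      exact hx0 (Matrix.ext hh)
    rw [eq_top_iff]
    intro y _
    rw [Matrix.matrix_eq_sum_single y]
    refine Submodule.sum_mem _ (fun k _ => Submodule.sum_mem _ (fun l _ => ?_))
    have h1 : Matrix.single k i (1 : ℂ) * x * Matrix.single j l (1 : ℂ) ∈ I := by
      have := (hI x hx (Matrix.single k i (1 : ℂ)) (Matrix.single j l (1 : ℂ))).2.1
      rwa [matTriple_apply] at this
    rw [Matrix.single_mul_mul_single] at h1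
    have h2 := Submodule.smul_mem I (y k l * (x i j)⁻¹) h1
    rw [Matrix.smul_single] at h2
    simp only [one_mul, mul_one, smul_eq_mul] at h2
    rwa [mul_assoc, inv_mul_cancel₀ hij, mul_one] at h2

lemma pair_simple (p q : ℕ) (hp : 1 ≤ p) (hq : 1 ≤ q) : IsSimpleTriple (pairTriple p q) := by
  have : NeZero p := ⟨by omega⟩
  have : NeZero q := ⟨by omega⟩
  constructor
  · intro h
    have := congrArg (fun f => (f ((Matrix.single 0 0 1, 0) : PairSpace p q)
      ((0, Matrix.single 0 0 1) : PairSpace p q) ((Matrix.single 0 0 1, 0) : PairSpace p q)).1 0 0) h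
    simp [pairTriple_apply] at this
  · intro I hI
    by_cases hbot : I = ⊥
    · exact Or.inl hbot
    right
    -- if a first component is present, everything is
    have key1 : ∀ x ∈ I, x.1 ≠ 0 → ∀ k l, ((Matrix.single k l (1 : ℂ), 0) : PairSpace p q) ∈ I := by
      intro x hx hx0 k l
      obtain ⟨i, j, hij⟩ : ∃ i j, x.1 i j ≠ 0 := by
        by_contra hh
        push Not at hh
        exact hx0 (Matrix.ext hh)
      have h1 := (hI x hx ((Matrix.single k 0 1, 0) : PairSpace p q)
        ((0, Matrix.single 0 i 1) : PairSpace p q)).2.2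
      have h2 := (hI _ h1 ((0, Matrix.single j 0 1) : PairSpace p q)
        ((Matrix.single 0 l 1, 0) : PairSpace p q)).1
      have h3 := Submodule.smul_mem I ((x.1 i j)⁻¹) h2
      have e : (x.1 i j)⁻¹ • (pairTriple p q (pairTriple p q ((Matrix.single k 0 1, 0) : PairSpace p q)
        ((0, Matrix.single 0 i 1) : PairSpace p q) x) ((0, Matrix.single j 0 1) : PairSpace p q)
        ((Matrix.single 0 l 1, 0) : PairSpace p q)) =
        ((Matrix.single k l (1 : ℂ), 0) : PairSpace p q) := by
        simp only [pairTriple_apply, Matrix.single_mul_single_same, mul_one, Matrix.zero_mul,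
          Matrix.mul_zero, Prod.smul_mk, smul_zero]
        refine Prod.ext ?_ rfl
        change (x.1 i j)⁻¹ • (Matrix.single k i 1 * x.1 * Matrix.single j 0 1 *
          Matrix.single 0 l 1) = Matrix.single k l 1
        rw [Matrix.single_mul_mul_single, Matrix.single_mul_single_same, Matrix.smul_single]
        simp [hij]
      rwa [e] at h3
    have key2 : ∀ x ∈ I, x.2 ≠ 0 → ∀ k l, ((0, Matrix.single k l (1 : ℂ)) : PairSpace p q) ∈ I := by
      intro x hx hx0 k l
      obtain ⟨i, j, hij⟩ : ∃ i j, x.2 i j ≠ 0 := by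
        by_contra hh
        push Not at hh
        exact hx0 (Matrix.ext hh)
      have h1 := (hI x hx ((0, Matrix.single k 0 1) : PairSpace p q)
        ((Matrix.single 0 i 1, 0) : PairSpace p q)).2.2
      have h2 := (hI _ h1 ((Matrix.single j 0 1, 0) : PairSpace p q)
        ((0, Matrix.single 0 l 1) : PairSpace p q)).1
      have h3 := Submodule.smul_mem I ((x.2 i j)⁻¹) h2
      have e : (x.2 i j)⁻¹ • (pairTriple p q (pairTriple p q ((0, Matrix.single k 0 1) : PairSpace p q)
        ((Matrix.single 0 i 1, 0) : PairSpace p q) x) ((Matrix.single j 0 1, 0) : PairSpace p q)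
        ((0, Matrix.single 0 l 1) : PairSpace p q)) =
        ((0, Matrix.single k l (1 : ℂ)) : PairSpace p q) := by
        simp only [pairTriple_apply, Matrix.single_mul_single_same, mul_one, Matrix.zero_mul,
          Matrix.mul_zero, Prod.smul_mk, smul_zero]
        refine Prod.ext rfl ?_
        change (x.2 i j)⁻¹ • (Matrix.single k i 1 * x.2 * Matrix.single j 0 1 *
          Matrix.single 0 l 1) = Matrix.single k l 1
        rw [Matrix.single_mul_mul_single, Matrix.single_mul_single_same, Matrix.smul_single]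
        simp [hij]
      rwa [e] at h3
    obtain ⟨x, hx, hx0⟩ := Submodule.exists_mem_ne_zero_of_ne_bot hbot
    -- both kinds of elements are present
    have both : (∃ x ∈ I, x.1 ≠ 0) ∧ (∃ x ∈ I, x.2 ≠ 0) := by
      have s1 : Matrix.single (0 : Fin p) (0 : Fin q) (1 : ℂ) ≠ 0 := by
        intro hh
        have := congrFun (congrFun hh 0) 0
        simp at this
      have s2 : Matrix.single (0 : Fin q) (0 : Fin p) (1 : ℂ) ≠ 0 := by
        intro hh
        have := congrFun (congrFun hh 0) 0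
        simp at this
      by_cases h1 : x.1 = 0
      · have h2 : x.2 ≠ 0 := fun hh => hx0 (Prod.ext h1 hh)
        refine ⟨?_, x, hx, h2⟩
        have h3 := key2 x hx h2 0 0
        have h4 := (hI _ h3 ((Matrix.single 0 0 1, 0) : PairSpace p q)
          ((Matrix.single 0 0 1, 0) : PairSpace p q)).2.1
        refine ⟨_, h4, ?_⟩
        simp only [pairTriple_apply, Matrix.single_mul_single_same, mul_one]
        exact s1
      · refine ⟨⟨x, hx, h1⟩, ?_⟩
        have h3 := key1 x hx h1 0 0
        have h4 := (hI _ h3 ((0, Matrix.single 0 0 1) : PairSpace p q)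
          ((0, Matrix.single 0 0 1) : PairSpace p q)).2.1
        refine ⟨_, h4, ?_⟩
        simp only [pairTriple_apply, Matrix.single_mul_single_same, mul_one]
        exact s2
    obtain ⟨⟨x1, hx1, hx10⟩, ⟨x2, hx2, hx20⟩⟩ := both
    rw [eq_top_iff]
    rintro ⟨y, y'⟩ _
    have e : ((y, y') : PairSpace p q) =
        ∑ k, ∑ l, y k l • ((Matrix.single k l (1 : ℂ), 0) : PairSpace p q) +
        ∑ k, ∑ l, y' k l • ((0, Matrix.single k l (1 : ℂ)) : PairSpace p q) := by
      refine Prod.ext ?_ ?_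
      · simp only [Prod.fst_add, Prod.fst_sum, Prod.smul_fst, smul_zero, Finset.sum_const_zero,
          add_zero, Matrix.smul_single, smul_eq_mul, mul_one]
        exact Matrix.matrix_eq_sum_single y
      · simp only [Prod.snd_add, Prod.snd_sum, Prod.smul_snd, smul_zero, Finset.sum_const_zero,
          zero_add, Matrix.smul_single, smul_eq_mul, mul_one]
        exact Matrix.matrix_eq_sum_single y'
    rw [e]
    refine Submodule.add_mem _ ?_ ?_
    · exact Submodule.sum_mem _ (fun k _ => Submodule.sum_mem _ (fun l _ =>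
        Submodule.smul_mem _ _ (key1 x1 hx1 hx10 k l)))
    · exact Submodule.sum_mem _ (fun k _ => Submodule.sum_mem _ (fun l _ =>
        Submodule.smul_mem _ _ (key2 x2 hx2 hx20 k l)))

/-! ### Dimensions -/

lemma mat_ldim (n : ℕ) : ldim (matTriple n) = n * n := by
  have h1 : Submodule.span ℂ (Set.range fun q : Matrix (Fin n) (Fin n) ℂ ×
      Matrix (Fin n) (Fin n) ℂ => (matTriple n q.1 q.2 : Module.End ℂ (Matrix (Fin n) (Fin n) ℂ)))
      = LinearMap.range (LinearMap.mul ℂ (Matrix (Fin n) (Fin n) ℂ)) := by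
    apply le_antisymm
    · rw [Submodule.span_le]
      rintro _ ⟨⟨x, y⟩, rfl⟩
      refine ⟨x * y, ?_⟩
      apply LinearMap.ext; intro z
      rfl
    · rintro _ ⟨A, rfl⟩
      apply Submodule.subset_span
      refine ⟨(A, 1), ?_⟩
      apply LinearMap.ext; intro z
      change A * 1 * z = A * z
      rw [mul_one]
  unfold ldim
  rw [h1, LinearMap.finrank_range_of_inj]
  · rw [Module.finrank_matrix]; simp
  · intro A A' hA
    have := congrArg (fun f => f 1) hA
    simpa using this

/-- Simultaneous left multiplications. -/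
def lam (p q : ℕ) : (Matrix (Fin p) (Fin p) ℂ × Matrix (Fin q) (Fin q) ℂ) →ₗ[ℂ]
    Module.End ℂ (PairSpace p q) where
  toFun A :=
    { toFun := fun Z => (A.1 * Z.1, A.2 * Z.2)
      map_add' := fun Z Z' => by
        simp only [Prod.fst_add, Prod.snd_add, Matrix.mul_add, Prod.mk_add_mk]
      map_smul' := fun c Z => by
        simp only [Prod.smul_fst, Prod.smul_snd, Matrix.mul_smul, Prod.smul_mk,
          RingHom.id_apply] }
  map_add' A A' := by
    apply LinearMap.ext; intro Z
    simp only [LinearMap.coe_mk, AddHom.coe_mk, LinearMap.add_apply, Prod.fst_add,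
      Prod.snd_add, Matrix.add_mul, Prod.mk_add_mk]
  map_smul' c A := by
    apply LinearMap.ext; intro Z
    simp only [LinearMap.coe_mk, AddHom.coe_mk, LinearMap.smul_apply, Prod.smul_fst,
      Prod.smul_snd, Matrix.smul_mul, Prod.smul_mk, RingHom.id_apply]

lemma lam_apply (p q : ℕ) (A : Matrix (Fin p) (Fin p) ℂ × Matrix (Fin q) (Fin q) ℂ)
    (Z : PairSpace p q) : lam p q A Z = (A.1 * Z.1, A.2 * Z.2) := rfl

lemma pair_ldim (p q : ℕ) (hp : 1 ≤ p) (hq : 1 ≤ q) : ldim (pairTriple p q) = p * p + q * q := by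
  have : NeZero p := ⟨by omega⟩
  have : NeZero q := ⟨by omega⟩
  have h1 : Submodule.span ℂ (Set.range fun r : PairSpace p q × PairSpace p q =>
      (pairTriple p q r.1 r.2 : Module.End ℂ (PairSpace p q))) = LinearMap.range (lam p q) := by
    apply le_antisymm
    · rw [Submodule.span_le]
      rintro _ ⟨⟨x, y⟩, rfl⟩
      exact ⟨(x.1 * y.2, x.2 * y.1), rfl⟩
    · rintro _ ⟨⟨A, C⟩, rfl⟩
      have e : ((A, C) : Matrix (Fin p) (Fin p) ℂ × Matrix (Fin q) (Fin q) ℂ) =
          ∑ k, ∑ l, A k l • ((Matrix.single k l (1 : ℂ), 0) :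
            Matrix (Fin p) (Fin p) ℂ × Matrix (Fin q) (Fin q) ℂ) +
          ∑ k, ∑ l, C k l • ((0, Matrix.single k l (1 : ℂ)) :
            Matrix (Fin p) (Fin p) ℂ × Matrix (Fin q) (Fin q) ℂ) := by
        refine Prod.ext ?_ ?_
        · simp only [Prod.fst_add, Prod.fst_sum, Prod.smul_fst, smul_zero, Finset.sum_const_zero,
            add_zero, Matrix.smul_single, smul_eq_mul, mul_one]
          exact Matrix.matrix_eq_sum_single A
        · simp only [Prod.snd_add, Prod.snd_sum, Prod.smul_snd, smul_zero, Finset.sum_const_zero,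
            zero_add, Matrix.smul_single, smul_eq_mul, mul_one]
          exact Matrix.matrix_eq_sum_single C
      rw [e, map_add]
      simp only [map_sum, map_smul]
      refine Submodule.add_mem _ ?_ ?_
      · refine Submodule.sum_mem _ (fun k _ => Submodule.sum_mem _ (fun l _ =>
          Submodule.smul_mem _ _ (Submodule.subset_span ?_)))
        refine ⟨(((Matrix.single k 0 1, 0) : PairSpace p q),
          ((0, Matrix.single 0 l 1) : PairSpace p q)), ?_⟩
        apply LinearMap.ext; intro z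
        simp only [pairTriple_apply, lam_apply, Matrix.single_mul_single_same, mul_one,
          Matrix.zero_mul]
      · refine Submodule.sum_mem _ (fun k _ => Submodule.sum_mem _ (fun l _ =>
          Submodule.smul_mem _ _ (Submodule.subset_span ?_)))
        refine ⟨(((0, Matrix.single k 0 1) : PairSpace p q),
          ((Matrix.single 0 l 1, 0) : PairSpace p q)), ?_⟩
        apply LinearMap.ext; intro z
        simp only [pairTriple_apply, lam_apply, Matrix.single_mul_single_same, mul_one,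
          Matrix.zero_mul]
  unfold ldim
  rw [h1, LinearMap.finrank_range_of_inj]
  · rw [Module.finrank_prod, Module.finrank_matrix, Module.finrank_matrix]; simp
  · rw [injective_iff_map_eq_zero]
    rintro ⟨A, C⟩ hA
    refine Prod.ext ?_ ?_
    · ext i j
      have := congrArg (fun f => (f ((Matrix.single j 0 1, 0) : PairSpace p q)).1 i 0) hA
      simpa [lam_apply] using this
    · ext i j
      have := congrArg (fun f => (f ((0, Matrix.single j 0 1) : PairSpace p q)).2 i 0) hA
      simpa [lam_apply] using this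

lemma mat_dim (n : ℕ) : Module.finrank ℂ (Matrix (Fin n) (Fin n) ℂ) = n * n := by
  rw [Module.finrank_matrix]; simp

lemma pair_dim (p q : ℕ) : Module.finrank ℂ (PairSpace p q) = 2 * (p * q) := by
  rw [Module.finrank_prod, Module.finrank_matrix, Module.finrank_matrix]; simp; ring

lemma mat_unique {n m : ℕ} (hi : TripleIso (matTriple n) (matTriple m)) : n = m := by
  have := finrank_iso hi
  rw [mat_dim, mat_dim] at this
  exact Nat.mul_self_inj.mp this

lemma pair_unique {p q p' q' : ℕ} (hp : 1 ≤ p) (hq : p ≤ q) (hp' : 1 ≤ p') (hq' : p' ≤ q')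
    (hi : TripleIso (pairTriple p q) (pairTriple p' q')) : p = p' ∧ q = q' := by
  have h1 := finrank_iso hi
  have h2 := ldim_iso hi
  rw [pair_dim, pair_dim] at h1
  rw [pair_ldim p q hp (hp.trans hq), pair_ldim p' q' hp' (hp'.trans hq')] at h2
  have h3 : (p + q) * (p + q) = (p' + q') * (p' + q') := by nlinarith
  have h4 : p + q = p' + q' := Nat.mul_self_inj.mp h3
  obtain ⟨r, rfl⟩ := Nat.exists_eq_add_of_le hq
  obtain ⟨s, rfl⟩ := Nat.exists_eq_add_of_le hq'
  have h5 : r * r = s * s := by nlinarith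
  have h6 : r = s := Nat.mul_self_inj.mp h5
  omega

lemma mat_pair_distinct {n p q : ℕ} (hp : 1 ≤ p) (hq : 1 ≤ q) :
    ¬ TripleIso (matTriple n) (pairTriple p q) := by
  intro hi
  have h1 := finrank_iso hi
  have h2 := ldim_iso hi
  rw [mat_dim, pair_dim] at h1
  rw [mat_ldim, pair_ldim p q hp hq] at h2
  have h3 : p = q := by
    have : (p : ℤ) * p + q * q = 2 * (p * q) := by exact_mod_cast (h2.symm.trans h1)
    have h4 : ((p : ℤ) - q) ^ 2 = 0 := by linear_combination this
    have h5 : (p : ℤ) - q = 0 := by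
      exact pow_eq_zero_iff (two_ne_zero) |>.mp h4
    exact_mod_cast sub_eq_zero.mp h5
  subst h3
  -- `n² = 2 p²`
  have h6 : n * n = 2 * (p * p) := h1
  have : Irrational (Real.sqrt 2) := irrational_sqrt_two
  apply this
  refine ⟨(n : ℚ) / p, ?_⟩
  have hp0 : (p : ℝ) ≠ 0 := by positivity
  push_cast
  symm
  rw [Real.sqrt_eq_iff_mul_self_eq (by norm_num) (by positivity)]
  have h7 : (n : ℝ) * n = 2 * (p * p) := by exact_mod_cast h6
  field_simp
  linarith [h7]

lemma pair_swap (p q : ℕ) : TripleIso (pairTriple p q) (pairTriple q p) := by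
  refine ⟨LinearEquiv.prodComm ℂ _ _, fun x y z => ?_⟩
  rfl

section forward
variable {W : Type u} [AddCommGroup W] [Module ℂ W] [FiniteDimensional ℂ W]
variable {B : W →ₗ[ℂ] W →ₗ[ℂ] W →ₗ[ℂ] W}

lemma forward (hs : IsSimpleTriple B) (h : Identities B) :
    (∃ n : ℕ, 1 ≤ n ∧ TripleIso B (matTriple n)) ∨
    (∃ p q : ℕ, 1 ≤ p ∧ p ≤ q ∧ TripleIso B (pairTriple p q)) := by
  have hnd := nondeg_of_simple h hs
  have ta : TA B := ⟨fun x y z u v => (total_assoc h hnd x y z u v).1,
    fun x y z u v => (total_assoc h hnd x y z u v).2⟩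
  have hW : ∃ w : W, w ≠ 0 := by
    by_contra hh
    push Not at hh
    apply hs.1
    ext x y z
    exact hh _
  obtain ⟨c, d, p⟩ := exists_prim h ta hnd hW
  have hX : 1 ≤ Module.finrank ℂ (Xs B c d) := by
    have : Nontrivial (Xs B c d) :=
      ⟨⟨c, c_mem p⟩, 0, fun hh => p.c0 (congrArg Subtype.val hh)⟩
    exact Module.finrank_pos
  have hY : 1 ≤ Module.finrank ℂ (Xs B d c) := by
    have : Nontrivial (Xs B d c) :=
      ⟨⟨d, c_mem p.swap⟩, 0, fun hh => p.d0 (congrArg Subtype.val hh)⟩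
    exact Module.finrank_pos
  let bX := Module.finBasis ℂ (Xs B c d)
  let bY := Module.finBasis ℂ (Xs B d c)
  rcases ker_sup ta hs p with hk | hk
  · left
    have k1 : LinearMap.ker (ph ta p) = ⊥ := by
      rw [eq_bot_iff, ← hk]; exact le_sup_left
    have k2 : LinearMap.ker (ph ta p.swap) = ⊥ := by
      rw [eq_bot_iff, ← hk]; exact le_sup_right
    obtain ⟨F, hF, hFm⟩ := full_case h ta hnd p
      ⟨LinearMap.ker_eq_bot.mp k1, ph_surj h ta hnd p⟩
      ⟨LinearMap.ker_eq_bot.mp k2, ph_surj h ta hnd p.swap⟩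
    refine ⟨_, hX, (LinearEquiv.ofBijective F hF).trans (LinearMap.toMatrix bX bX), ?_⟩
    intro x y z
    simp only [LinearEquiv.trans_apply, LinearEquiv.ofBijective_apply, hFm, matTriple_apply]
    rw [LinearMap.toMatrix_mul, LinearMap.toMatrix_mul]
  · right
    have hb := pair_case h ta hnd hs p hk
    have hiso : TripleIso B (pairTriple (Module.finrank ℂ (Xs B c d))
        (Module.finrank ℂ (Xs B d c))) := by
      refine ⟨(LinearEquiv.ofBijective _ hb).trans
        ((LinearMap.toMatrix bY bX).prodCongr (LinearMap.toMatrix bX bY)), ?_⟩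
      intro x y z
      have e : ∀ w, ((LinearEquiv.ofBijective _ hb).trans
          ((LinearMap.toMatrix bY bX).prodCongr (LinearMap.toMatrix bX bY))) w =
          (LinearMap.toMatrix bY bX (ph ta p w), LinearMap.toMatrix bX bY (ph ta p.swap w)) :=
        fun w => rfl
      have m1 : ph ta p (B x y z) = (ph ta p x ∘ₗ ph ta p.swap y) ∘ₗ ph ta p z := by
        ext1 t; rw [ph_mul]; rfl
      have m2 : ph ta p.swap (B x y z) = (ph ta p.swap x ∘ₗ ph ta p y) ∘ₗ ph ta p.swap z := by
        ext1 t; rw [ph_mul]; rfl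
      rw [e, e, e, e, pairTriple_apply, m1, m2]
      simp only
      rw [LinearMap.toMatrix_comp bY bX bX, LinearMap.toMatrix_comp bX bY bX,
        LinearMap.toMatrix_comp bX bY bY, LinearMap.toMatrix_comp bY bX bY]
    rcases le_total (Module.finrank ℂ (Xs B c d)) (Module.finrank ℂ (Xs B d c)) with hle | hle
    · exact ⟨_, _, hX, hle, hiso⟩
    · refine ⟨_, _, hY, hle, ?_⟩
      obtain ⟨φ, hφ⟩ := hiso
      obtain ⟨ψ, hψ⟩ := pair_swap (Module.finrank ℂ (Xs B c d)) (Module.finrank ℂ (Xs B d c))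
      exact ⟨φ.trans ψ, fun x y z => by
        simp only [LinearEquiv.trans_apply, hφ, hψ]⟩

end forward

lemma tr_fails (r s : ℕ) (hr : 1 ≤ r) (hs : 1 ≤ s) (h : Identities (trTriple r s)) : r = 1 ∧ s = 1 := by
  have : NeZero r := ⟨by omega⟩
  have : NeZero s := ⟨by omega⟩
  constructor
  · by_contra hne
    have h2 : 1 < r := by omega
    have h01 : (0 : Fin r) ≠ ⟨1, h2⟩ := by
      intro hh; have := congrArg Fin.val hh; simp at this
    have := congrArg (fun M => M 0 0) (h.i1 (Matrix.single 0 0 1) (Matrix.single 0 0 1)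
      (Matrix.single ⟨1, h2⟩ 0 1) (Matrix.single ⟨1, h2⟩ 0 1))
    simp [trTriple_apply, Matrix.transpose_single, h01] at this
  · by_contra hne
    have h2 : 1 < s := by omega
    have h01 : (0 : Fin s) ≠ ⟨1, h2⟩ := by
      intro hh; have := congrArg Fin.val hh; simp at this
    have := congrArg (fun M => M 0 ⟨1, h2⟩) (h.i2 (Matrix.single 0 0 1)
      (Matrix.single 0 ⟨1, h2⟩ 1) (Matrix.single 0 ⟨1, h2⟩ 1) (Matrix.single 0 0 1))
    simp [trTriple_apply, Matrix.transpose_single, h01] at this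

end

/-- The classification of the simple triple systems satisfying (I1), (I2), (I3). -/
theorem classification :
    (∀ (W : Type u) [AddCommGroup W] [Module ℂ W] [FiniteDimensional ℂ W]
      (B : W →ₗ[ℂ] W →ₗ[ℂ] W →ₗ[ℂ] W),
      (IsSimpleTriple B ∧ Identities B) ↔
        ((∃ n : ℕ, 1 ≤ n ∧ TripleIso B (matTriple n)) ∨
         (∃ p q : ℕ, 1 ≤ p ∧ p ≤ q ∧ TripleIso B (pairTriple p q)))) ∧
    (∀ n m : ℕ, TripleIso (matTriple n) (matTriple m) → n = m) ∧
    (∀ p q p' q' : ℕ, 1 ≤ p → p ≤ q → 1 ≤ p' → p' ≤ q' →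
      TripleIso (pairTriple p q) (pairTriple p' q') → p = p' ∧ q = q') ∧
    (∀ n p q : ℕ, 1 ≤ p → p ≤ q → ¬ TripleIso (matTriple n) (pairTriple p q)) ∧
    (∀ r s : ℕ, 1 ≤ r → 1 ≤ s → Identities (trTriple r s) → r = 1 ∧ s = 1) := by
  refine ⟨?_, fun n m => mat_unique, fun p q p' q' hp hq hp' hq' => pair_unique hp hq hp' hq',
    fun n p q hp hq => mat_pair_distinct hp (hp.trans hq), tr_fails⟩
  intro W _ _ _ B
  constructor
  · rintro ⟨hs, h⟩
    exact forward hs h
  · rintro (⟨n, hn, hi⟩ | ⟨p, q, hp, hq, hi⟩)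
    · exact ⟨simple_of_iso hi (mat_simple n hn), ax_of_iso hi (mat_ax n)⟩
    · exact ⟨simple_of_iso hi (pair_simple p q hp (hp.trans hq)), ax_of_iso hi (pair_ax p q)⟩

end Pool.Agent.Helper355.TriClass
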